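import Pool.Agent.OCG.Defs

/-!
MODULE Core (difficulty 2).  The core: the subgraph of the edges of bounded weight.

RECIPE (`core`).  `N = card V`; if `N = 0` take `K = ⊥`, `S' = ∅`.  `L := tot H r / (β ^ 2 * N ^ 2)`.  The number of ordered pairs
`(a, b)` with `H.Adj a b` and `L < |r a b|` is at most `β ^ 2 N ^ 2`: if `tot H r > 0` then (number) `* L ≤ tot H r`; if
`tot H r = 0` then `r a b = 0` for all `H.Adj a b`, so the number is `0`.
`S' = {v ∈ S | #{w | H.Adj v w ∧ L < |r v w|} ≤ β N}`, so `|S \ S'| * β N ≤ β ^ 2 N ^ 2` (if `S \ S'` is empty clear).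
`K.Adj a b := H.Adj a b ∧ |r a b| ≤ L ∧ a ∈ S' ∧ b ∈ S'` (symmetric by `hs`).  For `v ∈ S'`:
`deg_K v ≥ deg_H v - β N - |S \ S'| ≥ (δ - 2 β) N` (`H`-neighbours are in `S`).
RECIPE (`uset`).  `#{y | H.Adj a y ∧ r a y < - rho H r a / (β N)} ≤ β N`: each such `y` has
`|ext H r a y| > rho / (β N)`; the sum of `|ext H r a y|` is `rho H r a`; if `rho = 0` there is none.
So `U = {y ∈ S' | H.Adj a y ∧ -(rho H r a / (β N)) ≤ r a y}` has at least `δ N - |S \ S'| - β N` elements.
-/

open Finset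
open scoped Classical

namespace Pool.OCG
open Pool.OCY

theorem core_markov {ι : Type*} (s : Finset ι) (f : ι → ℝ) (hf : ∀ i ∈ s, 0 ≤ f i) {M : ℝ} (hM : 0 < M) :
    ((s.filter (fun i => (∑ j ∈ s, f j) / M < f i)).card : ℝ) ≤ M := by
  by_cases h0 : ∑ j ∈ s, f j = 0
  · have h1 : s.filter (fun i => (∑ j ∈ s, f j) / M < f i) = ∅ := by
      rw [Finset.filter_eq_empty_iff]
      intro i hi h
      rw [h0, zero_div] at h
      exact absurd ((Finset.sum_eq_zero_iff_of_nonneg hf).mp h0 i hi) h.ne'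
    rw [h1, Finset.card_empty, Nat.cast_zero]
    exact hM.le
  · have hpos : 0 < ∑ j ∈ s, f j := lt_of_le_of_ne (Finset.sum_nonneg hf) (Ne.symm h0)
    have hL : 0 < (∑ j ∈ s, f j) / M := div_pos hpos hM
    have h1 : ((s.filter (fun i => (∑ j ∈ s, f j) / M < f i)).card : ℝ) * ((∑ j ∈ s, f j) / M) ≤
        ∑ j ∈ s, f j := by
      calc ((s.filter (fun i => (∑ j ∈ s, f j) / M < f i)).card : ℝ) * ((∑ j ∈ s, f j) / M)
          = ∑ _i ∈ s.filter (fun i => (∑ j ∈ s, f j) / M < f i), ((∑ j ∈ s, f j) / M) := by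
            rw [Finset.sum_const, nsmul_eq_mul]
        _ ≤ ∑ i ∈ s.filter (fun i => (∑ j ∈ s, f j) / M < f i), f i :=
            Finset.sum_le_sum fun i hi => (Finset.mem_filter.mp hi).2.le
        _ ≤ ∑ j ∈ s, f j := Finset.sum_le_sum_of_subset_of_nonneg (Finset.filter_subset _ _)
            fun i hi _ => hf i hi
    have h2 : ∑ j ∈ s, f j = M * ((∑ j ∈ s, f j) / M) := by field_simp
    refine le_of_mul_le_mul_right (h1.trans (le_of_eq h2)) hL

theorem core_deg {V : Type*} [Fintype V] (H : SimpleGraph V) (v : V) (A B C : Finset V)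
    (h : ∀ w, H.Adj v w → w ∈ A ∨ w ∈ B ∨ w ∈ C) : (H.degree v : ℝ) ≤ A.card + B.card + C.card := by
  have h1 : H.neighborFinset v ⊆ A ∪ (B ∪ C) := by
    intro w hw
    rw [SimpleGraph.mem_neighborFinset] at hw
    rcases h w hw with h | h | h
    · exact Finset.mem_union_left _ h
    · exact Finset.mem_union_right _ (Finset.mem_union_left _ h)
    · exact Finset.mem_union_right _ (Finset.mem_union_right _ h)
  have h2 := Finset.card_le_card h1
  have h3 := Finset.card_union_le A (B ∪ C)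
  have h4 := Finset.card_union_le B C
  rw [SimpleGraph.card_neighborFinset_eq_degree] at h2
  have h5 : H.degree v ≤ A.card + B.card + C.card := by omega
  exact_mod_cast h5

theorem core {V : Type*} [Fintype V] {β δ : ℝ} (hβ : 0 < β) (H : SimpleGraph V) (S : Finset V)
    (hS : ∀ a b, H.Adj a b → a ∈ S ∧ b ∈ S) (hd : ∀ v ∈ S, δ * Fintype.card V ≤ H.degree v)
    (r : V → V → ℝ) (hs : ∀ a b, r a b = r b a) :
    ∃ (K : SimpleGraph V) (S' : Finset V), K ≤ H ∧ S' ⊆ S ∧
      (∀ a b, K.Adj a b → a ∈ S' ∧ b ∈ S') ∧ (((S \ S').card : ℝ) ≤ β * Fintype.card V) ∧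
      (∀ v ∈ S', (δ - 2 * β) * Fintype.card V ≤ K.degree v) ∧
      ∀ a b, K.Adj a b → |r a b| ≤ tot H r / (β ^ 2 * (Fintype.card V : ℝ) ^ 2) := by
  rcases isEmpty_or_nonempty V with hV | hV
  · refine ⟨⊥, ∅, bot_le, Finset.empty_subset _, fun a => (hV.false a).elim, ?_, fun a => (hV.false a).elim,
      fun a => (hV.false a).elim⟩
    have h1 : S \ ∅ = ∅ := Finset.eq_empty_of_isEmpty _
    rw [h1, Finset.card_empty, Nat.cast_zero]
    positivity
  have hN : (0 : ℝ) < Fintype.card V := by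
    exact_mod_cast Fintype.card_pos
  set N : ℝ := (Fintype.card V : ℝ) with hNdef
  have hM : 0 < β ^ 2 * N ^ 2 := by positivity
  set L : ℝ := tot H r / (β ^ 2 * N ^ 2) with hL
  have hbad := core_markov (Finset.univ : Finset (V × V)) (fun p => |ext H r p.1 p.2|)
    (fun p _ => abs_nonneg _) hM
  have htot : ∑ p : V × V, |ext H r p.1 p.2| = tot H r := by
    rw [Fintype.sum_prod_type]
    rfl
  rw [htot, ← hL] at hbad
  have hL0 : 0 ≤ L := by
    rw [hL]
    refine div_nonneg ?_ hM.le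
    exact Finset.sum_nonneg fun a _ => Finset.sum_nonneg fun b _ => abs_nonneg _
  let bad : V → Finset V := fun v => Finset.univ.filter (fun w => L < |ext H r v w|)
  have hbadsum : ∑ v, ((bad v).card : ℝ) ≤ β ^ 2 * N ^ 2 := by
    refine le_trans (le_of_eq ?_) hbad
    rw [Finset.card_filter, Fintype.sum_prod_type]
    push_cast
    refine Finset.sum_congr rfl fun v _ => ?_
    show (((Finset.univ.filter (fun w => L < |ext H r v w|)).card : ℕ) : ℝ) = _
    rw [Finset.card_filter]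
    push_cast
    rfl
  let S' : Finset V := S.filter (fun v => ((bad v).card : ℝ) ≤ β * N)
  have hSS : S' ⊆ S := Finset.filter_subset _ _
  have hcard : ((S \ S').card : ℝ) ≤ β * N := by
    have h1 : ((S \ S').card : ℝ) * (β * N) ≤ β ^ 2 * N ^ 2 := by
      calc ((S \ S').card : ℝ) * (β * N) = ∑ _v ∈ S \ S', β * N := by rw [Finset.sum_const, nsmul_eq_mul]
        _ ≤ ∑ v ∈ S \ S', ((bad v).card : ℝ) := by
            refine Finset.sum_le_sum fun v hv => ?_
            rw [Finset.mem_sdiff] at hv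
            by_contra hcon
            exact hv.2 (Finset.mem_filter.mpr ⟨hv.1, (not_le.mp hcon).le⟩)
        _ ≤ ∑ v, ((bad v).card : ℝ) := Finset.sum_le_sum_of_subset_of_nonneg (Finset.subset_univ _)
            fun _ _ _ => Nat.cast_nonneg _
        _ ≤ _ := hbadsum
    have h2 : 0 < β * N := by positivity
    refine le_of_mul_le_mul_right (h1.trans (le_of_eq ?_)) h2
    ring
  obtain ⟨K, hK⟩ : ∃ K : SimpleGraph V, ∀ a b, K.Adj a b ↔ (H.Adj a b ∧ |r a b| ≤ L ∧ a ∈ S' ∧ b ∈ S') :=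
    ⟨{ Adj := fun a b => H.Adj a b ∧ |r a b| ≤ L ∧ a ∈ S' ∧ b ∈ S'
       symm := ⟨fun a b h => ⟨h.1.symm, by rw [hs]; exact h.2.1, h.2.2.2, h.2.2.1⟩⟩
       loopless := ⟨fun a h => H.loopless.irrefl a h.1⟩ }, fun a b => Iff.rfl⟩
  refine ⟨K, S', fun a b h => ((hK a b).mp h).1, hSS, fun a b h => ((hK a b).mp h).2.2, hcard, ?_,
    fun a b h => ((hK a b).mp h).2.1⟩
  intro v hv
  have h1 := core_deg H v (K.neighborFinset v) (bad v) (S \ S') (fun w hw => by
    by_cases hw1 : w ∈ S'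
    · by_cases hw2 : |r v w| ≤ L
      · left
        rw [SimpleGraph.mem_neighborFinset]
        exact (hK v w).mpr ⟨hw, hw2, hv, hw1⟩
      · right; left
        refine Finset.mem_filter.mpr ⟨Finset.mem_univ _, ?_⟩
        rw [show ext H r v w = r v w from if_pos hw]
        exact not_le.mp hw2
    · right; right
      exact Finset.mem_sdiff.mpr ⟨(hS v w hw).2, hw1⟩)
  rw [SimpleGraph.card_neighborFinset_eq_degree] at h1
  have h2 := hd v (hSS hv)
  have h3 := (Finset.mem_filter.mp hv).2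
  linarith

theorem uset {V : Type*} [Fintype V] {β δ : ℝ} (hβ : 0 < β) (H : SimpleGraph V) (S S' : Finset V)
    (hS : ∀ a b, H.Adj a b → a ∈ S ∧ b ∈ S) (hSS : S' ⊆ S)
    (hc : ((S \ S').card : ℝ) ≤ β * Fintype.card V) (r : V → V → ℝ) (a : V)
    (hd : δ * Fintype.card V ≤ H.degree a) :
    ∃ U ⊆ S', (δ - 2 * β) * Fintype.card V ≤ (U.card : ℝ) ∧
      ∀ y ∈ U, H.Adj a y ∧ -(rho H r a / (β * Fintype.card V)) ≤ r a y := by
  have hV : Nonempty V := ⟨a⟩
  have hN : (0 : ℝ) < Fintype.card V := by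
    exact_mod_cast Fintype.card_pos
  set N : ℝ := (Fintype.card V : ℝ) with hNdef
  have hM : 0 < β * N := by positivity
  have hbad := core_markov (Finset.univ : Finset V) (fun y => |ext H r a y|) (fun p _ => abs_nonneg _) hM
  have hrho : ∑ y, |ext H r a y| = rho H r a := rfl
  rw [hrho] at hbad
  refine ⟨S'.filter (fun y => H.Adj a y ∧ -(rho H r a / (β * N)) ≤ r a y), Finset.filter_subset _ _, ?_,
    fun y hy => (Finset.mem_filter.mp hy).2⟩
  have h1 := core_deg H a (S'.filter (fun y => H.Adj a y ∧ -(rho H r a / (β * N)) ≤ r a y))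
    (Finset.univ.filter (fun y => rho H r a / (β * N) < |ext H r a y|)) (S \ S') (fun w hw => by
    by_cases hw1 : w ∈ S'
    · by_cases hw2 : -(rho H r a / (β * N)) ≤ r a w
      · left
        exact Finset.mem_filter.mpr ⟨hw1, hw, hw2⟩
      · right; left
        refine Finset.mem_filter.mpr ⟨Finset.mem_univ _, ?_⟩
        rw [show ext H r a w = r a w from if_pos hw]
        have h2 := not_le.mp hw2
        have h3 := neg_le_abs (r a w)
        linarith
    · right; right
      exact Finset.mem_sdiff.mpr ⟨(hS a w hw).2, hw1⟩)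
  linarith

end Pool.OCG
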