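import Pool.Agent.OCG.PairB
import Pool.Agent.OCG.Core

/-!
MODULE BadEG (difficulty 3).  The deleted edges inside `S`.

RECIPE.  `N = card V`, `t = card W`, `β = η / 8`, `δ = 1/2 + 1/(4k) + η`, `n₀` from `pair_bound` with `η / 2` (and `n₀ ≥ 1`).
`core hβ H S` gives `K, S'` with degrees `≥ (δ - 2 β) N ≥ (1/2 + 1/(4k) + η/2) N`, weights `≤ L = tot H r / (β² N²)`.
For `a ∈ S`, `uset` gives `U_a ⊆ S'` with `|U_a| ≥ (δ - 2β) N`, `H.Adj a y` (so `G.Adj a y`) and `-M_a ≤ r a y`,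
`M_a = rho H r a / (β N)`.  `pair_bound` for `a, b ∈ S` with `G.Adj a b`:
`r a b ≤ t (M_a + M_b) + t² L = (t / (β N)) (rho a + rho b) + (t² / (β² N²)) tot`.
Sum over the ordered pairs `a, b ∈ S`, `G.Adj a b`, `¬ H.Adj a b`: each `a` is in at most `γ N` of them (also as the second
entry, by symmetry), there are at most `γ N²` of them: total `≤ (2 t / β) γ tot + (t² / β²) γ tot`
(`∑_a rho a = tot`; the proof of this summation is in the proved file `Pool/Agent/OCY/BadE.lean`, copy it).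
-/

open Finset
open scoped Classical

namespace Pool.OCG
open Pool.OCY

theorem badE {W : Type} [Fintype W] {F : SimpleGraph W} (hF : F ≠ ⊥) {k : ℕ} (hk : 1 ≤ k)
    {c : W → Fin (2 * k + 1)} (hc : Col F (2 * k) c) {η : ℝ} (hη : 0 < η) :
    ∃ C : ℝ, 0 < C ∧ ∃ n₀ : ℕ, ∀ (V : Type) [Fintype V], n₀ ≤ Fintype.card V →
      ∀ (G H : SimpleGraph V) (S : Finset V), H ≤ G → (∀ a b, H.Adj a b → a ∈ S ∧ b ∈ S) →
      (∀ v ∈ S, (1 / 2 + 1 / (4 * k) + η) * Fintype.card V ≤ H.degree v) → ∀ γ : ℝ, 0 ≤ γ →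
      (∀ a ∈ S, ((S.filter fun b => G.Adj a b ∧ ¬ H.Adj a b).card : ℝ) ≤ γ * Fintype.card V) →
      ∀ r : V → V → ℝ, (∀ a b, r a b = r b a) → CopNonpos F G r →
      ∑ a ∈ S, ∑ b ∈ S, (if H.Adj a b then 0 else OCY.ext G r a b) ≤ C * γ * tot H r := by
  obtain ⟨n1, h1⟩ := pair_bound hF hk hc (half_pos hη)
  set t : ℝ := (Fintype.card W : ℝ) with htdef
  have ht0 : 0 ≤ t := Nat.cast_nonneg _
  set β : ℝ := η / 8 with hβdef
  have hβ : 0 < β := by rw [hβdef]; linarith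
  refine ⟨2 * (t / β) + t ^ 2 / β ^ 2 + 1, by positivity, max n1 1, ?_⟩
  intro V _ hn G H S hHG hHS hdeg γ hγ hbad r hs hr
  have hn1 : n1 ≤ Fintype.card V := le_trans (le_max_left _ _) hn
  have hnp : (1 : ℕ) ≤ Fintype.card V := le_trans (le_max_right _ _) hn
  have hnR : (0 : ℝ) < (Fintype.card V : ℝ) := by exact_mod_cast hnp
  obtain ⟨K, S', hKH, hSS, hKS, hSd, hKdeg, hKw⟩ :=
    core (δ := 1 / 2 + 1 / (4 * (k : ℝ)) + η) hβ H S hHS hdeg r hs
  set n : ℝ := (Fintype.card V : ℝ) with hndef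
  have hrho : ∀ a, 0 ≤ rho H r a := fun a => Finset.sum_nonneg (fun _ _ => abs_nonneg _)
  have htot0 : 0 ≤ tot H r := Finset.sum_nonneg (fun a _ => hrho a)
  have hsumS : ∑ a ∈ S, rho H r a ≤ tot H r :=
    Finset.sum_le_sum_of_subset_of_nonneg (Finset.subset_univ S) (fun a _ _ => hrho a)
  have hδ : (1 / 2 + 1 / (4 * (k : ℝ)) + η / 2) * n ≤
      (1 / 2 + 1 / (4 * (k : ℝ)) + η - 2 * β) * n := by
    refine mul_le_mul_of_nonneg_right ?_ hnR.le
    rw [hβdef]; linarith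
  have hpt : ∀ a ∈ S, ∀ b ∈ S, (if H.Adj a b then 0 else OCY.ext G r a b) ≤
      (if G.Adj a b ∧ ¬ H.Adj a b then
        (t / β / n * (rho H r b + rho H r a) + t ^ 2 / β ^ 2 / n ^ 2 * tot H r) else 0) := by
    intro a ha b hb
    by_cases hH : H.Adj a b
    · simp [hH]
    · by_cases hG : G.Adj a b
      · rw [if_neg hH, if_pos ⟨hG, hH⟩]
        unfold OCY.ext
        rw [if_pos hG]
        obtain ⟨Ua, hUa, hUac, hUap⟩ := uset hβ H S S' hHS hSS hSd r a (hdeg a ha)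
        obtain ⟨Ub, hUb, hUbc, hUbp⟩ := uset hβ H S S' hHS hSS hSd r b (hdeg b hb)
        have h2 := h1 V hn1 G K S' (hKH.trans hHG) hKS
          (fun v hv => hδ.trans (hKdeg v hv)) r hs hr _ hKw a b hG Ua Ub hUa hUb
          (hδ.trans hUac) (hδ.trans hUbc) (rho H r a / (β * n)) (rho H r b / (β * n))
          (div_nonneg (hrho a) (by positivity)) (div_nonneg (hrho b) (by positivity))
          (fun x hx => ⟨hHG (hUap x hx).1, (hUap x hx).2⟩)
          (fun x hx => ⟨hHG (hUbp x hx).1, (hUbp x hx).2⟩)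
        refine h2.trans (le_of_eq ?_)
        field_simp
        ring
      · simp [hH, hG, OCY.ext]
  refine (Finset.sum_le_sum (fun a ha => Finset.sum_le_sum (fun b hb => hpt a ha b hb))).trans ?_
  -- split
  have hsplit : ∀ a b : V, (if G.Adj a b ∧ ¬ H.Adj a b then
        (t / β / n * (rho H r b + rho H r a) + t ^ 2 / β ^ 2 / n ^ 2 * tot H r) else 0) =
      t / β / n * (if G.Adj a b ∧ ¬ H.Adj a b then rho H r b else 0) +
      t / β / n * (if G.Adj a b ∧ ¬ H.Adj a b then rho H r a else 0) +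
      t ^ 2 / β ^ 2 / n ^ 2 * tot H r * (if G.Adj a b ∧ ¬ H.Adj a b then 1 else 0) := by
    intro a b
    split_ifs <;> ring
  simp only [hsplit, Finset.sum_add_distrib, ← Finset.mul_sum]
  have hA : ∑ a ∈ S, ∑ b ∈ S, (if G.Adj a b ∧ ¬ H.Adj a b then rho H r a else 0) ≤
      γ * n * tot H r := by
    have hA1 : ∀ a ∈ S, ∑ b ∈ S, (if G.Adj a b ∧ ¬ H.Adj a b then rho H r a else 0) ≤
        γ * n * rho H r a := by
      intro a ha
      rw [← Finset.sum_filter, Finset.sum_const, nsmul_eq_mul]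
      exact mul_le_mul_of_nonneg_right (hbad a ha) (hrho a)
    refine (Finset.sum_le_sum hA1).trans ?_
    rw [← Finset.mul_sum]
    exact mul_le_mul_of_nonneg_left hsumS (by positivity)
  have hB : ∑ a ∈ S, ∑ b ∈ S, (if G.Adj a b ∧ ¬ H.Adj a b then rho H r b else 0) ≤
      γ * n * tot H r := by
    rw [Finset.sum_comm]
    refine le_trans (le_of_eq ?_) hA
    refine Finset.sum_congr rfl (fun a _ => Finset.sum_congr rfl (fun b _ => ?_))
    have e : (G.Adj b a ∧ ¬ H.Adj b a) ↔ (G.Adj a b ∧ ¬ H.Adj a b) := by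
      rw [G.adj_comm, H.adj_comm]
    simp only [e]
  have hD : ∑ a ∈ S, ∑ b ∈ S, (if G.Adj a b ∧ ¬ H.Adj a b then (1 : ℝ) else 0) ≤ γ * n * n := by
    have hD1 : ∀ a ∈ S, ∑ b ∈ S, (if G.Adj a b ∧ ¬ H.Adj a b then (1 : ℝ) else 0) ≤ γ * n := by
      intro a ha
      rw [← Finset.sum_filter, Finset.sum_const, nsmul_eq_mul, mul_one]
      exact hbad a ha
    refine (Finset.sum_le_sum hD1).trans ?_
    rw [Finset.sum_const, nsmul_eq_mul, mul_comm]
    refine mul_le_mul_of_nonneg_left ?_ (by positivity)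
    have : S.card ≤ Fintype.card V := Finset.card_le_univ S
    rw [hndef]
    exact_mod_cast this
  have hCn : 0 ≤ t / β / n := by positivity
  have hCn2 : 0 ≤ t ^ 2 / β ^ 2 / n ^ 2 * tot H r := by positivity
  have k1 := mul_le_mul_of_nonneg_left hB hCn
  have k2 := mul_le_mul_of_nonneg_left hA hCn
  have k3 := mul_le_mul_of_nonneg_left hD hCn2
  have e1 : t / β / n * (γ * n * tot H r) = t / β * γ * tot H r := by
    field_simp
  have e3 : t ^ 2 / β ^ 2 / n ^ 2 * tot H r * (γ * n * n) = t ^ 2 / β ^ 2 * γ * tot H r := by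
    field_simp
  rw [e1] at k1 k2
  rw [e3] at k3
  have k4 : 0 ≤ γ * tot H r := mul_nonneg hγ htot0
  nlinarith [k1, k2, k3, k4]

end Pool.OCG
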