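import Mathlib

/-!
MODULE Seq (difficulty 2).  Counting by successive choices.

RECIPE: `card {x : A × B | P x.1 ∧ Q x.1 x.2} = ∑_{a, P a} card {b | Q a b} ≥ (κ n) * (lower bound)`; iterate.
For the versions with functions `Fin 3 → V`, `Fin 5 → V`: the map `x ↦ (x i₁, x i₂, ...)` for a permutation of the
indices is a bijection to the product (`Fin` functions versus tuples, e.g. an explicit `Equiv` or
`Finset.card_le_card_of_injOn` from the tuples to the functions with `![...]`).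
`seq5`: the coordinates are chosen in the order `1, 0, 2, 4, 3` (given `x 1`, then `x 0`, ...);
`seq5'`: in the order `1, 4, 0, 2, 3`; `seq3`: in the order `1, 2, 0`; `seq3'`: in the order `2, 1, 0`.
-/

open Finset
open scoped Classical

namespace Pool.OCG

/-- one more choice -/
theorem seq_step {A B : Type*} [Fintype A] [Fintype B] {κ κ' : ℝ} (hκ : 0 ≤ κ) (P : A → Prop) (Q : A → B → Prop)
    {_ : DecidablePred P} {_ : ∀ a, DecidablePred (Q a)} [DecidablePred fun x : A × B => P x.1 ∧ Q x.1 x.2]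
    (ha : κ' ≤ ((univ.filter fun x => P x).card : ℝ))
    (hb : ∀ a, P a → κ ≤ ((univ.filter fun x => Q a x).card : ℝ)) :
    κ' * κ ≤ ((univ.filter fun x : A × B => P x.1 ∧ Q x.1 x.2).card : ℝ) := by
  have h1 : (univ.filter fun x : A × B => P x.1 ∧ Q x.1 x.2).card
      = ∑ a ∈ univ.filter (fun x => P x), (univ.filter fun x => Q a x).card := by
    rw [← Finset.card_sigma]
    refine Finset.card_bij' (fun x _ => ⟨x.1, x.2⟩) (fun x _ => (x.1, x.2)) ?_ ?_ ?_ ?_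
    · intro x hx
      simpa using hx
    · intro x hx
      simpa using hx
    · intro x _
      rfl
    · intro x _
      rfl
  rw [h1]
  push_cast
  calc κ' * κ ≤ ((univ.filter fun x => P x).card : ℝ) * κ := mul_le_mul_of_nonneg_right ha hκ
    _ = ∑ a ∈ univ.filter (fun x => P x), κ := by rw [Finset.sum_const, nsmul_eq_mul]
    _ ≤ ∑ a ∈ univ.filter (fun x => P x), ((univ.filter fun x => Q a x).card : ℝ) :=
        Finset.sum_le_sum fun a hx => hb a (Finset.mem_filter.1 hx).2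

theorem seq5 {V : Type*} [Fintype V] {κ : ℝ} (hκ : 0 ≤ κ) (P1 : V → Prop) (P0 : V → V → Prop)
    (P2 P4 P3 : V → V → V → V → V → Prop)
    (h1 : κ ≤ ((univ.filter fun x => P1 x).card : ℝ))
    (h0 : ∀ x1, P1 x1 → κ ≤ ((univ.filter fun x => P0 x1 x).card : ℝ))
    (h2 : ∀ x1 x0, P1 x1 → P0 x1 x0 → κ ≤ ((univ.filter fun x => P2 x1 x0 x x x).card : ℝ))
    (h4 : ∀ x1 x0 x2, P1 x1 → P0 x1 x0 → P2 x1 x0 x2 x2 x2 →
      κ ≤ ((univ.filter fun x => P4 x1 x0 x2 x x).card : ℝ))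
    (h3 : ∀ x1 x0 x2 x4, P1 x1 → P0 x1 x0 → P2 x1 x0 x2 x2 x2 → P4 x1 x0 x2 x4 x4 →
      κ ≤ ((univ.filter fun x => P3 x1 x0 x2 x4 x).card : ℝ)) :
    κ ^ 5 ≤ ((univ.filter fun x : Fin 5 → V => P1 (x 1) ∧ P0 (x 1) (x 0) ∧
      P2 (x 1) (x 0) (x 2) (x 2) (x 2) ∧ P4 (x 1) (x 0) (x 2) (x 4) (x 4) ∧
      P3 (x 1) (x 0) (x 2) (x 4) (x 3)).card : ℝ) := by
  have s0 := seq_step hκ P1 P0 h1 h0
  have s2 := seq_step (A := V × V) (B := V) hκ (fun a => P1 a.1 ∧ P0 a.1 a.2) (fun a x => P2 a.1 a.2 x x x) s0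
    (fun a ha => h2 a.1 a.2 ha.1 ha.2)
  have s4 := seq_step (A := (V × V) × V) (B := V) hκ (fun a => (P1 a.1.1 ∧ P0 a.1.1 a.1.2) ∧ P2 a.1.1 a.1.2 a.2 a.2 a.2)
    (fun a x => P4 a.1.1 a.1.2 a.2 x x) s2 (fun a ha => h4 a.1.1 a.1.2 a.2 ha.1.1 ha.1.2 ha.2)
  have s3 := seq_step (A := ((V × V) × V) × V) (B := V) hκ
    (fun a => ((P1 a.1.1.1 ∧ P0 a.1.1.1 a.1.1.2) ∧ P2 a.1.1.1 a.1.1.2 a.1.2 a.1.2 a.1.2) ∧
      P4 a.1.1.1 a.1.1.2 a.1.2 a.2 a.2)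
    (fun a x => P3 a.1.1.1 a.1.1.2 a.1.2 a.2 x) s4
    (fun a ha => h3 a.1.1.1 a.1.1.2 a.1.2 a.2 ha.1.1.1 ha.1.1.2 ha.1.2 ha.2)
  have e : κ ^ 5 = κ * κ * κ * κ * κ := by ring
  rw [e]
  refine s3.trans ?_
  rw [Nat.cast_le]
  refine Finset.card_le_card_of_injOn (fun a => ![a.1.1.1.2, a.1.1.1.1, a.1.1.2, a.2, a.1.2]) ?_ ?_
  · intro a ha
    obtain ⟨⟨⟨⟨g1, g0⟩, g2⟩, g4⟩, g3⟩ := (Finset.mem_filter.1 (Finset.mem_coe.1 ha)).2
    exact Finset.mem_coe.2 (Finset.mem_filter.2 ⟨Finset.mem_univ _, g1, g0, g2, g4, g3⟩)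
  · intro a _ b _ hab
    have e0 : a.1.1.1.2 = b.1.1.1.2 := congrFun hab 0
    have e1 : a.1.1.1.1 = b.1.1.1.1 := congrFun hab 1
    have e2 : a.1.1.2 = b.1.1.2 := congrFun hab 2
    have e3 : a.2 = b.2 := congrFun hab 3
    have e4 : a.1.2 = b.1.2 := congrFun hab 4
    exact Prod.ext (Prod.ext (Prod.ext (Prod.ext e1 e0) e2) e4) e3

theorem seq5' {V : Type*} [Fintype V] {κ : ℝ} (hκ : 0 ≤ κ) (P1 : V → Prop) (P4 : V → V → Prop)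
    (P0 P2 P3 : V → V → V → V → V → Prop)
    (h1 : κ ≤ ((univ.filter fun x => P1 x).card : ℝ))
    (h4 : ∀ x1, P1 x1 → κ ≤ ((univ.filter fun x => P4 x1 x).card : ℝ))
    (h0 : ∀ x1 x4, P1 x1 → P4 x1 x4 → κ ≤ ((univ.filter fun x => P0 x1 x4 x x x).card : ℝ))
    (h2 : ∀ x1 x4 x0, P1 x1 → P4 x1 x4 → P0 x1 x4 x0 x0 x0 →
      κ ≤ ((univ.filter fun x => P2 x1 x4 x0 x x).card : ℝ))
    (h3 : ∀ x1 x4 x0 x2, P1 x1 → P4 x1 x4 → P0 x1 x4 x0 x0 x0 → P2 x1 x4 x0 x2 x2 →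
      κ ≤ ((univ.filter fun x => P3 x1 x4 x0 x2 x).card : ℝ)) :
    κ ^ 5 ≤ ((univ.filter fun x : Fin 5 → V => P1 (x 1) ∧ P4 (x 1) (x 4) ∧
      P0 (x 1) (x 4) (x 0) (x 0) (x 0) ∧ P2 (x 1) (x 4) (x 0) (x 2) (x 2) ∧
      P3 (x 1) (x 4) (x 0) (x 2) (x 3)).card : ℝ) := by
  have s0 := seq_step hκ P1 P4 h1 h4
  have s2 := seq_step (A := V × V) (B := V) hκ (fun a => P1 a.1 ∧ P4 a.1 a.2) (fun a x => P0 a.1 a.2 x x x) s0
    (fun a ha => h0 a.1 a.2 ha.1 ha.2)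
  have s4 := seq_step (A := (V × V) × V) (B := V) hκ (fun a => (P1 a.1.1 ∧ P4 a.1.1 a.1.2) ∧ P0 a.1.1 a.1.2 a.2 a.2 a.2)
    (fun a x => P2 a.1.1 a.1.2 a.2 x x) s2 (fun a ha => h2 a.1.1 a.1.2 a.2 ha.1.1 ha.1.2 ha.2)
  have s3 := seq_step (A := ((V × V) × V) × V) (B := V) hκ
    (fun a => ((P1 a.1.1.1 ∧ P4 a.1.1.1 a.1.1.2) ∧ P0 a.1.1.1 a.1.1.2 a.1.2 a.1.2 a.1.2) ∧
      P2 a.1.1.1 a.1.1.2 a.1.2 a.2 a.2)
    (fun a x => P3 a.1.1.1 a.1.1.2 a.1.2 a.2 x) s4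
    (fun a ha => h3 a.1.1.1 a.1.1.2 a.1.2 a.2 ha.1.1.1 ha.1.1.2 ha.1.2 ha.2)
  have e : κ ^ 5 = κ * κ * κ * κ * κ := by ring
  rw [e]
  refine s3.trans ?_
  rw [Nat.cast_le]
  refine Finset.card_le_card_of_injOn (fun a => ![a.1.1.2, a.1.1.1.1, a.1.2, a.2, a.1.1.1.2]) ?_ ?_
  · intro a ha
    obtain ⟨⟨⟨⟨g1, g0⟩, g2⟩, g4⟩, g3⟩ := (Finset.mem_filter.1 (Finset.mem_coe.1 ha)).2
    exact Finset.mem_coe.2 (Finset.mem_filter.2 ⟨Finset.mem_univ _, g1, g0, g2, g4, g3⟩)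
  · intro a _ b _ hab
    have e0 : a.1.1.2 = b.1.1.2 := congrFun hab 0
    have e1 : a.1.1.1.1 = b.1.1.1.1 := congrFun hab 1
    have e2 : a.1.2 = b.1.2 := congrFun hab 2
    have e3 : a.2 = b.2 := congrFun hab 3
    have e4 : a.1.1.1.2 = b.1.1.1.2 := congrFun hab 4
    exact Prod.ext (Prod.ext (Prod.ext (Prod.ext e1 e4) e0) e2) e3

theorem seq3 {V : Type*} [Fintype V] {κ : ℝ} (hκ : 0 ≤ κ) (P1 : V → Prop) (P2 : V → V → Prop)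
    (P0 : V → V → V → Prop)
    (h1 : κ ≤ ((univ.filter fun x => P1 x).card : ℝ))
    (h2 : ∀ x1, P1 x1 → κ ≤ ((univ.filter fun x => P2 x1 x).card : ℝ))
    (h0 : ∀ x1 x2, P1 x1 → P2 x1 x2 → κ ≤ ((univ.filter fun x => P0 x1 x2 x).card : ℝ)) :
    κ ^ 3 ≤ ((univ.filter fun x : Fin 3 → V => P1 (x 1) ∧ P2 (x 1) (x 2) ∧
      P0 (x 1) (x 2) (x 0)).card : ℝ) := by
  have s0 := seq_step hκ P1 P2 h1 h2
  have s3 := seq_step (A := V × V) (B := V) hκ (fun a => P1 a.1 ∧ P2 a.1 a.2) (fun a x => P0 a.1 a.2 x) s0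
    (fun a ha => h0 a.1 a.2 ha.1 ha.2)
  have e : κ ^ 3 = κ * κ * κ := by ring
  rw [e]
  refine s3.trans ?_
  rw [Nat.cast_le]
  refine Finset.card_le_card_of_injOn (fun a => ![a.2, a.1.1, a.1.2]) ?_ ?_
  · intro a ha
    obtain ⟨⟨g1, g0⟩, g3⟩ := (Finset.mem_filter.1 (Finset.mem_coe.1 ha)).2
    exact Finset.mem_coe.2 (Finset.mem_filter.2 ⟨Finset.mem_univ _, g1, g0, g3⟩)
  · intro a _ b _ hab
    have e0 : a.2 = b.2 := congrFun hab 0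
    have e1 : a.1.1 = b.1.1 := congrFun hab 1
    have e2 : a.1.2 = b.1.2 := congrFun hab 2
    exact Prod.ext (Prod.ext e1 e2) e0

theorem seq3' {V : Type*} [Fintype V] {κ : ℝ} (hκ : 0 ≤ κ) (P2 : V → Prop) (P1 : V → V → Prop)
    (P0 : V → V → V → Prop)
    (h2 : κ ≤ ((univ.filter fun x => P2 x).card : ℝ))
    (h1 : ∀ x2, P2 x2 → κ ≤ ((univ.filter fun x => P1 x2 x).card : ℝ))
    (h0 : ∀ x2 x1, P2 x2 → P1 x2 x1 → κ ≤ ((univ.filter fun x => P0 x2 x1 x).card : ℝ)) :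
    κ ^ 3 ≤ ((univ.filter fun x : Fin 3 → V => P2 (x 2) ∧ P1 (x 2) (x 1) ∧
      P0 (x 2) (x 1) (x 0)).card : ℝ) := by
  have s0 := seq_step hκ P2 P1 h2 h1
  have s3 := seq_step (A := V × V) (B := V) hκ (fun a => P2 a.1 ∧ P1 a.1 a.2) (fun a x => P0 a.1 a.2 x) s0
    (fun a ha => h0 a.1 a.2 ha.1 ha.2)
  have e : κ ^ 3 = κ * κ * κ := by ring
  rw [e]
  refine s3.trans ?_
  rw [Nat.cast_le]
  refine Finset.card_le_card_of_injOn (fun a => ![a.2, a.1.2, a.1.1]) ?_ ?_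
  · intro a ha
    obtain ⟨⟨g1, g0⟩, g3⟩ := (Finset.mem_filter.1 (Finset.mem_coe.1 ha)).2
    exact Finset.mem_coe.2 (Finset.mem_filter.2 ⟨Finset.mem_univ _, g1, g0, g3⟩)
  · intro a _ b _ hab
    have e0 : a.2 = b.2 := congrFun hab 0
    have e1 : a.1.2 = b.1.2 := congrFun hab 1
    have e2 : a.1.1 = b.1.1 := congrFun hab 2
    exact Prod.ext (Prod.ext e2 e1) e0

end Pool.OCG
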