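import Pool.Agent.OCG.CfgBox
import Pool.Agent.OCG.Seq

/-!
MODULE CfgA (difficulty 3).  Blow-ups of the 5-cycle in a graph of minimum degree `> n/2` (on `S`), with prescribed sets.

RECIPE (`N = card V`, `K`-degree of `v ∈ S` at least `(1/2 + η) N`, all neighbours in `S`).  Two vertices of `S` have at
least `2 η N` common neighbours, a vertex of `S` and a set `U` with `|U| ≥ (1/2 + η) N` at least `2 η N` neighbours in `U`
(`|A ∩ B| ≥ |A| + |B| - N`).  Note `2 η N ≤ N`; let `κ = min α (2 η)` resp. `κ = 2 η` (`κ ≤ 1/2` may be assumed or not needed).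
* `cfg1` (positions: `x 1 ∈ U`, `x 4 ∈ U'`): `seq5'` with `P1 x1 = (x1 ∈ U)`, `P4 _ x4 = (x4 ∈ U')`,
  `P0 = K.Adj x1 x0 ∧ K.Adj x4 x0`, `P2 = K.Adj x1 x2`, `P3 = K.Adj x2 x3 ∧ K.Adj x4 x3`: at least `(κ N)^5` functions.
  Then `cfg_box 4 t (κ ^ 5)` with `Y 1 = U`, `Y 4 = U'`, the other `Y s = univ`, `Z = {a}`.
* `cfg2` (positions: `x 1, x 4 ∈ U`, `x 0, x 2 ∈ U'`): `seq5` with `P1 = (x1 ∈ U)`, `P0 = (x0 ∈ U' ∧ K.Adj x1 x0)`,
  `P2 = (x2 ∈ U' ∧ K.Adj x1 x2)`, `P4 = (x4 ∈ U ∧ K.Adj x0 x4)`, `P3 = (K.Adj x2 x3 ∧ K.Adj x4 x3)`; `Z = {a, b}`.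
The cyclic adjacencies are `x 0 x 1`, `x 1 x 2`, `x 2 x 3`, `x 3 x 4`, `x 4 x 0`.
-/

open Finset
open scoped Classical

namespace Pool.OCG
open Pool.OCY

theorem cfga_card {V : Type*} [Fintype V] {p q : V → Prop} {_ : DecidablePred p}
    {_ : DecidablePred q}
    (h : ∀ x, p x → q x) : ((univ.filter p).card : ℝ) ≤ ((univ.filter q).card : ℝ) := by
  exact_mod_cast Finset.card_le_card (by
    intro x hx
    rw [Finset.mem_filter] at hx ⊢
    exact ⟨hx.1, h x hx.2⟩)

theorem cfga_mem {V : Type*} [Fintype V] (U : Finset V) {q : V → Prop} {_ : DecidablePred q}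
    (h : ∀ x, x ∈ U → q x) : (U.card : ℝ) ≤ ((univ.filter q).card : ℝ) := by
  exact_mod_cast Finset.card_le_card (by
    intro x hx
    rw [Finset.mem_filter]
    exact ⟨Finset.mem_univ _, h x hx⟩)

theorem cfga_inter {V : Type} [Fintype V] (A B : Finset V) :
    (A.card : ℝ) + B.card - Fintype.card V ≤ (A ∩ B).card := by
  have h1 := Finset.card_union_add_card_inter A B
  have h2 : (A ∪ B).card ≤ Fintype.card V := Finset.card_le_univ _
  have h3 : A.card + B.card ≤ Fintype.card V + (A ∩ B).card := by omega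
  have h4 : ((A.card + B.card : ℕ) : ℝ) ≤ ((Fintype.card V + (A ∩ B).card : ℕ) : ℝ) := by
    exact_mod_cast h3
  push_cast at h4
  linarith

theorem cfga_deg {V : Type} [Fintype V] (K : SimpleGraph V) (v : V) :
    ((univ.filter fun x => K.Adj v x).card : ℝ) = K.degree v := by
  have : (univ.filter fun x => K.Adj v x) = K.neighborFinset v := by
    ext x; simp
  rw [this, SimpleGraph.card_neighborFinset_eq_degree]

theorem cfga_comm {V : Type} [Fintype V] (K : SimpleGraph V) {η : ℝ} {v w : V}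
    (hv : (1 / 2 + η) * Fintype.card V ≤ K.degree v)
    (hw : (1 / 2 + η) * Fintype.card V ≤ K.degree w) :
    2 * η * Fintype.card V ≤ ((univ.filter fun x => K.Adj v x ∧ K.Adj w x).card : ℝ) := by
  have h := cfga_inter (univ.filter fun x => K.Adj v x) (univ.filter fun x => K.Adj w x)
  rw [cfga_deg, cfga_deg, ← Finset.filter_and] at h
  linarith

theorem cfga_nb {V : Type} [Fintype V] (K : SimpleGraph V) {η : ℝ} {v : V} {U : Finset V}
    (hv : (1 / 2 + η) * Fintype.card V ≤ K.degree v)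
    (hU : (1 / 2 + η) * Fintype.card V ≤ U.card) :
    2 * η * Fintype.card V ≤ ((univ.filter fun x => x ∈ U ∧ K.Adj v x).card : ℝ) := by
  have h := cfga_inter U (univ.filter fun x => K.Adj v x)
  rw [cfga_deg] at h
  have h2 : U ∩ (univ.filter fun x => K.Adj v x) = univ.filter fun x => x ∈ U ∧ K.Adj v x := by
    ext x; simp
  rw [h2] at h
  linarith

theorem cfg1 (t : ℕ) {η α : ℝ} (hη : 0 < η) (hα : 0 < α) : ∃ n₀ : ℕ, ∀ (V : Type) [Fintype V],
    n₀ ≤ Fintype.card V → ∀ (K : SimpleGraph V) (S : Finset V),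
      (∀ a b, K.Adj a b → a ∈ S ∧ b ∈ S) →
      (∀ v ∈ S, (1 / 2 + η) * Fintype.card V ≤ K.degree v) →
      ∀ U U' : Finset V, U ⊆ S → U' ⊆ S → α * Fintype.card V ≤ U.card →
      α * Fintype.card V ≤ U'.card → ∀ a : V,
      ∃ X : Fin 5 → Finset V, (∀ s, (X s).card = t) ∧
        (∀ s s', s ≠ s' → Disjoint (X s) (X s')) ∧ (∀ s, a ∉ X s) ∧ X 1 ⊆ U ∧ X 4 ⊆ U' ∧
        ∀ s, ∀ x ∈ X s, ∀ y ∈ X (s + 1), K.Adj x y := by
  obtain ⟨κ, hκ, hκα, hκη, hκ2⟩ : ∃ κ : ℝ, 0 < κ ∧ κ ≤ α ∧ κ ≤ 2 * η ∧ κ ≤ 1 / 2 :=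
    ⟨min α (min (2 * η) (1 / 2)), by positivity, min_le_left _ _,
      (min_le_right _ _).trans (min_le_left _ _), (min_le_right _ _).trans (min_le_right _ _)⟩
  obtain ⟨n₀, hn₀⟩ := cfg_box 4 t (κ := κ ^ 5) (by positivity)
  refine ⟨n₀, fun V _ hV K S hS hdeg U U' hU hU' hUc hU'c a => ?_⟩
  have hN : (0 : ℝ) ≤ Fintype.card V := Nat.cast_nonneg _
  have key := seq5' (V := V) (κ := κ * Fintype.card V) (by positivity)
    (fun x1 => x1 ∈ U) (fun _ x4 => x4 ∈ U')
    (fun x1 x4 x0 _ _ => K.Adj x1 x0 ∧ K.Adj x4 x0)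
    (fun x1 _ _ x2 _ => K.Adj x1 x2)
    (fun _ x4 _ x2 x3 => K.Adj x2 x3 ∧ K.Adj x4 x3)
    (by
      exact (mul_le_mul_of_nonneg_right hκα hN).trans
        (hUc.trans (cfga_mem U fun x hx => hx)))
    (by
      intro x1 _
      exact (mul_le_mul_of_nonneg_right hκα hN).trans
        (hU'c.trans (cfga_mem U' fun x hx => hx)))
    (by
      intro x1 x4 h1 h4
      exact (mul_le_mul_of_nonneg_right hκη hN).trans
        ((cfga_comm K (hdeg x1 (hU h1)) (hdeg x4 (hU' h4))).trans (cfga_card fun x hx => hx)))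
    (by
      intro x1 x4 x0 h1 h4 h0
      have h5 := hdeg x1 (hU h1)
      have h6 := cfga_deg K x1
      have h7 : κ * Fintype.card V ≤ (1 / 2 + η) * Fintype.card V := by
        apply mul_le_mul_of_nonneg_right _ hN
        linarith
      exact (h7.trans (h5.trans h6.ge)).trans (cfga_card fun x hx => hx))
    (by
      intro x1 x4 x0 x2 h1 h4 h0 h2
      exact (mul_le_mul_of_nonneg_right hκη hN).trans
        ((cfga_comm K (hdeg x2 (hS _ _ h2).2) (hdeg x4 (hU' h4))).trans (cfga_card fun x hx => hx)))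
  obtain ⟨X, hX1, hX2, hX3, hX4, hX5⟩ := hn₀ V hV K {a} (by simp)
    (fun s => if s = 1 then U else if s = 4 then U' else univ) (by
      rw [← mul_pow]
      refine key.trans ?_
      exact cfga_card (by
        intro x hx
        obtain ⟨h1, h4, ⟨h10, h40⟩, h12, h23, h43⟩ := hx
        refine ⟨?_, ?_⟩
        · intro s
          fin_cases s
          · simp
          · simpa using h1
          · simp
          · simp
          · simpa using h4
        · intro s
          fin_cases s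
          · exact h10.symm
          · exact h12
          · exact h23
          · exact h43.symm
          · exact h40))
  refine ⟨X, hX1, hX4, fun s => hX3 s a (by simp), ?_, ?_, hX5⟩
  · have := hX2 1
    simpa using this
  · have := hX2 4
    simpa using this

theorem cfg2 (t : ℕ) {η : ℝ} (hη : 0 < η) : ∃ n₀ : ℕ, ∀ (V : Type) [Fintype V],
    n₀ ≤ Fintype.card V → ∀ (K : SimpleGraph V) (S : Finset V),
      (∀ a b, K.Adj a b → a ∈ S ∧ b ∈ S) →
      (∀ v ∈ S, (1 / 2 + η) * Fintype.card V ≤ K.degree v) →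
      ∀ U U' : Finset V, U ⊆ S → U' ⊆ S → (1 / 2 + η) * Fintype.card V ≤ U.card →
      (1 / 2 + η) * Fintype.card V ≤ U'.card → ∀ a b : V,
      ∃ X : Fin 5 → Finset V, (∀ s, (X s).card = t) ∧
        (∀ s s', s ≠ s' → Disjoint (X s) (X s')) ∧ (∀ s, a ∉ X s) ∧ (∀ s, b ∉ X s) ∧
        X 1 ⊆ U ∧ X 4 ⊆ U ∧ X 0 ⊆ U' ∧ X 2 ⊆ U' ∧
        ∀ s, ∀ x ∈ X s, ∀ y ∈ X (s + 1), K.Adj x y := by
  obtain ⟨κ, hκ, hκη, hκ2⟩ : ∃ κ : ℝ, 0 < κ ∧ κ ≤ 2 * η ∧ κ ≤ 1 / 2 :=
    ⟨min (2 * η) (1 / 2), by positivity, min_le_left _ _, min_le_right _ _⟩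
  obtain ⟨n₀, hn₀⟩ := cfg_box 4 t (κ := κ ^ 5) (by positivity)
  refine ⟨n₀, fun V _ hV K S hS hdeg U U' hU hU' hUc hU'c a b => ?_⟩
  have hN : (0 : ℝ) ≤ Fintype.card V := Nat.cast_nonneg _
  have key := seq5 (V := V) (κ := κ * Fintype.card V) (by positivity)
    (fun x1 => x1 ∈ U) (fun x1 x0 => x0 ∈ U' ∧ K.Adj x1 x0)
    (fun x1 _ x2 _ _ => x2 ∈ U' ∧ K.Adj x1 x2)
    (fun _ x0 _ x4 _ => x4 ∈ U ∧ K.Adj x0 x4)
    (fun _ _ x2 x4 x3 => K.Adj x2 x3 ∧ K.Adj x4 x3)
    (by
      refine le_trans ?_ (cfga_mem U fun x hx => hx)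
      have h7 : κ * Fintype.card V ≤ (1 / 2 + η) * Fintype.card V := by
        apply mul_le_mul_of_nonneg_right _ hN
        linarith
      linarith)
    (by
      intro x1 h1
      exact (mul_le_mul_of_nonneg_right hκη hN).trans
        ((cfga_nb K (hdeg x1 (hU h1)) hU'c).trans (cfga_card fun x hx => hx)))
    (by
      intro x1 x0 h1 h0
      exact (mul_le_mul_of_nonneg_right hκη hN).trans
        ((cfga_nb K (hdeg x1 (hU h1)) hU'c).trans (cfga_card fun x hx => hx)))
    (by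
      intro x1 x0 x2 h1 h0 h2
      exact (mul_le_mul_of_nonneg_right hκη hN).trans
        ((cfga_nb K (hdeg x0 (hU' h0.1)) hUc).trans (cfga_card fun x hx => hx)))
    (by
      intro x1 x0 x2 x4 h1 h0 h2 h4
      exact (mul_le_mul_of_nonneg_right hκη hN).trans
        ((cfga_comm K (hdeg x2 (hU' h2.1)) (hdeg x4 (hU h4.1))).trans
          (cfga_card fun x hx => hx)))
  obtain ⟨X, hX1, hX2, hX3, hX4, hX5⟩ := hn₀ V hV K {a, b} (Finset.card_le_two)
    (fun s => if s = 1 then U else if s = 4 then U else if s = 0 then U' else if s = 2 then U'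
      else univ) (by
      rw [← mul_pow]
      refine key.trans ?_
      exact cfga_card (by
        intro x hx
        obtain ⟨h1, ⟨h0, h10⟩, ⟨h2, h12⟩, ⟨h4, h04⟩, h23, h43⟩ := hx
        refine ⟨?_, ?_⟩
        · intro s
          fin_cases s
          · simpa using h0
          · simpa using h1
          · simpa using h2
          · simp
          · simpa using h4
        · intro s
          fin_cases s
          · exact h10.symm
          · exact h12
          · exact h23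
          · exact h43.symm
          · exact h04.symm))
  refine ⟨X, hX1, hX4, fun s => hX3 s a (by simp), fun s => hX3 s b (by simp), ?_, ?_, ?_, ?_,
    hX5⟩
  · have := hX2 1
    simpa using this
  · have := hX2 4
    simpa using this
  · have := hX2 0
    simpa using this
  · have := hX2 2
    simpa using this

end Pool.OCG
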