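import Pool.Agent.OCG.CfgBox
import Pool.Agent.OCG.Seq

/-!
MODULE CfgB (difficulty 3).  Blow-ups of the triangle in a graph of minimum degree `> 3n/4` (on `S`), with prescribed sets.

RECIPE (`N = card V`, `K`-degree of `v ∈ S` at least `(3/4 + η) N`, all neighbours in `S`; `|A ∩ B| ≥ |A| + |B| - N`).
* `cfg1t` (`x 1 ∈ U`, `x 2 ∈ U'`, `|U| ≥ α N`, `|U'| ≥ N/4`): `seq3` with `P1 = (x1 ∈ U)`, `P2 = (x2 ∈ U' ∧ K.Adj x1 x2)`
  (at least `N/4 + (3/4 + η) N - N = η N`), `P0 = K.Adj x1 x0 ∧ K.Adj x2 x0` (at least `N/2 ≥ η N`, since `η ≤ 1/4` as soon as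
  `S` is nonempty and `N > 0`; or take `κ = min α (min η (1/2))`): at least `(κ N)^3` functions.  Then
  `cfg_box 2 t (κ ^ 3)` with `Y 1 = U`, `Y 2 = U'`, `Y 0 = univ`, `Z = {a}`.
* `cfg2t` (`x 1 ∈ U`, `x 2 ∈ U ∩ U'`, `x 0 ∈ U'`; `|U|, |U'| ≥ (3/4 + η) N`): `seq3'` with `P2 = (x2 ∈ U ∩ U')` (`≥ N/2`),
  `P1 = (x1 ∈ U ∧ K.Adj x2 x1)` (`≥ N/2`), `P0 = (x0 ∈ U' ∧ K.Adj x1 x0 ∧ K.Adj x2 x0)` (`≥ N/4`); `κ = 1/4`; `Z = {a, b}`.
The cyclic adjacencies are `x 0 x 1`, `x 1 x 2`, `x 2 x 0`.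
-/

open Finset
open scoped Classical

namespace Pool.OCG
open Pool.OCY

theorem cfgb_inter {V : Type*} [Fintype V] (p q r : V → Prop) (dp : DecidablePred p)
    (dq : DecidablePred q) (dr : DecidablePred r) (hr : ∀ x, p x → q x → r x) {A B : ℝ}
    (hA : A ≤ ((@Finset.filter V p dp univ).card : ℝ))
    (hB : B ≤ ((@Finset.filter V q dq univ).card : ℝ)) :
    A + B - Fintype.card V ≤ ((@Finset.filter V r dr univ).card : ℝ) := by
  have h1 : (univ.filter p ∩ univ.filter q) ⊆ @Finset.filter V r dr univ := by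
    intro x hx
    simp only [mem_inter, mem_filter, mem_univ, true_and] at hx ⊢
    exact hr x hx.1 hx.2
  have h2 := card_union_add_card_inter (univ.filter p) (univ.filter q)
  have h3 : (univ.filter p ∪ univ.filter q).card ≤ Fintype.card V := card_le_univ _
  have h4 : ((univ.filter p ∪ univ.filter q).card : ℝ) +
      ((univ.filter p ∩ univ.filter q).card : ℝ) =
      ((univ.filter p).card : ℝ) + ((univ.filter q).card : ℝ) := by exact_mod_cast h2
  have h5 : ((univ.filter p ∪ univ.filter q).card : ℝ) ≤ Fintype.card V := by exact_mod_cast h3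
  have h6 : ((univ.filter p ∩ univ.filter q).card : ℝ) ≤
      ((@Finset.filter V r dr univ).card : ℝ) := by exact_mod_cast card_le_card h1
  linarith

theorem cfgb_mem {V : Type*} [Fintype V] (U : Finset V) [DecidablePred fun x => x ∈ U] :
    (univ.filter fun x => x ∈ U) = U := by
  ext x
  simp

theorem cfgb_deg {V : Type*} [Fintype V] (K : SimpleGraph V) (v : V)
    [Fintype (K.neighborSet v)] [DecidablePred fun x => K.Adj v x] :
    (univ.filter fun x => K.Adj v x).card = K.degree v := by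
  rw [← SimpleGraph.card_neighborFinset_eq_degree]
  congr 1
  ext x
  simp

theorem cfg1t (t : ℕ) {η α : ℝ} (hη : 0 < η) (hα : 0 < α) : ∃ n₀ : ℕ, ∀ (V : Type) [Fintype V],
    n₀ ≤ Fintype.card V → ∀ (K : SimpleGraph V) (S : Finset V),
      (∀ a b, K.Adj a b → a ∈ S ∧ b ∈ S) →
      (∀ v ∈ S, (3 / 4 + η) * Fintype.card V ≤ K.degree v) →
      ∀ U U' : Finset V, U ⊆ S → U' ⊆ S → α * Fintype.card V ≤ U.card →
      (Fintype.card V : ℝ) / 4 ≤ U'.card → ∀ a : V,
      ∃ X : Fin 3 → Finset V, (∀ s, (X s).card = t) ∧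
        (∀ s s', s ≠ s' → Disjoint (X s) (X s')) ∧ (∀ s, a ∉ X s) ∧ X 1 ⊆ U ∧ X 2 ⊆ U' ∧
        ∀ s, ∀ x ∈ X s, ∀ y ∈ X (s + 1), K.Adj x y := by
  obtain ⟨κ, hκ0, hκα, hκη, hκ2⟩ : ∃ κ : ℝ, 0 < κ ∧ κ ≤ α ∧ κ ≤ η ∧ κ ≤ 1 / 2 :=
    ⟨min α (min η (1 / 2)), lt_min hα (lt_min hη (by norm_num)), min_le_left _ _,
      (min_le_right _ _).trans (min_le_left _ _), (min_le_right _ _).trans (min_le_right _ _)⟩
  obtain ⟨n₀, hn₀⟩ := cfg_box 2 t (κ := κ ^ 3) (by positivity)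
  refine ⟨n₀, ?_⟩
  intro V _ hN K S _ hdeg U U' hU hU' hUc hU'c a
  have hN0 : 0 ≤ (Fintype.card V : ℝ) := Nat.cast_nonneg _
  have key := hn₀ V hN K {a} (by simp) ![univ, U, U'] (by
    have h := seq3 (V := V) (κ := κ * Fintype.card V) (by positivity) (fun x => x ∈ U)
      (fun x1 x => x ∈ U' ∧ K.Adj x1 x) (fun x1 x2 x => K.Adj x1 x ∧ K.Adj x2 x)
      (by
        rw [cfgb_mem]
        exact (mul_le_mul_of_nonneg_right hκα hN0).trans hUc)
      (by
        intro x1 hx1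
        refine le_trans ?_ (cfgb_inter (fun x => x ∈ U') (fun x => K.Adj x1 x) _ _ _ _
          (fun x h1 h2 => ⟨h1, h2⟩) (A := (Fintype.card V : ℝ) / 4)
          (B := (3 / 4 + η) * (Fintype.card V : ℝ)) (by rw [cfgb_mem]; exact hU'c)
          (by rw [cfgb_deg]; exact hdeg x1 (hU hx1)))
        have h2 : κ * (Fintype.card V : ℝ) ≤ η * (Fintype.card V : ℝ) :=
          mul_le_mul_of_nonneg_right hκη hN0
        linarith)
      (by
        intro x1 x2 hx1 hx2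
        refine le_trans ?_ (cfgb_inter (fun x => K.Adj x1 x) (fun x => K.Adj x2 x) _ _ _ _
          (fun x h1 h2 => ⟨h1, h2⟩)
          (A := (3 / 4 + η) * (Fintype.card V : ℝ)) (B := (3 / 4 + η) * (Fintype.card V : ℝ))
          (by rw [cfgb_deg]; exact hdeg x1 (hU hx1))
          (by rw [cfgb_deg]; exact hdeg x2 (hU' hx2.1)))
        have h2 : κ * (Fintype.card V : ℝ) ≤ 1 / 2 * (Fintype.card V : ℝ) :=
          mul_le_mul_of_nonneg_right hκ2 hN0
        have h3 : 0 ≤ η * (Fintype.card V : ℝ) := by positivity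
        linarith)
    refine le_trans (le_of_eq ?_) (le_trans h (Nat.cast_le.2 (card_le_card ?_)))
    · ring
    · intro x hx
      simp only [mem_filter, mem_univ, true_and] at hx ⊢
      obtain ⟨h1, ⟨h2, h3⟩, h4, h5⟩ := hx
      constructor
      · intro s
        fin_cases s
        · exact mem_univ _
        · exact h1
        · exact h2
      · intro s
        fin_cases s
        · exact h4.symm
        · exact h3
        · exact h5)
  obtain ⟨X, hX1, hX2, hX3, hX4, hX5⟩ := key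
  exact ⟨X, hX1, hX4, fun s => hX3 s a (mem_singleton_self a), hX2 1, hX2 2, hX5⟩

theorem cfg2t (t : ℕ) {η : ℝ} (hη : 0 < η) : ∃ n₀ : ℕ, ∀ (V : Type) [Fintype V],
    n₀ ≤ Fintype.card V → ∀ (K : SimpleGraph V) (S : Finset V),
      (∀ a b, K.Adj a b → a ∈ S ∧ b ∈ S) →
      (∀ v ∈ S, (3 / 4 + η) * Fintype.card V ≤ K.degree v) →
      ∀ U U' : Finset V, U ⊆ S → U' ⊆ S → (3 / 4 + η) * Fintype.card V ≤ U.card →
      (3 / 4 + η) * Fintype.card V ≤ U'.card → ∀ a b : V,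
      ∃ X : Fin 3 → Finset V, (∀ s, (X s).card = t) ∧
        (∀ s s', s ≠ s' → Disjoint (X s) (X s')) ∧ (∀ s, a ∉ X s) ∧ (∀ s, b ∉ X s) ∧
        X 1 ⊆ U ∧ X 2 ⊆ U ∩ U' ∧ X 0 ⊆ U' ∧
        ∀ s, ∀ x ∈ X s, ∀ y ∈ X (s + 1), K.Adj x y := by
  obtain ⟨n₀, hn₀⟩ := cfg_box 2 t (κ := (1 / 4 : ℝ) ^ 3) (by positivity)
  refine ⟨n₀, ?_⟩
  intro V _ hN K S _ hdeg U U' hU hU' hUc hU'c a b
  have hN0 : 0 ≤ (Fintype.card V : ℝ) := Nat.cast_nonneg _
  have hηN : 0 ≤ η * (Fintype.card V : ℝ) := by positivity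
  have key := hn₀ V hN K {a, b} card_le_two ![U', U, U ∩ U'] (by
    have h := seq3' (V := V) (κ := 1 / 4 * (Fintype.card V : ℝ)) (by positivity)
      (fun x => x ∈ U ∧ x ∈ U')
      (fun x2 x => x ∈ U ∧ K.Adj x2 x) (fun x2 x1 x => x ∈ U' ∧ (K.Adj x1 x ∧ K.Adj x2 x))
      (by
        refine le_trans ?_ (cfgb_inter (fun x => x ∈ U) (fun x => x ∈ U') _ _ _ _
          (fun x h1 h2 => ⟨h1, h2⟩) (A := (3 / 4 + η) * (Fintype.card V : ℝ))
          (B := (3 / 4 + η) * (Fintype.card V : ℝ)) (by rw [cfgb_mem]; exact hUc)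
          (by rw [cfgb_mem]; exact hU'c))
        linarith)
      (by
        intro x2 hx2
        refine le_trans ?_ (cfgb_inter (fun x => x ∈ U) (fun x => K.Adj x2 x) _ _ _ _
          (fun x h1 h2 => ⟨h1, h2⟩)
          (A := (3 / 4 + η) * (Fintype.card V : ℝ)) (B := (3 / 4 + η) * (Fintype.card V : ℝ))
          (by rw [cfgb_mem]; exact hUc)
          (by rw [cfgb_deg]; exact hdeg x2 (hU hx2.1)))
        linarith)
      (by
        intro x2 x1 hx2 hx1
        refine le_trans ?_ (cfgb_inter (fun x => x ∈ U')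
          (fun x => K.Adj x1 x ∧ K.Adj x2 x) _ _ (fun _ => Classical.propDecidable _) _
          (fun x h1 h2 => ⟨h1, h2⟩)
          (A := (3 / 4 + η) * (Fintype.card V : ℝ)) (by rw [cfgb_mem]; exact hU'c)
          (cfgb_inter (fun x => K.Adj x1 x) (fun x => K.Adj x2 x) _ _ _ _
          (fun x h1 h2 => ⟨h1, h2⟩)
          (A := (3 / 4 + η) * (Fintype.card V : ℝ)) (B := (3 / 4 + η) * (Fintype.card V : ℝ))
          (by rw [cfgb_deg]; exact hdeg x1 (hU hx1.1))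
          (by rw [cfgb_deg]; exact hdeg x2 (hU hx2.1))))
        linarith)
    refine le_trans (le_of_eq ?_) (le_trans h (Nat.cast_le.2 (card_le_card ?_)))
    · ring
    · intro x hx
      simp only [mem_filter, mem_univ, true_and] at hx ⊢
      obtain ⟨⟨h1, h1'⟩, ⟨h2, h3⟩, h4, h5, h6⟩ := hx
      constructor
      · intro s
        fin_cases s
        · exact h4
        · exact h2
        · exact mem_inter.2 ⟨h1, h1'⟩
      · intro s
        fin_cases s
        · exact h5.symm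
        · exact h3.symm
        · exact h6)
  obtain ⟨X, hX1, hX2, hX3, hX4, hX5⟩ := key
  exact ⟨X, hX1, hX4, fun s => hX3 s a (by simp), fun s => hX3 s b (by simp), hX2 1, hX2 2,
    hX2 0, hX5⟩

end Pool.OCG
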