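import Pool.Agent.OCY.Defs

/-!
# Graphs which are homomorphic to an odd cycle: definitions
-/

open Finset
open scoped Classical

namespace Pool.OCG

/-- `r` is nonpositive on all copies of `F` in `G` -/
def CopNonpos {W V : Type*} [Fintype W] (F : SimpleGraph W) (G : SimpleGraph V)
    (r : V → V → ℝ) : Prop :=
  ∀ f : W → V, Function.Injective f → (∀ i j, F.Adj i j → G.Adj (f i) (f j)) →
    ∑ i, ∑ j, (if F.Adj i j then r (f i) (f j) else 0) ≤ 0

/-- `c` is a homomorphism of `F` to the cycle of length `n + 1` -/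
def Col {W : Type*} (F : SimpleGraph W) (n : ℕ) (c : W → Fin (n + 1)) : Prop :=
  ∀ i j, F.Adj i j → c j = c i + 1 ∨ c i = c j + 1

end Pool.OCG
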