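import Pool.Agent.OCY.Box
import Pool.Agent.OCG.Defs

/-!
MODULE CfgBox (difficulty 3).  Many closed walks `x₀ x₁ ... xₙ` with `x_s ∈ Y s` give a blow-up of the cycle with pairwise
disjoint classes inside the `Y s` and avoiding a set `Z` with at most two elements.

RECIPE.  Apply `Pool.OCY.box (n+1) t (κ/2)` to the predicate `P x`: `(∀ s, x s ∈ Y s) ∧ (∀ s, K.Adj (x s) (x (s+1)))` and
`x` is injective and `∀ s, x s ∉ Z`.  The number of `x : Fin (n+1) → V` which are not injective is at most
`(n+1)^2 * N^n` (`N = card V`: choose `s ≠ s'` with `x s = x s'`, then `x` is determined by its restriction to the other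
coordinates), the number of `x` with some `x s ∈ Z` is at most `(n+1) * 2 * N^n`; both together are at most
`(κ/2) N^(n+1)` when `N ≥ 2 ((n+1)^2 + 2 (n+1)) / κ`.  So at least `(κ/2) N^(n+1)` of the `x` satisfy `P`.
If `n + 1 ≥ 1` and `t ≥ 1`, then from the box: `x ∈ X s ∩ X s'` with `s ≠ s'` would give (choosing any elements in the other
classes) an `x` with `P x` which is not injective; likewise the other properties (choose `x s`, `x (s+1)`
prescribed and the other coordinates arbitrary).  If `t = 0` take `X s = ∅`.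
(`K.Adj (x s) (x (s+1))` for all `s` implies `s ≠ s + 1` as soon as such an `x` exists; for `n = 0` it is impossible:
then `κ N ≤ 0`, i.e. `N = 0`: take `n₀ ≥ 1`.)
-/

open Finset
open scoped Classical

namespace Pool.OCG
open Pool.OCY

theorem cfgbox_count {V : Type} [Fintype V] {n : ℕ} (s : Fin (n + 1))
    (g : ({i : Fin (n + 1) // i ≠ s} → V) → V) :
    (univ.filter fun x : Fin (n + 1) → V => x s = g fun i => x i.1).card
      ≤ Fintype.card V ^ n := by
  have h1 : (univ.filter fun x : Fin (n + 1) → V => x s = g fun i => x i.1).card ≤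
      (univ : Finset ({i : Fin (n + 1) // i ≠ s} → V)).card := by
    refine card_le_card_of_injOn (fun x i => x i.1) (fun _ _ => mem_univ _) ?_
    intro x hx y hy hxy
    have hx' : x s = g fun i => x i.1 := (mem_filter.1 (mem_coe.1 hx)).2
    have hy' : y s = g fun i => y i.1 := (mem_filter.1 (mem_coe.1 hy)).2
    have hxy' : (fun i : {i : Fin (n + 1) // i ≠ s} => x i.1) = fun i => y i.1 := hxy
    funext i
    by_cases hi : i = s
    · rw [hi, hx', hy', hxy']
    · exact congrFun hxy' ⟨i, hi⟩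
  refine h1.trans (le_of_eq ?_)
  rw [card_univ, Fintype.card_fun]
  congr 1
  rw [Fintype.card_subtype_compl, Fintype.card_fin]
  simp

theorem cfgbox_inj {V : Type} [Fintype V] {n : ℕ} :
    (univ.filter fun x : Fin (n + 1) → V => ¬ Function.Injective x).card
      ≤ (n + 1) ^ 2 * Fintype.card V ^ n := by
  have h1 : (univ.filter fun x : Fin (n + 1) → V => ¬ Function.Injective x) ⊆
      (univ : Finset (Fin (n + 1) × Fin (n + 1))).biUnion fun q =>
        if q.2 = q.1 then ∅ else univ.filter fun x : Fin (n + 1) → V => x q.1 = x q.2 := by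
    intro x hx
    have hx' : ¬ Function.Injective x := (mem_filter.1 hx).2
    unfold Function.Injective at hx'
    push Not at hx'
    obtain ⟨a, b, hab, hne⟩ := hx'
    rw [mem_biUnion]
    refine ⟨(a, b), mem_univ _, ?_⟩
    have : ¬ (b = a) := fun h => hne h.symm
    simp only [this, if_false, mem_filter, mem_univ, true_and]
    exact hab
  refine (card_le_card h1).trans ?_
  refine card_biUnion_le.trans ?_
  have h2 : ∀ q ∈ (univ : Finset (Fin (n + 1) × Fin (n + 1))),
      (if q.2 = q.1 then (∅ : Finset (Fin (n + 1) → V)) else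
        univ.filter fun x : Fin (n + 1) → V => x q.1 = x q.2).card ≤ Fintype.card V ^ n := by
    intro q _
    by_cases hq : q.2 = q.1
    · rw [if_pos hq, card_empty]
      exact Nat.zero_le _
    · rw [if_neg hq]
      exact cfgbox_count q.1 (fun y => y ⟨q.2, hq⟩)
  refine (sum_le_sum h2).trans (le_of_eq ?_)
  rw [sum_const, card_univ, Fintype.card_prod, Fintype.card_fin]
  simp only [smul_eq_mul]
  ring

theorem cfgbox_mem {V : Type} [Fintype V] {n : ℕ} (Z : Finset V) (hZ : Z.card ≤ 2) :
    (univ.filter fun x : Fin (n + 1) → V => ∃ s, x s ∈ Z).card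
      ≤ (n + 1) * 2 * Fintype.card V ^ n := by
  have h1 : (univ.filter fun x : Fin (n + 1) → V => ∃ s, x s ∈ Z) ⊆
      ((univ : Finset (Fin (n + 1))) ×ˢ Z).biUnion fun q =>
        univ.filter fun x : Fin (n + 1) → V => x q.1 = q.2 := by
    intro x hx
    obtain ⟨s, hs⟩ := (mem_filter.1 hx).2
    rw [mem_biUnion]
    exact ⟨(s, x s), mem_product.2 ⟨mem_univ _, hs⟩, mem_filter.2 ⟨mem_univ _, rfl⟩⟩
  refine (card_le_card h1).trans ?_
  refine card_biUnion_le.trans ?_
  have h2 : ∀ q ∈ ((univ : Finset (Fin (n + 1))) ×ˢ Z),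
      (univ.filter fun x : Fin (n + 1) → V => x q.1 = q.2).card ≤ Fintype.card V ^ n := by
    intro q _
    exact cfgbox_count q.1 (fun _ => q.2)
  refine (sum_le_sum h2).trans ?_
  rw [sum_const, card_product, card_univ, Fintype.card_fin, smul_eq_mul]
  exact Nat.mul_le_mul_right _ (Nat.mul_le_mul_left _ hZ)

theorem cfg_box (n t : ℕ) {κ : ℝ} (hκ : 0 < κ) : ∃ n₀ : ℕ, ∀ (V : Type) [Fintype V],
    n₀ ≤ Fintype.card V → ∀ (K : SimpleGraph V) (Z : Finset V), Z.card ≤ 2 →
      ∀ Y : Fin (n + 1) → Finset V,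
      κ * (Fintype.card V : ℝ) ^ (n + 1) ≤ ((univ.filter fun x : Fin (n + 1) → V =>
        (∀ s, x s ∈ Y s) ∧ ∀ s, K.Adj (x s) (x (s + 1))).card : ℝ) →
      ∃ X : Fin (n + 1) → Finset V, (∀ s, (X s).card = t) ∧ (∀ s, X s ⊆ Y s) ∧
        (∀ s, ∀ z ∈ Z, z ∉ X s) ∧ (∀ s s', s ≠ s' → Disjoint (X s) (X s')) ∧
        ∀ s, ∀ x ∈ X s, ∀ y ∈ X (s + 1), K.Adj x y := by
  rcases Nat.eq_zero_or_pos t with ht | ht
  · refine ⟨0, ?_⟩
    intro V _ _ K Z _ Y _
    refine ⟨fun _ => ∅, fun _ => by rw [card_empty, ht], fun _ => empty_subset _,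
      fun _ _ _ => notMem_empty _, fun _ _ _ => disjoint_empty_left _, ?_⟩
    intro s x hx
    exact absurd hx (notMem_empty _)
  obtain ⟨n₁, hn₁⟩ := Pool.OCY.box (n + 1) t (κ / 2) (by positivity)
  set C : ℝ := ((n : ℝ) + 1) ^ 2 + (n + 1) * 2 with hC
  refine ⟨max n₁ ⌈2 * C / κ⌉₊, ?_⟩
  intro V _ hN K Z hZ Y hcount
  have hN1 : n₁ ≤ Fintype.card V := (le_max_left _ _).trans hN
  have hN2 : 2 * C / κ ≤ (Fintype.card V : ℝ) :=
    (Nat.le_ceil _).trans (by exact_mod_cast (le_max_right _ _).trans hN)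
  have hN3 : C ≤ κ / 2 * (Fintype.card V : ℝ) := by
    rw [div_le_iff₀ hκ] at hN2
    linarith
  have hbad : ((univ.filter fun x : Fin (n + 1) → V => ¬ Function.Injective x).card : ℝ) +
      ((univ.filter fun x : Fin (n + 1) → V => ∃ s, x s ∈ Z).card : ℝ) ≤
      κ / 2 * (Fintype.card V : ℝ) ^ (n + 1) := by
    have h1 : ((univ.filter fun x : Fin (n + 1) → V => ¬ Function.Injective x).card : ℝ) ≤
        ((n : ℝ) + 1) ^ 2 * (Fintype.card V : ℝ) ^ n := by
      exact_mod_cast cfgbox_inj (V := V) (n := n)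
    have h2 : ((univ.filter fun x : Fin (n + 1) → V => ∃ s, x s ∈ Z).card : ℝ) ≤
        ((n : ℝ) + 1) * 2 * (Fintype.card V : ℝ) ^ n := by
      exact_mod_cast cfgbox_mem (n := n) Z hZ
    have h3 : C * (Fintype.card V : ℝ) ^ n ≤
        κ / 2 * (Fintype.card V : ℝ) * (Fintype.card V : ℝ) ^ n :=
      mul_le_mul_of_nonneg_right hN3 (by positivity)
    calc _ ≤ ((n : ℝ) + 1) ^ 2 * (Fintype.card V : ℝ) ^ n +
        ((n : ℝ) + 1) * 2 * (Fintype.card V : ℝ) ^ n := add_le_add h1 h2
      _ = C * (Fintype.card V : ℝ) ^ n := by rw [hC]; ring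
      _ ≤ _ := h3
      _ = _ := by ring
  obtain ⟨Q, hQ⟩ : ∃ Q : (Fin (n + 1) → V) → Prop, ∀ x, Q x ↔
      (((∀ s, x s ∈ Y s) ∧ ∀ s, K.Adj (x s) (x (s + 1))) ∧
      Function.Injective x ∧ ∀ s, x s ∉ Z) := ⟨_, fun _ => Iff.rfl⟩
  have hP := hn₁ V hN1 Q (by
    have hsub : (univ.filter fun x : Fin (n + 1) → V =>
        (∀ s, x s ∈ Y s) ∧ ∀ s, K.Adj (x s) (x (s + 1))) ⊆
        ((univ.filter Q) ∪
        (univ.filter fun x : Fin (n + 1) → V => ¬ Function.Injective x)) ∪
        (univ.filter fun x : Fin (n + 1) → V => ∃ s, x s ∈ Z) := by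
      intro x hx
      simp only [mem_union, mem_filter, mem_univ, true_and] at hx ⊢
      by_cases h1 : Function.Injective x
      · by_cases h2 : ∃ s, x s ∈ Z
        · exact Or.inr h2
        · refine Or.inl (Or.inl ((hQ x).2 ⟨hx, h1, ?_⟩))
          intro s hs
          exact h2 ⟨s, hs⟩
      · exact Or.inl (Or.inr h1)
    have hc := (card_le_card hsub).trans
      ((card_union_le _ _).trans (Nat.add_le_add_right (card_union_le _ _) _))
    have hc' := (Nat.cast_le (α := ℝ)).2 hc
    push_cast at hc'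
    have h5 : κ / 2 * (Fintype.card V : ℝ) ^ (n + 1) + κ / 2 * (Fintype.card V : ℝ) ^ (n + 1) =
      κ * (Fintype.card V : ℝ) ^ (n + 1) := by ring
    linarith)
  obtain ⟨X, hX1, hX2'⟩ := hP
  have hX2 := fun x hx => (hQ x).1 (hX2' x hx)
  have hne : ∀ s, (X s).Nonempty := by
    intro s
    rw [← card_pos, hX1 s]
    exact ht
  choose b hb using hne
  have hupd : ∀ s, ∀ x ∈ X s, ∀ i, Function.update b s x i ∈ X i := by
    intro s x hx i
    by_cases hi : i = s
    · subst hi
      rw [Function.update_self]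
      exact hx
    · rw [Function.update_of_ne hi]
      exact hb i
  have hupd2 : ∀ s s', ∀ x ∈ X s, ∀ y ∈ X s', ∀ i,
      Function.update (Function.update b s x) s' y i ∈ X i := by
    intro s s' x hx y hy i
    by_cases hi : i = s'
    · subst hi
      rw [Function.update_self]
      exact hy
    · rw [Function.update_of_ne hi]
      exact hupd s x hx i
  refine ⟨X, hX1, ?_, ?_, ?_, ?_⟩
  · intro s x hx
    have h := (hX2 _ (hupd s x hx)).1.1 s
    rw [Function.update_self] at h
    exact h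
  · intro s z hz hzX
    have h := (hX2 _ (hupd s z hzX)).2.2 s
    rw [Function.update_self] at h
    exact h hz
  · intro s s' hss
    rw [disjoint_left]
    intro x hx hx'
    have h := (hX2 _ (hupd2 s s' x hx x hx')).2.1
    apply hss
    apply h
    rw [Function.update_self, Function.update_of_ne hss, Function.update_self]
  · intro s x hx y hy
    have hs1 : s ≠ s + 1 := by
      intro h
      have h1 := (hX2 b hb).1.2 s
      rw [← h] at h1
      exact K.irrefl h1
    have h := (hX2 _ (hupd2 s (s + 1) x hx y hy)).1.2 s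
    rw [Function.update_self, Function.update_of_ne hs1, Function.update_self] at h
    exact h

end Pool.OCG
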