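import Pool.Agent.OCY.BadCount

/-!
MODULE ExcB (difficulty 2).  The excess of the cleaned graph is small.

RECIPE: if `exc4 H T r a b c d ≠ 0` then `P4 G T r a b c d` (`H ≤ G`) and all the four pairs are `H`-edges, and
`exc4 H a b c d ≤ |OCY.ext H a b| + |OCY.ext H a c| + |OCY.ext H b c| + (T-2) |OCY.ext H a d|` (`T ≥ 3`).  So
`∑ exc4 ≤ ∑_{a,b} |OCY.ext H a b| * |{(c,d) | P4 a b c d}| + ...`, and for an `H`-edge `a b` the number is
`≤ ζ n ^ 2` (four positions, first component of `Good`; if `a b` is not an `H`-edge the term is `0`).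
Total coefficient `1 + 1 + 1 + (T - 2) = T + 1`.  Same for `exc3` with `(T - 1) + 1 + 1 = T + 1`.
-/

open Finset
open scoped Classical

namespace Pool.OCG
open Pool.OCY

theorem excB_aux4 {V : Type*} [Fintype V] (w : V → V → ℝ)
    (Q : V → V → V → V → Prop) (B : ℝ) (hw : ∀ a b, 0 ≤ w a b)
    (h : ∀ a b, w a b ≠ 0 → ((univ.filter fun x : V × V => Q a b x.1 x.2).card : ℝ) ≤ B) :
    ∑ a, ∑ b, ∑ c, ∑ d, (if Q a b c d then w a b else 0) ≤ B * ∑ a, ∑ b, w a b := by
  rw [Finset.mul_sum]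
  refine Finset.sum_le_sum fun a _ => ?_
  rw [Finset.mul_sum]
  refine Finset.sum_le_sum fun b _ => ?_
  have e : ∑ c, ∑ d, (if Q a b c d then w a b else 0) =
      ((univ.filter fun x : V × V => Q a b x.1 x.2).card : ℝ) * w a b := by
    rw [← Fintype.sum_prod_type' (f := fun c d => (if Q a b c d then w a b else 0)),
      ← Finset.sum_filter, Finset.sum_const, nsmul_eq_mul]
  rw [e]
  by_cases hz : w a b = 0
  · rw [hz, mul_zero, mul_zero]
  · exact mul_le_mul_of_nonneg_right (h a b hz) (hw a b)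

theorem excB_aux3 {V : Type*} [Fintype V] (w : V → V → ℝ)
    (Q : V → V → V → Prop) (B : ℝ) (hw : ∀ a b, 0 ≤ w a b)
    (h : ∀ a b, w a b ≠ 0 → ((univ.filter fun x : V => Q a b x).card : ℝ) ≤ B) :
    ∑ a, ∑ b, ∑ c, (if Q a b c then w a b else 0) ≤ B * ∑ a, ∑ b, w a b := by
  rw [Finset.mul_sum]
  refine Finset.sum_le_sum fun a _ => ?_
  rw [Finset.mul_sum]
  refine Finset.sum_le_sum fun b _ => ?_
  have e : ∑ c, (if Q a b c then w a b else 0) =
      ((univ.filter fun x : V => Q a b x).card : ℝ) * w a b := by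
    rw [← Finset.sum_filter, Finset.sum_const, nsmul_eq_mul]
  rw [e]
  by_cases hz : w a b = 0
  · rw [hz, mul_zero, mul_zero]
  · exact mul_le_mul_of_nonneg_right (h a b hz) (hw a b)

theorem excB_ext {V : Type*} {H : SimpleGraph V} {r : V → V → ℝ} {a b : V} (h : H.Adj a b) :
    OCY.ext H r a b = r a b := if_pos h

theorem excB_adj {V : Type*} {H : SimpleGraph V} {r : V → V → ℝ} {a b : V}
    (h : |OCY.ext H r a b| ≠ 0) : H.Adj a b := by
  by_contra hcon
  apply h
  have : OCY.ext H r a b = 0 := if_neg hcon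
  rw [this, abs_zero]

theorem excB_pt4 {V : Type*} (G H : SimpleGraph V) (hH : H ≤ G) {T : ℝ} (hT : 2 ≤ T)
    (r : V → V → ℝ) (a b c d : V) :
    exc4 H T r a b c d ≤ (if P4 G T r a b c d then |OCY.ext H r a b| else 0) +
      (if P4 G T r a b c d then |OCY.ext H r a c| else 0) +
      (if P4 G T r a b c d then |OCY.ext H r b c| else 0) +
      (T - 2) * (if P4 G T r a b c d then |OCY.ext H r a d| else 0) := by
  have hnn : ∀ (P : Prop) (x : ℝ), 0 ≤ (if P then |x| else 0) := by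
    intro P x
    split_ifs
    · exact abs_nonneg _
    · exact le_rfl
  have hR : 0 ≤ (if P4 G T r a b c d then |OCY.ext H r a b| else 0) +
      (if P4 G T r a b c d then |OCY.ext H r a c| else 0) +
      (if P4 G T r a b c d then |OCY.ext H r b c| else 0) +
      (T - 2) * (if P4 G T r a b c d then |OCY.ext H r a d| else 0) := by
    have h1 := hnn (P4 G T r a b c d) (OCY.ext H r a b)
    have h2 := hnn (P4 G T r a b c d) (OCY.ext H r a c)
    have h3 := hnn (P4 G T r a b c d) (OCY.ext H r b c)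
    have h4 := mul_nonneg (by linarith : (0 : ℝ) ≤ T - 2) (hnn (P4 G T r a b c d) (OCY.ext H r a d))
    linarith
  by_cases hadj : H.Adj a b ∧ H.Adj a c ∧ H.Adj b c ∧ H.Adj a d
  · have e : exc4 H T r a b c d = max 0 (r a b + r a c + r b c + (T - 2) * r a d) := if_pos hadj
    obtain ⟨h1, h2, h3, h4⟩ := hadj
    rw [e]
    rcases le_or_gt (r a b + r a c + r b c + (T - 2) * r a d) 0 with h | h
    · rw [max_eq_left h]
      exact hR
    · rw [max_eq_right h.le]
      have hP : P4 G T r a b c d := ⟨hH h1, hH h2, hH h3, hH h4, h⟩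
      rw [if_pos hP, if_pos hP, if_pos hP, if_pos hP, excB_ext h1, excB_ext h2, excB_ext h3,
        excB_ext h4]
      have := le_abs_self (r a b)
      have := le_abs_self (r a c)
      have := le_abs_self (r b c)
      have := mul_le_mul_of_nonneg_left (le_abs_self (r a d)) (by linarith : (0 : ℝ) ≤ T - 2)
      linarith
  · have e : exc4 H T r a b c d = 0 := if_neg hadj
    rw [e]
    exact hR

theorem excB_pt3 {V : Type*} (G H : SimpleGraph V) (hH : H ≤ G) {T : ℝ} (hT : 2 ≤ T)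
    (r : V → V → ℝ) (a b c : V) :
    exc3 H T r a b c ≤ (T - 1) * (if P3 G T r a b c then |OCY.ext H r a b| else 0) +
      (if P3 G T r a b c then |OCY.ext H r a c| else 0) +
      (if P3 G T r a b c then |OCY.ext H r b c| else 0) := by
  have hnn : ∀ (P : Prop) (x : ℝ), 0 ≤ (if P then |x| else 0) := by
    intro P x
    split_ifs
    · exact abs_nonneg _
    · exact le_rfl
  have hR : 0 ≤ (T - 1) * (if P3 G T r a b c then |OCY.ext H r a b| else 0) +
      (if P3 G T r a b c then |OCY.ext H r a c| else 0) +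
      (if P3 G T r a b c then |OCY.ext H r b c| else 0) := by
    have h1 := mul_nonneg (by linarith : (0 : ℝ) ≤ T - 1) (hnn (P3 G T r a b c) (OCY.ext H r a b))
    have h2 := hnn (P3 G T r a b c) (OCY.ext H r a c)
    have h3 := hnn (P3 G T r a b c) (OCY.ext H r b c)
    linarith
  by_cases hadj : H.Adj a b ∧ H.Adj a c ∧ H.Adj b c
  · have e : exc3 H T r a b c = max 0 ((T - 1) * r a b + r a c + r b c) := if_pos hadj
    obtain ⟨h1, h2, h3⟩ := hadj
    rw [e]
    rcases le_or_gt ((T - 1) * r a b + r a c + r b c) 0 with h | h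
    · rw [max_eq_left h]
      exact hR
    · rw [max_eq_right h.le]
      have hP : P3 G T r a b c := ⟨hH h1, hH h2, hH h3, h⟩
      rw [if_pos hP, if_pos hP, if_pos hP, excB_ext h1, excB_ext h2, excB_ext h3]
      have := mul_le_mul_of_nonneg_left (le_abs_self (r a b)) (by linarith : (0 : ℝ) ≤ T - 1)
      have := le_abs_self (r a c)
      have := le_abs_self (r b c)
      linarith
  · have e : exc3 H T r a b c = 0 := if_neg hadj
    rw [e]
    exact hR

theorem exc_bound {V : Type*} [Fintype V] (G H : SimpleGraph V) (hH : H ≤ G) {T : ℝ} (hT : 2 ≤ T)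
    (r : V → V → ℝ) (hs : ∀ a b, r a b = r b a) {ζ : ℝ} (hζ : 0 ≤ ζ)
    (hg : ∀ a b, H.Adj a b → Good G T r ζ a b) :
    ∑ a, ∑ b, ∑ c, ∑ d, exc4 H T r a b c d
      ≤ (T + 1) * ζ * (Fintype.card V : ℝ) ^ 2 * tot H r ∧
    ∑ a, ∑ b, ∑ c, exc3 H T r a b c ≤ (T + 1) * ζ * (Fintype.card V : ℝ) * tot H r := by
  have hw : ∀ a b, 0 ≤ |OCY.ext H r a b| := fun a b => abs_nonneg _
  constructor
  · have s1 := excB_aux4 (fun a b => |OCY.ext H r a b|) (fun a b c d => P4 G T r a b c d)
      (ζ * (Fintype.card V : ℝ) ^ 2) hw (fun a b h => (hg a b (excB_adj h)).1.1)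
    have s2 := excB_aux4 (fun a c => |OCY.ext H r a c|) (fun a c b d => P4 G T r a b c d)
      (ζ * (Fintype.card V : ℝ) ^ 2) hw (fun a b h => (hg a b (excB_adj h)).1.2.1)
    have s3 := excB_aux4 (fun b c => |OCY.ext H r b c|) (fun b c a d => P4 G T r a b c d)
      (ζ * (Fintype.card V : ℝ) ^ 2) hw (fun a b h => (hg a b (excB_adj h)).1.2.2.1)
    have s4 := excB_aux4 (fun a d => |OCY.ext H r a d|) (fun a d b c => P4 G T r a b c d)
      (ζ * (Fintype.card V : ℝ) ^ 2) hw (fun a b h => (hg a b (excB_adj h)).1.2.2.2.1)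
    have p2 : ∑ a, ∑ b, ∑ c, ∑ d, (if P4 G T r a b c d then |OCY.ext H r a c| else 0) =
        ∑ a, ∑ c, ∑ b, ∑ d, (if P4 G T r a b c d then |OCY.ext H r a c| else 0) :=
      Finset.sum_congr rfl fun a _ => Finset.sum_comm
    have p3 : ∑ a, ∑ b, ∑ c, ∑ d, (if P4 G T r a b c d then |OCY.ext H r b c| else 0) =
        ∑ b, ∑ c, ∑ a, ∑ d, (if P4 G T r a b c d then |OCY.ext H r b c| else 0) := by
      rw [Finset.sum_comm]
      exact Finset.sum_congr rfl fun b _ => Finset.sum_comm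
    have p4 : ∑ a, ∑ b, ∑ c, ∑ d, (if P4 G T r a b c d then |OCY.ext H r a d| else 0) =
        ∑ a, ∑ d, ∑ b, ∑ c, (if P4 G T r a b c d then |OCY.ext H r a d| else 0) := by
      refine Finset.sum_congr rfl fun a _ => ?_
      rw [Finset.sum_comm]
      rw [Finset.sum_congr rfl fun c _ => Finset.sum_comm (s := univ) (t := univ)
        (f := fun b d => (if P4 G T r a b c d then |OCY.ext H r a d| else 0))]
      rw [Finset.sum_comm]
      exact Finset.sum_congr rfl fun d _ => Finset.sum_comm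
    have hsum : ∑ a, ∑ b, ∑ c, ∑ d, exc4 H T r a b c d ≤
        ∑ a, ∑ b, ∑ c, ∑ d, (if P4 G T r a b c d then |OCY.ext H r a b| else 0) +
        ∑ a, ∑ b, ∑ c, ∑ d, (if P4 G T r a b c d then |OCY.ext H r a c| else 0) +
        ∑ a, ∑ b, ∑ c, ∑ d, (if P4 G T r a b c d then |OCY.ext H r b c| else 0) +
        (T - 2) * ∑ a, ∑ b, ∑ c, ∑ d, (if P4 G T r a b c d then |OCY.ext H r a d| else 0) := by
      simp only [Finset.mul_sum, ← Finset.sum_add_distrib]
      exact Finset.sum_le_sum fun a _ => Finset.sum_le_sum fun b _ =>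
        Finset.sum_le_sum fun c _ => Finset.sum_le_sum fun d _ => excB_pt4 G H hH hT r a b c d
    refine hsum.trans ?_
    rw [p2, p3, p4]
    have s4' := mul_le_mul_of_nonneg_left s4 (by linarith : (0 : ℝ) ≤ T - 2)
    have e : (T + 1) * ζ * (Fintype.card V : ℝ) ^ 2 * tot H r =
        ζ * (Fintype.card V : ℝ) ^ 2 * (∑ a, ∑ b, |OCY.ext H r a b|) +
        ζ * (Fintype.card V : ℝ) ^ 2 * (∑ a, ∑ b, |OCY.ext H r a b|) +
        ζ * (Fintype.card V : ℝ) ^ 2 * (∑ a, ∑ b, |OCY.ext H r a b|) +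
        (T - 2) * (ζ * (Fintype.card V : ℝ) ^ 2 * (∑ a, ∑ b, |OCY.ext H r a b|)) := by
      unfold tot
      ring
    rw [e]
    exact add_le_add (add_le_add (add_le_add s1 s2) s3) s4'
  · have s1 := excB_aux3 (fun a b => |OCY.ext H r a b|) (fun a b c => P3 G T r a b c)
      (ζ * (Fintype.card V : ℝ)) hw (fun a b h => (hg a b (excB_adj h)).1.2.2.2.2.1)
    have s2 := excB_aux3 (fun a c => |OCY.ext H r a c|) (fun a c b => P3 G T r a b c)
      (ζ * (Fintype.card V : ℝ)) hw (fun a b h => (hg a b (excB_adj h)).1.2.2.2.2.2.1)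
    have s3 := excB_aux3 (fun b c => |OCY.ext H r b c|) (fun b c a => P3 G T r a b c)
      (ζ * (Fintype.card V : ℝ)) hw (fun a b h => (hg a b (excB_adj h)).1.2.2.2.2.2.2)
    have p2 : ∑ a, ∑ b, ∑ c, (if P3 G T r a b c then |OCY.ext H r a c| else 0) =
        ∑ a, ∑ c, ∑ b, (if P3 G T r a b c then |OCY.ext H r a c| else 0) :=
      Finset.sum_congr rfl fun a _ => Finset.sum_comm
    have p3 : ∑ a, ∑ b, ∑ c, (if P3 G T r a b c then |OCY.ext H r b c| else 0) =
        ∑ b, ∑ c, ∑ a, (if P3 G T r a b c then |OCY.ext H r b c| else 0) := by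
      rw [Finset.sum_comm]
      exact Finset.sum_congr rfl fun b _ => Finset.sum_comm
    have hsum : ∑ a, ∑ b, ∑ c, exc3 H T r a b c ≤
        (T - 1) * ∑ a, ∑ b, ∑ c, (if P3 G T r a b c then |OCY.ext H r a b| else 0) +
        ∑ a, ∑ b, ∑ c, (if P3 G T r a b c then |OCY.ext H r a c| else 0) +
        ∑ a, ∑ b, ∑ c, (if P3 G T r a b c then |OCY.ext H r b c| else 0) := by
      simp only [Finset.mul_sum, ← Finset.sum_add_distrib]
      exact Finset.sum_le_sum fun a _ => Finset.sum_le_sum fun b _ =>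
        Finset.sum_le_sum fun c _ => excB_pt3 G H hH hT r a b c
    refine hsum.trans ?_
    rw [p2, p3]
    have s1' := mul_le_mul_of_nonneg_left s1 (by linarith : (0 : ℝ) ≤ T - 1)
    have e : (T + 1) * ζ * (Fintype.card V : ℝ) * tot H r =
        (T - 1) * (ζ * (Fintype.card V : ℝ) * (∑ a, ∑ b, |OCY.ext H r a b|)) +
        ζ * (Fintype.card V : ℝ) * (∑ a, ∑ b, |OCY.ext H r a b|) +
        ζ * (Fintype.card V : ℝ) * (∑ a, ∑ b, |OCY.ext H r a b|) := by
      unfold tot
      ring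
    rw [e]
    exact add_le_add (add_le_add s1' s2) s3

end Pool.OCG
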