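import Pool.Agent.OCG.Defs
import Pool.Agent.OCY.CycF
import Pool.Agent.H34.Dec.Copies

/-!
MODULE CutOdd (difficulty 3).  Cuts.
-/

open Finset
open scoped Classical

namespace Pool.OCG

lemma cutodd_even {k : ℕ} (cc : Fin (2 * k + 1) → Bool) :
    Even (univ.filter fun i : Fin (2 * k + 1) => cc i ≠ cc (i + 1)).card := by
  let ε : Fin (2 * k + 1) → ℤ := fun i => if cc i then 1 else -1
  have hε : ∀ i, ε i * ε i = 1 := by
    intro i
    simp only [ε]
    split_ifs <;> norm_num
  have h1 : ∀ i, ε i * ε (i + 1) = if cc i ≠ cc (i + 1) then -1 else 1 := by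
    intro i
    simp only [ε]
    cases cc i <;> cases cc (i + 1) <;> simp
  have h2 : ∏ i, ε (i + 1) = ∏ i, ε i := Equiv.prod_comp (Equiv.addRight (1 : Fin (2 * k + 1))) ε
  have h3 : ∏ i, (ε i * ε (i + 1)) = 1 := by
    rw [Finset.prod_mul_distrib, h2, ← Finset.prod_mul_distrib]
    exact Finset.prod_eq_one fun i _ => hε i
  have h4 : ∏ i, (ε i * ε (i + 1)) =
      (-1) ^ (univ.filter fun i : Fin (2 * k + 1) => cc i ≠ cc (i + 1)).card := by
    rw [Finset.prod_congr rfl fun i _ => h1 i, Finset.prod_ite, Finset.prod_const, Finset.prod_const_one,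
      mul_one]
  rw [h4] at h3
  rcases Nat.even_or_odd (univ.filter fun i : Fin (2 * k + 1) => cc i ≠ cc (i + 1)).card with h | h
  · exact h
  · rw [h.neg_one_pow] at h3
    norm_num at h3

lemma cutodd_le {k : ℕ} (cc : Fin (2 * k + 1) → Bool) :
    (univ.filter fun i : Fin (2 * k + 1) => cc i ≠ cc (i + 1)).card ≤ 2 * k := by
  have h1 := cutodd_even cc
  have h2 : (univ.filter fun i : Fin (2 * k + 1) => cc i ≠ cc (i + 1)).card ≤ 2 * k + 1 := by
    refine le_trans (Finset.card_le_univ _) ?_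
    rw [Fintype.card_fin]
  rcases h1 with ⟨m, hm⟩
  omega

lemma cutodd_real {k : ℕ} (hk : 1 ≤ k) (P : Fin (2 * k + 1) → Fin (2 * k + 1) → Prop)
    [∀ i j, Decidable (P i j)] (hP : ∀ i j, P i j ↔ P j i) :
    (((univ.filter fun x : Fin (2 * k + 1) × Fin (2 * k + 1) =>
      (SimpleGraph.cycleGraph (2 * k + 1)).Adj x.1 x.2 ∧ P x.1 x.2).card : ℕ) : ℝ)
      = 2 * (((univ.filter fun i : Fin (2 * k + 1) => P i (i + 1)).card : ℕ) : ℝ) := by
  have h1 := Pool.OCY.sum_cycle hk (fun i j => if P i j then (1 : ℝ) else 0) (by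
    intro i j
    by_cases h : P i j
    · rw [if_pos h, if_pos ((hP i j).1 h)]
    · rw [if_neg h, if_neg (fun h' => h ((hP i j).2 h'))])
  have h2 : (((univ.filter fun i : Fin (2 * k + 1) => P i (i + 1)).card : ℕ) : ℝ)
      = ∑ i, (if P i (i + 1) then (1 : ℝ) else 0) := by
    rw [Finset.card_filter]
    push_cast
    rfl
  have h3 : (((univ.filter fun x : Fin (2 * k + 1) × Fin (2 * k + 1) =>
      (SimpleGraph.cycleGraph (2 * k + 1)).Adj x.1 x.2 ∧ P x.1 x.2).card : ℕ) : ℝ)
      = ∑ i, ∑ j, (if (SimpleGraph.cycleGraph (2 * k + 1)).Adj i j then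
          (if P i j then (1 : ℝ) else 0) else 0) := by
    rw [Finset.card_filter]
    push_cast
    rw [Fintype.sum_prod_type]
    refine Finset.sum_congr rfl fun i _ => Finset.sum_congr rfl fun j _ => ?_
    by_cases h : (SimpleGraph.cycleGraph (2 * k + 1)).Adj i j
    · by_cases h' : P i j
      · rw [if_pos ⟨h, h'⟩, if_pos h, if_pos h']
      · rw [if_neg (fun h'' => h' h''.2), if_pos h, if_neg h']
    · rw [if_neg (fun h'' => h h''.1), if_neg h]
  rw [h2, h3]
  exact h1

theorem cut_cycle {k : ℕ} (hk : 1 ≤ k) (cc : Fin (2 * k + 1) → Bool) :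
    (2 * k + 1) * (univ.filter fun x : Fin (2 * k + 1) × Fin (2 * k + 1) =>
      (SimpleGraph.cycleGraph (2 * k + 1)).Adj x.1 x.2 ∧ cc x.1 ≠ cc x.2).card
      ≤ 2 * k * (univ.filter fun x : Fin (2 * k + 1) × Fin (2 * k + 1) =>
        (SimpleGraph.cycleGraph (2 * k + 1)).Adj x.1 x.2).card := by
  have h1 := cutodd_real hk (fun i j => cc i ≠ cc j) (fun i j => ne_comm)
  have h2 := cutodd_real hk (fun _ _ => True) (fun i j => Iff.rfl)
  have h3 : (univ.filter fun x : Fin (2 * k + 1) × Fin (2 * k + 1) =>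
      (SimpleGraph.cycleGraph (2 * k + 1)).Adj x.1 x.2 ∧ True).card =
      (univ.filter fun x : Fin (2 * k + 1) × Fin (2 * k + 1) =>
      (SimpleGraph.cycleGraph (2 * k + 1)).Adj x.1 x.2).card := by
    refine congrArg Finset.card (Finset.filter_congr fun x _ => ?_)
    exact and_iff_left trivial
  have h4 : (univ.filter fun i : Fin (2 * k + 1) => True).card = 2 * k + 1 := by
    rw [Finset.filter_true_of_mem (fun _ _ => trivial), Finset.card_univ, Fintype.card_fin]
  have h1' : (univ.filter fun x : Fin (2 * k + 1) × Fin (2 * k + 1) =>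
      (SimpleGraph.cycleGraph (2 * k + 1)).Adj x.1 x.2 ∧ cc x.1 ≠ cc x.2).card =
      2 * (univ.filter fun i : Fin (2 * k + 1) => cc i ≠ cc (i + 1)).card := by
    exact_mod_cast h1
  have h2' : (univ.filter fun x : Fin (2 * k + 1) × Fin (2 * k + 1) =>
      (SimpleGraph.cycleGraph (2 * k + 1)).Adj x.1 x.2).card = 2 * (2 * k + 1) := by
    rw [h3, h4] at h2
    exact_mod_cast h2
  have h5 := cutodd_le cc
  rw [h1', h2']
  nlinarith [h5]

lemma cutodd_sub {W : Type} [Fintype W] {F : SimpleGraph W} {k : ℕ} (hk : 1 ≤ k)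
    (H : F.Subgraph) (hH : Nonempty (SimpleGraph.cycleGraph (2 * k + 1) ≃g H.coe)) (cc : W → Bool) :
    (2 * k + 1) * (univ.filter fun x : W × W => H.Adj x.1 x.2 ∧ cc x.1 ≠ cc x.2).card
      ≤ 2 * k * (univ.filter fun x : W × W => H.Adj x.1 x.2).card := by
  obtain ⟨φ⟩ := hH
  let f : Fin (2 * k + 1) → W := fun i => (φ i : W)
  have hf : Function.Injective f := fun i j h => φ.injective (Subtype.ext h)
  have hadj : ∀ i j, (SimpleGraph.cycleGraph (2 * k + 1)).Adj i j ↔ H.Adj (f i) (f j) := by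
    intro i j
    rw [← φ.map_adj_iff (v := i) (w := j)]
    exact Iff.rfl
  have key : ∀ (P : W → W → Prop) [∀ u v, Decidable (P u v)],
      (univ.filter fun x : W × W => H.Adj x.1 x.2 ∧ P x.1 x.2).card =
      (univ.filter fun x : Fin (2 * k + 1) × Fin (2 * k + 1) =>
        (SimpleGraph.cycleGraph (2 * k + 1)).Adj x.1 x.2 ∧ P (f x.1) (f x.2)).card := by
    intro P _
    symm
    refine Finset.card_bij (fun x _ => (f x.1, f x.2)) ?_ ?_ ?_
    · intro x hx
      rw [Finset.mem_filter] at hx ⊢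
      exact ⟨Finset.mem_univ _, (hadj _ _).1 hx.2.1, hx.2.2⟩
    · intro x _ y _ hxy
      have h1 := congrArg Prod.fst hxy
      have h2 := congrArg Prod.snd hxy
      exact Prod.ext (hf h1) (hf h2)
    · intro y hy
      rw [Finset.mem_filter] at hy
      have h1 : y.1 ∈ H.verts := H.edge_vert hy.2.1
      have h2 : y.2 ∈ H.verts := H.edge_vert hy.2.1.symm
      have e1 : f (φ.symm ⟨y.1, h1⟩) = y.1 := by
        simp only [f, φ.apply_symm_apply]
      have e2 : f (φ.symm ⟨y.2, h2⟩) = y.2 := by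
        simp only [f, φ.apply_symm_apply]
      refine ⟨(φ.symm ⟨y.1, h1⟩, φ.symm ⟨y.2, h2⟩), ?_, ?_⟩
      · rw [Finset.mem_filter]
        refine ⟨Finset.mem_univ _, ?_, ?_⟩
        · rw [hadj]
          simp only [e1, e2]
          exact hy.2.1
        · simp only [e1, e2]
          exact hy.2.2
      · exact Prod.ext e1 e2
  have h1 := cut_cycle hk (fun i => cc (f i))
  have h2 := key (fun u v => cc u ≠ cc v)
  have h3 := key (fun _ _ => True)
  simp only [and_true] at h3
  rw [h2, h3]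
  exact h1

theorem cut_frac {W : Type} [Fintype W] {F : SimpleGraph W} {k : ℕ} (hk : 1 ≤ k)
    {w : F.Subgraph → ℝ}
    (hw : Pool.H34.Dec.IsFracDecomp (SimpleGraph.cycleGraph (2 * k + 1)) F w) (cc : W → Bool) :
    (2 * k + 1) * (univ.filter fun x : W × W => F.Adj x.1 x.2 ∧ cc x.1 ≠ cc x.2).card
      ≤ 2 * k * (univ.filter fun x : W × W => F.Adj x.1 x.2).card := by
  obtain ⟨h01, hiso, hone⟩ := hw
  have key : ∀ (P : W → W → Prop) [∀ u v, Decidable (P u v)],
      (((univ.filter fun x : W × W => F.Adj x.1 x.2 ∧ P x.1 x.2).card : ℕ) : ℝ) =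
      ∑ H : F.Subgraph, w H * (((univ.filter fun x : W × W => H.Adj x.1 x.2 ∧ P x.1 x.2).card : ℕ) : ℝ) := by
    intro P _
    have e1 : ∀ H : F.Subgraph,
        w H * (((univ.filter fun x : W × W => H.Adj x.1 x.2 ∧ P x.1 x.2).card : ℕ) : ℝ) =
        ∑ x : W × W, (if H.Adj x.1 x.2 ∧ P x.1 x.2 then w H else 0) := by
      intro H
      rw [Finset.card_filter]
      push_cast
      rw [Finset.mul_sum]
      refine Finset.sum_congr rfl fun x _ => ?_
      by_cases h : H.Adj x.1 x.2 ∧ P x.1 x.2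
      · rw [if_pos h, if_pos h, mul_one]
      · rw [if_neg h, if_neg h, mul_zero]
    rw [Finset.sum_congr rfl fun H _ => e1 H, Finset.sum_comm, Finset.card_filter]
    push_cast
    refine Finset.sum_congr rfl fun x _ => ?_
    by_cases hP : P x.1 x.2
    · by_cases hF : F.Adj x.1 x.2
      · rw [if_pos ⟨hF, hP⟩]
        have e2 := hone s(x.1, x.2) (by rw [SimpleGraph.mem_edgeSet]; exact hF)
        rw [Finset.sum_filter] at e2
        rw [← e2]
        refine Finset.sum_congr rfl fun H _ => ?_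
        by_cases hH : H.Adj x.1 x.2
        · rw [if_pos (SimpleGraph.Subgraph.mem_edgeSet.2 hH), if_pos ⟨hH, hP⟩]
        · rw [if_neg (fun h => hH (SimpleGraph.Subgraph.mem_edgeSet.1 h)), if_neg (fun h => hH h.1)]
      · rw [if_neg (fun h => hF h.1)]
        symm
        refine Finset.sum_eq_zero fun H _ => ?_
        rw [if_neg (fun h => hF (H.adj_sub h.1))]
    · rw [if_neg (fun h => hP h.2)]
      symm
      refine Finset.sum_eq_zero fun H _ => ?_
      rw [if_neg (fun h => hP h.2)]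
  have h1 := key (fun u v => cc u ≠ cc v)
  have h2 := key (fun _ _ => True)
  simp only [and_true] at h2
  have h3 : ((2 * k + 1 : ℕ) : ℝ) *
      (((univ.filter fun x : W × W => F.Adj x.1 x.2 ∧ cc x.1 ≠ cc x.2).card : ℕ) : ℝ)
      ≤ ((2 * k : ℕ) : ℝ) * (((univ.filter fun x : W × W => F.Adj x.1 x.2).card : ℕ) : ℝ) := by
    rw [h1, h2, Finset.mul_sum, Finset.mul_sum]
    refine Finset.sum_le_sum fun H _ => ?_
    by_cases hH : w H = 0
    · rw [hH]
      simp
    · have h4 := cutodd_sub hk H (hiso H hH) cc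
      have h5 : (((2 * k + 1) *
          (univ.filter fun x : W × W => H.Adj x.1 x.2 ∧ cc x.1 ≠ cc x.2).card : ℕ) : ℝ) ≤
          ((2 * k * (univ.filter fun x : W × W => H.Adj x.1 x.2).card : ℕ) : ℝ) := by
        exact_mod_cast h4
      have h6 := mul_le_mul_of_nonneg_left h5 (h01 H).1
      rw [Nat.cast_mul, Nat.cast_mul] at h6
      calc ((2 * k + 1 : ℕ) : ℝ) * (w H *
            (((univ.filter fun x : W × W => H.Adj x.1 x.2 ∧ cc x.1 ≠ cc x.2).card : ℕ) : ℝ))
          = w H * (((2 * k + 1 : ℕ) : ℝ) *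
            (((univ.filter fun x : W × W => H.Adj x.1 x.2 ∧ cc x.1 ≠ cc x.2).card : ℕ) : ℝ)) := by ring
        _ ≤ w H * (((2 * k : ℕ) : ℝ) *
            (((univ.filter fun x : W × W => H.Adj x.1 x.2).card : ℕ) : ℝ)) := h6
        _ = ((2 * k : ℕ) : ℝ) * (w H *
            (((univ.filter fun x : W × W => H.Adj x.1 x.2).card : ℕ) : ℝ)) := by ring
  exact_mod_cast h3

end Pool.OCG
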