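import Pool.Agent.OCG.WalkB

/-!
MODULE Viol3 (difficulty 3).  No box of violating triples.

RECIPE.  Let `t = Fintype.card W > 0`; `A 0, A 1, A 2` are pairwise disjoint (adjacent vertices are different).
Enumerate `u i : Fin t → V` injective with image `A i`.  The closed walk `τ : Fin (2k+1) → Fin 3`: `τ 0 = 2`, and for
`s ≥ 1`: `τ s = 0` if `s` is odd, `τ s = 1` if `s` is even (`≥ 2`).  With `R x y = ∑ p, ∑ q, r (u x p) (u y q)`
(symmetric), `walk_box` gives `∑_s R (τ s) (τ (s+1)) = R 2 0 + (2k - 1) R 0 1 + R 1 2 ≤ 0` (`s = 0`, `1 ≤ s ≤ 2k-1`,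
`s = 2k`).  But `t * (that) = ∑_{a ∈ A 0, b ∈ A 1, c ∈ A 2} ((2k - 1) r a b + r a c + r b c) > 0`.
-/

open Finset
open scoped Classical

namespace Pool.OCG
open Pool.OCY

theorem viol3_enum {V : Type*} {m t : ℕ} (B : Fin m → Finset V) (hB : ∀ i, (B i).card = t)
    (hd : ∀ i j, i ≠ j → ∀ v, v ∈ B i → v ∉ B j) :
    ∃ u : Fin m → Fin t → V, (∀ i p, u i p ∈ B i) ∧
      ∀ x y p q, u x p = u y q → x = y ∧ p = q := by
  refine ⟨fun i p => ((B i).equivFin.symm (Fin.cast (hB i).symm p)).1,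
    fun i p => ((B i).equivFin.symm (Fin.cast (hB i).symm p)).2, ?_⟩
  intro x y p q h
  have hxy : x = y := by
    by_contra hne
    refine hd x y hne _ ((B x).equivFin.symm (Fin.cast (hB x).symm p)).2 ?_
    have h' : ((B x).equivFin.symm (Fin.cast (hB x).symm p)).1 =
      ((B y).equivFin.symm (Fin.cast (hB y).symm q)).1 := h
    rw [h']
    exact ((B y).equivFin.symm (Fin.cast (hB y).symm q)).2
  subst hxy
  refine ⟨rfl, ?_⟩
  have h2 := (B x).equivFin.symm.injective (Subtype.ext h)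
  exact Fin.cast_injective _ h2

/-- the walk -/
def viol3_tau (k : ℕ) (s : Fin (2 * k + 1)) : Fin 3 :=
  if s.1 = 0 then 2 else if s.1 % 2 = 1 then 0 else 1

theorem viol3_step {k : ℕ} (hk : 1 ≤ k) (s : Fin (2 * k + 1)) :
    (s.1 = 0 ∧ viol3_tau k s = 2 ∧ viol3_tau k (s + 1) = 0) ∨
    (s.1 = 2 * k ∧ viol3_tau k s = 1 ∧ viol3_tau k (s + 1) = 2) ∨
    ((s.1 ≠ 0 ∧ s.1 ≠ 2 * k) ∧ ((viol3_tau k s = 0 ∧ viol3_tau k (s + 1) = 1) ∨
      (viol3_tau k s = 1 ∧ viol3_tau k (s + 1) = 0))) := by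
  have hv : (s + 1).1 = if s = Fin.last (2 * k) then 0 else s.1 + 1 := Fin.val_add_one s
  by_cases h0 : s.1 = 0
  · left
    have hl : s ≠ Fin.last (2 * k) := by
      intro h
      have := congrArg Fin.val h
      simp only [Fin.val_last] at this
      omega
    rw [if_neg hl] at hv
    refine ⟨h0, ?_, ?_⟩
    · simp [viol3_tau, h0]
    · simp [viol3_tau, hv, h0]
  · by_cases h2 : s.1 = 2 * k
    · right
      left
      have hl : s = Fin.last (2 * k) := Fin.ext h2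
      rw [if_pos hl] at hv
      refine ⟨h2, ?_, ?_⟩
      · have h3 : s.1 % 2 ≠ 1 := by omega
        simp only [viol3_tau, if_neg h0, if_neg h3]
      · simp only [viol3_tau, if_pos hv]
    · right
      right
      have hl : s ≠ Fin.last (2 * k) := by
        intro h
        exact h2 (congrArg Fin.val h)
      rw [if_neg hl] at hv
      refine ⟨⟨h0, h2⟩, ?_⟩
      have h1 : (s + 1).1 ≠ 0 := by omega
      by_cases h3 : s.1 % 2 = 1
      · left
        have h4 : (s + 1).1 % 2 ≠ 1 := by omega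
        simp only [viol3_tau, if_neg h0, if_pos h3, if_neg h1, if_neg h4, and_self]
      · right
        have h4 : (s + 1).1 % 2 = 1 := by omega
        simp only [viol3_tau, if_neg h0, if_neg h3, if_neg h1, if_pos h4, and_self]

theorem viol3 {W V : Type*} [Fintype W] {F : SimpleGraph W} (hF : F ≠ ⊥) {k : ℕ} (hk : 1 ≤ k)
    {c : W → Fin (2 * k + 1)} (hc : Col F (2 * k) c) {G : SimpleGraph V} {r : V → V → ℝ}
    (hs : ∀ a b, r a b = r b a) (hr : CopNonpos F G r) (A : Fin 3 → Finset V)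
    (hA : ∀ i, (A i).card = Fintype.card W)
    (hP : ∀ a ∈ A 0, ∀ b ∈ A 1, ∀ c ∈ A 2, P3 G (2 * k) r a b c) : False := by
  set t := Fintype.card W with ht
  by_cases ht0 : t = 0
  · apply hF
    have hW : IsEmpty W := Fintype.card_eq_zero_iff.1 (ht ▸ ht0)
    ext a
    exact (hW.false a).elim
  have htp : 0 < t := Nat.pos_of_ne_zero ht0
  have hne : ∀ i, (A i).Nonempty := by
    intro i
    rw [← Finset.card_pos, hA i]
    exact htp
  obtain ⟨a0, ha0⟩ := hne 0
  obtain ⟨b0, hb0⟩ := hne 1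
  obtain ⟨c0, hc0⟩ := hne 2
  have h01 : ∀ a ∈ A 0, ∀ b ∈ A 1, G.Adj a b := fun a ha b hb => (hP a ha b hb c0 hc0).1
  have h02 : ∀ a ∈ A 0, ∀ c ∈ A 2, G.Adj a c := fun a ha c hc => (hP a ha b0 hb0 c hc).2.1
  have h12 : ∀ b ∈ A 1, ∀ c ∈ A 2, G.Adj b c := fun b hb c hc => (hP a0 ha0 b hb c hc).2.2.1
  have hadj : ∀ i j : Fin 3, i ≠ j → ∀ v ∈ A i, ∀ w ∈ A j, G.Adj v w := by
    intro i j hij v hv w hw
    fin_cases i <;> fin_cases j
    · exact absurd rfl hij
    · exact h01 v hv w hw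
    · exact h02 v hv w hw
    · exact (h01 w hw v hv).symm
    · exact absurd rfl hij
    · exact h12 v hv w hw
    · exact (h02 w hw v hv).symm
    · exact (h12 w hw v hv).symm
    · exact absurd rfl hij
  obtain ⟨u, hu1, hu2⟩ := viol3_enum A hA (fun i j hij v hv hw => (hadj i j hij v hv v hw).ne rfl)
  have hτ : ∀ s, viol3_tau k s ≠ viol3_tau k (s + 1) ∧
      ∀ p q, G.Adj (u (viol3_tau k s) p) (u (viol3_tau k (s + 1)) q) := by
    intro s
    have h1 : viol3_tau k s ≠ viol3_tau k (s + 1) := by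
      rcases viol3_step hk s with ⟨_, h, h'⟩ | ⟨_, h, h'⟩ | ⟨_, ⟨h, h'⟩ | ⟨h, h'⟩⟩ <;>
        rw [h, h'] <;> decide
    exact ⟨h1, fun p q => hadj _ _ h1 _ (hu1 _ _) _ (hu1 _ _)⟩
  have hw := walk_box hF hc hs hr u hu2 (viol3_tau k) hτ
  set R : Fin 3 → Fin 3 → ℝ := fun x y => ∑ p, ∑ q, r (u x p) (u y q) with hR
  have hsym : ∀ x y, R x y = R y x := by
    intro x y
    simp only [hR]
    rw [Finset.sum_comm]
    exact Finset.sum_congr rfl (fun _ _ => Finset.sum_congr rfl (fun _ _ => hs _ _))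
  have hw2 : ∑ s, R (viol3_tau k s) (viol3_tau k (s + 1)) ≤ 0 := hw
  obtain ⟨j, rfl⟩ : ∃ j, k = j + 1 := ⟨k - 1, by omega⟩
  let H : ℕ → ℝ := fun n => if n = 0 then R 2 0 else if n = 2 * (j + 1) then R 1 2 else R 0 1
  have hH : ∑ s, R (viol3_tau (j + 1) s) (viol3_tau (j + 1) (s + 1)) =
      ∑ s : Fin (2 * (j + 1) + 1), H s.1 := by
    refine Finset.sum_congr rfl (fun s _ => ?_)
    rcases viol3_step hk s with ⟨h0, h, h'⟩ | ⟨h0, h, h'⟩ | ⟨⟨h0, h1⟩, ⟨h, h'⟩ | ⟨h, h'⟩⟩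
    · rw [h, h']
      simp only [H, if_pos h0]
    · rw [h, h']
      have : s.1 ≠ 0 := by omega
      simp only [H, if_neg this, if_pos h0]
    · rw [h, h']
      simp only [H, if_neg h0, if_neg h1]
    · rw [h, h', hsym]
      simp only [H, if_neg h0, if_neg h1]
  have hH2 : ∑ s : Fin (2 * (j + 1) + 1), H s.1 = R 2 0 + (2 * j + 1) * R 0 1 + R 1 2 := by
    rw [Fin.sum_univ_eq_sum_range H (2 * (j + 1) + 1), Finset.sum_range_succ]
    have e : 2 * (j + 1) = 2 * j + 1 + 1 := by ring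
    have hlast : H (2 * (j + 1)) = R 1 2 := by
      have : 2 * (j + 1) ≠ 0 := by omega
      simp only [H, if_neg this, if_true]
    rw [hlast, e, Finset.sum_range_succ']
    have h0 : H 0 = R 2 0 := by simp only [H, if_true]
    have hm : ∑ n ∈ Finset.range (2 * j + 1), H (n + 1) = (2 * j + 1) * R 0 1 := by
      rw [Finset.sum_congr rfl (g := fun _ => R 0 1)]
      · rw [Finset.sum_const, Finset.card_range, nsmul_eq_mul]
        push_cast
        ring
      · intro n hn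
        have hn' := Finset.mem_range.1 hn
        have h1 : n + 1 ≠ 0 := by omega
        have h2 : n + 1 ≠ 2 * (j + 1) := by omega
        simp only [H, if_neg h1, if_neg h2]
    rw [h0, hm]
    ring
  rw [hH, hH2] at hw2
  have hS : 0 < ∑ p : Fin t, ∑ q : Fin t, ∑ w : Fin t, ((2 * j + 1) * r (u 0 p) (u 1 q) +
      r (u 0 p) (u 2 w) + r (u 1 q) (u 2 w)) := by
    have hnt : (Finset.univ : Finset (Fin t)).Nonempty := ⟨⟨0, htp⟩, Finset.mem_univ _⟩
    refine Finset.sum_pos (fun p _ => Finset.sum_pos (fun q _ => Finset.sum_pos (fun w _ => ?_)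
      hnt) hnt) hnt
    have h := (hP _ (hu1 0 p) _ (hu1 1 q) _ (hu1 2 w)).2.2.2
    push_cast at h
    nlinarith [h]
  have hS2 : ∑ p : Fin t, ∑ q : Fin t, ∑ w : Fin t, ((2 * j + 1) * r (u 0 p) (u 1 q) +
      r (u 0 p) (u 2 w) + r (u 1 q) (u 2 w)) =
      t * (R 0 2 + (2 * j + 1) * R 0 1 + R 1 2) := by
    simp only [Finset.sum_add_distrib, Finset.sum_const, Finset.card_univ, Fintype.card_fin,
      nsmul_eq_mul, ← Finset.mul_sum, hR]
    ring
  rw [hS2, hsym 0 2] at hS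
  have : (t : ℝ) * (R 2 0 + (2 * j + 1) * R 0 1 + R 1 2) ≤ 0 :=
    mul_nonpos_of_nonneg_of_nonpos (Nat.cast_nonneg _) hw2
  linarith

end Pool.OCG
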