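import Pool.Agent.OCG.WalkB

/-!
MODULE Viol4 (difficulty 3).  No box of violating quadruples.

RECIPE.  Let `t = Fintype.card W > 0`.  `A 0` is disjoint from `A 1, A 2, A 3` and `A 1` from `A 2` (adjacent vertices
are different).  Choose `B 0 ⊆ A 0`, `B 1 ⊆ A 1`, `B 2 ⊆ A 2` with `t` elements and `B 3 ⊆ A 3 \ (B 1 ∪ B 2)` with `t`
elements (`|A 3| = 3 t`).  Enumerate: `u i : Fin t → V` injective with image `B i`
(`Finset.equivFinOfCardEq` / `Finset.orderEmbOfFin` is not available without order: use `(B i).equivFin`).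
The closed walk `τ : Fin (2k+1) → Fin 4`: `τ 0 = 1`, `τ 1 = 2`, and for `s ≥ 2`: `τ s = 0` if `s` is even, `τ s = 3` if
`s` is odd (cyclic: `2k` is even, so the last vertex is in class `0`, adjacent to class `1`).  With
`R x y = ∑ p, ∑ q, r (u x p) (u y q)` (symmetric), `walk_box` gives
`∑_s R (τ s) (τ (s+1)) = R 1 2 + R 2 0 + (2k - 2) R 0 3 + R 0 1 ≤ 0`
(`s = 0`, `s = 1`, `2 ≤ s ≤ 2k - 1`, `s = 2k`; for `k = 1` the walk is `b, c, a` and there are no `d`'s).
But `t ^ 2 * (that) = ∑_{a ∈ B 0, b ∈ B 1, c ∈ B 2, d ∈ B 3} (r a b + r a c + r b c + (2k - 2) r a d) > 0` (nonempty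
sum of positive numbers, the last component of `P4`; the coefficient in `P4 G (2 * k)` is `2 * (k : ℝ) - 2`).
-/

open Finset
open scoped Classical

namespace Pool.OCG
open Pool.OCY

theorem viol4_enum {V : Type*} {m t : ℕ} (B : Fin m → Finset V) (hB : ∀ i, (B i).card = t)
    (hd : ∀ i j, i ≠ j → ∀ v, v ∈ B i → v ∉ B j) :
    ∃ u : Fin m → Fin t → V, (∀ i p, u i p ∈ B i) ∧
      ∀ x y p q, u x p = u y q → x = y ∧ p = q := by
  refine ⟨fun i p => ((B i).equivFin.symm (Fin.cast (hB i).symm p)).1,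
    fun i p => ((B i).equivFin.symm (Fin.cast (hB i).symm p)).2, ?_⟩
  intro x y p q h
  have hxy : x = y := by
    by_contra hne
    refine hd x y hne _ ((B x).equivFin.symm (Fin.cast (hB x).symm p)).2 ?_
    have h' : ((B x).equivFin.symm (Fin.cast (hB x).symm p)).1 =
      ((B y).equivFin.symm (Fin.cast (hB y).symm q)).1 := h
    rw [h']
    exact ((B y).equivFin.symm (Fin.cast (hB y).symm q)).2
  subst hxy
  refine ⟨rfl, ?_⟩
  have h2 := (B x).equivFin.symm.injective (Subtype.ext h)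
  exact Fin.cast_injective _ h2

/-- the walk -/
def viol4_tau (k : ℕ) (s : Fin (2 * k + 1)) : Fin 4 :=
  if s.1 = 0 then 1 else if s.1 = 1 then 2 else if s.1 % 2 = 1 then 3 else 0

theorem viol4_step {k : ℕ} (hk : 1 ≤ k) (s : Fin (2 * k + 1)) :
    (s.1 = 0 ∧ viol4_tau k s = 1 ∧ viol4_tau k (s + 1) = 2) ∨
    (s.1 = 1 ∧ viol4_tau k s = 2 ∧ viol4_tau k (s + 1) = 0) ∨
    (s.1 = 2 * k ∧ viol4_tau k s = 0 ∧ viol4_tau k (s + 1) = 1) ∨
    ((s.1 ≠ 0 ∧ s.1 ≠ 1 ∧ s.1 ≠ 2 * k) ∧ ((viol4_tau k s = 0 ∧ viol4_tau k (s + 1) = 3) ∨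
      (viol4_tau k s = 3 ∧ viol4_tau k (s + 1) = 0))) := by
  have hv : (s + 1).1 = if s = Fin.last (2 * k) then 0 else s.1 + 1 := Fin.val_add_one s
  by_cases h0 : s.1 = 0
  · left
    have hl : s ≠ Fin.last (2 * k) := by
      intro h
      have := congrArg Fin.val h
      simp only [Fin.val_last] at this
      omega
    rw [if_neg hl] at hv
    refine ⟨h0, ?_, ?_⟩
    · simp [viol4_tau, h0]
    · simp [viol4_tau, hv, h0]
  · by_cases h1 : s.1 = 1
    · right
      left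
      have hl : s ≠ Fin.last (2 * k) := by
        intro h
        have := congrArg Fin.val h
        simp only [Fin.val_last] at this
        omega
      rw [if_neg hl] at hv
      refine ⟨h1, ?_, ?_⟩
      · simp [viol4_tau, h1]
      · simp [viol4_tau, hv, h1]
    · by_cases h2 : s.1 = 2 * k
      · right
        right
        left
        have hl : s = Fin.last (2 * k) := Fin.ext h2
        rw [if_pos hl] at hv
        refine ⟨h2, ?_, ?_⟩
        · have h3 : s.1 % 2 ≠ 1 := by omega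
          simp only [viol4_tau, if_neg h0, if_neg h1, if_neg h3]
        · simp only [viol4_tau, if_pos hv]
      · right
        right
        right
        have hl : s ≠ Fin.last (2 * k) := by
          intro h
          exact h2 (congrArg Fin.val h)
        rw [if_neg hl] at hv
        refine ⟨⟨h0, h1, h2⟩, ?_⟩
        have h5 : (s + 1).1 ≠ 0 := by omega
        have h6 : (s + 1).1 ≠ 1 := by omega
        by_cases h3 : s.1 % 2 = 1
        · right
          have h4 : (s + 1).1 % 2 ≠ 1 := by omega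
          simp only [viol4_tau, if_neg h0, if_neg h1, if_pos h3, if_neg h5, if_neg h6, if_neg h4,
            and_self]
        · left
          have h4 : (s + 1).1 % 2 = 1 := by omega
          simp only [viol4_tau, if_neg h0, if_neg h1, if_neg h3, if_neg h5, if_neg h6, if_pos h4,
            and_self]

theorem viol4 {W V : Type*} [Fintype W] {F : SimpleGraph W} (hF : F ≠ ⊥) {k : ℕ} (hk : 1 ≤ k)
    {c : W → Fin (2 * k + 1)} (hc : Col F (2 * k) c) {G : SimpleGraph V} {r : V → V → ℝ}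
    (hs : ∀ a b, r a b = r b a) (hr : CopNonpos F G r) (A : Fin 4 → Finset V)
    (hA : ∀ i, (A i).card = 3 * Fintype.card W)
    (hP : ∀ a ∈ A 0, ∀ b ∈ A 1, ∀ c ∈ A 2, ∀ d ∈ A 3, P4 G (2 * k) r a b c d) : False := by
  set t := Fintype.card W with ht
  by_cases ht0 : t = 0
  · apply hF
    have hW : IsEmpty W := Fintype.card_eq_zero_iff.1 (ht ▸ ht0)
    ext a
    exact (hW.false a).elim
  have htp : 0 < t := Nat.pos_of_ne_zero ht0
  have hne : ∀ i, (A i).Nonempty := by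
    intro i
    rw [← Finset.card_pos, hA i]
    omega
  obtain ⟨a0, ha0⟩ := hne 0
  obtain ⟨b0, hb0⟩ := hne 1
  obtain ⟨c0, hc0⟩ := hne 2
  obtain ⟨d0, hd0⟩ := hne 3
  have h01 : ∀ a ∈ A 0, ∀ b ∈ A 1, G.Adj a b :=
    fun a ha b hb => (hP a ha b hb c0 hc0 d0 hd0).1
  have h02 : ∀ a ∈ A 0, ∀ c ∈ A 2, G.Adj a c :=
    fun a ha c hc => (hP a ha b0 hb0 c hc d0 hd0).2.1
  have h12 : ∀ b ∈ A 1, ∀ c ∈ A 2, G.Adj b c :=
    fun b hb c hc => (hP a0 ha0 b hb c hc d0 hd0).2.2.1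
  have h03 : ∀ a ∈ A 0, ∀ d ∈ A 3, G.Adj a d :=
    fun a ha d hd => (hP a ha b0 hb0 c0 hc0 d hd).2.2.2.1
  obtain ⟨B0, hB0, hB0c⟩ := Finset.exists_subset_card_eq (s := A 0) (n := t)
    (by rw [hA 0]; omega)
  obtain ⟨B1, hB1, hB1c⟩ := Finset.exists_subset_card_eq (s := A 1) (n := t)
    (by rw [hA 1]; omega)
  obtain ⟨B2, hB2, hB2c⟩ := Finset.exists_subset_card_eq (s := A 2) (n := t)
    (by rw [hA 2]; omega)
  obtain ⟨B3, hB3, hB3c⟩ := Finset.exists_subset_card_eq (s := A 3 \ (B1 ∪ B2)) (n := t) (by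
    have h1 := Finset.le_card_sdiff (B1 ∪ B2) (A 3)
    have h2 := Finset.card_union_le B1 B2
    have h3 := hA 3
    omega)
  have hB3' : ∀ v ∈ B3, v ∈ A 3 ∧ v ∉ B1 ∧ v ∉ B2 := by
    intro v hv
    have := hB3 hv
    rw [Finset.mem_sdiff, Finset.mem_union, not_or] at this
    exact this
  have n01 : ∀ v ∈ B0, v ∉ B1 := fun v hv hv' => (h01 v (hB0 hv) v (hB1 hv')).ne rfl
  have n02 : ∀ v ∈ B0, v ∉ B2 := fun v hv hv' => (h02 v (hB0 hv) v (hB2 hv')).ne rfl
  have n03 : ∀ v ∈ B0, v ∉ B3 := fun v hv hv' => (h03 v (hB0 hv) v (hB3' v hv').1).ne rfl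
  have n12 : ∀ v ∈ B1, v ∉ B2 := fun v hv hv' => (h12 v (hB1 hv) v (hB2 hv')).ne rfl
  let B : Fin 4 → Finset V := ![B0, B1, B2, B3]
  have hBc : ∀ i, (B i).card = t := by
    intro i
    fin_cases i
    · exact hB0c
    · exact hB1c
    · exact hB2c
    · exact hB3c
  have hdis : ∀ i j, i ≠ j → ∀ v, v ∈ B i → v ∉ B j := by
    intro i j hij v hv hw
    fin_cases i <;> fin_cases j
    · exact absurd rfl hij
    · exact n01 v hv hw
    · exact n02 v hv hw
    · exact n03 v hv hw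
    · exact n01 v hw hv
    · exact absurd rfl hij
    · exact n12 v hv hw
    · exact (hB3' v hw).2.1 hv
    · exact n02 v hw hv
    · exact n12 v hw hv
    · exact absurd rfl hij
    · exact (hB3' v hw).2.2 hv
    · exact n03 v hw hv
    · exact (hB3' v hv).2.1 hw
    · exact (hB3' v hv).2.2 hw
    · exact absurd rfl hij
  obtain ⟨u, hu1, hu2⟩ := viol4_enum B hBc hdis
  have u0 : ∀ p, u 0 p ∈ A 0 := fun p => hB0 (hu1 0 p)
  have u1 : ∀ p, u 1 p ∈ A 1 := fun p => hB1 (hu1 1 p)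
  have u2 : ∀ p, u 2 p ∈ A 2 := fun p => hB2 (hu1 2 p)
  have u3 : ∀ p, u 3 p ∈ A 3 := fun p => (hB3' _ (hu1 3 p)).1
  have hτ : ∀ s, viol4_tau k s ≠ viol4_tau k (s + 1) ∧
      ∀ p q, G.Adj (u (viol4_tau k s) p) (u (viol4_tau k (s + 1)) q) := by
    intro s
    rcases viol4_step hk s with ⟨_, h, h'⟩ | ⟨_, h, h'⟩ | ⟨_, h, h'⟩ | ⟨_, ⟨h, h'⟩ | ⟨h, h'⟩⟩ <;>
      rw [h, h']
    · exact ⟨by decide, fun p q => h12 _ (u1 p) _ (u2 q)⟩
    · exact ⟨by decide, fun p q => (h02 _ (u0 q) _ (u2 p)).symm⟩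
    · exact ⟨by decide, fun p q => h01 _ (u0 p) _ (u1 q)⟩
    · exact ⟨by decide, fun p q => h03 _ (u0 p) _ (u3 q)⟩
    · exact ⟨by decide, fun p q => (h03 _ (u0 q) _ (u3 p)).symm⟩
  have hw := walk_box hF hc hs hr u hu2 (viol4_tau k) hτ
  set R : Fin 4 → Fin 4 → ℝ := fun x y => ∑ p, ∑ q, r (u x p) (u y q) with hR
  have hsym : ∀ x y, R x y = R y x := by
    intro x y
    simp only [hR]
    rw [Finset.sum_comm]
    exact Finset.sum_congr rfl (fun _ _ => Finset.sum_congr rfl (fun _ _ => hs _ _))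
  have hw2 : ∑ s, R (viol4_tau k s) (viol4_tau k (s + 1)) ≤ 0 := hw
  obtain ⟨j, rfl⟩ : ∃ j, k = j + 1 := ⟨k - 1, by omega⟩
  let H : ℕ → ℝ := fun n => if n = 0 then R 1 2 else if n = 1 then R 2 0 else
    if n = 2 * (j + 1) then R 0 1 else R 0 3
  have hH : ∑ s, R (viol4_tau (j + 1) s) (viol4_tau (j + 1) (s + 1)) =
      ∑ s : Fin (2 * (j + 1) + 1), H s.1 := by
    refine Finset.sum_congr rfl (fun s _ => ?_)
    rcases viol4_step hk s with ⟨h0, h, h'⟩ | ⟨h0, h, h'⟩ | ⟨h0, h, h'⟩ |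
      ⟨⟨h0, h1, h2⟩, ⟨h, h'⟩ | ⟨h, h'⟩⟩
    · rw [h, h']
      simp only [H, if_pos h0]
    · rw [h, h']
      have h5 : s.1 ≠ 0 := by omega
      simp only [H, if_neg h5, if_pos h0]
    · rw [h, h']
      have h5 : s.1 ≠ 0 := by omega
      have h6 : s.1 ≠ 1 := by omega
      simp only [H, if_neg h5, if_neg h6, if_pos h0]
    · rw [h, h']
      simp only [H, if_neg h0, if_neg h1, if_neg h2]
    · rw [h, h', hsym]
      simp only [H, if_neg h0, if_neg h1, if_neg h2]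
  have hH2 : ∑ s : Fin (2 * (j + 1) + 1), H s.1 =
      R 1 2 + R 2 0 + (2 * j) * R 0 3 + R 0 1 := by
    rw [Fin.sum_univ_eq_sum_range H (2 * (j + 1) + 1), Finset.sum_range_succ]
    have e : 2 * (j + 1) = 2 * j + 1 + 1 := by ring
    have hlast : H (2 * (j + 1)) = R 0 1 := by
      have h5 : 2 * (j + 1) ≠ 0 := by omega
      have h6 : 2 * (j + 1) ≠ 1 := by omega
      simp only [H, if_neg h5, if_neg h6, if_true]
    rw [hlast, e, Finset.sum_range_succ', Finset.sum_range_succ']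
    have h0 : H 0 = R 1 2 := by simp only [H, if_true]
    have h1 : H (0 + 1) = R 2 0 := by
      simp only [H]
      norm_num
    have hm : ∑ n ∈ Finset.range (2 * j), H (n + 1 + 1) = (2 * j) * R 0 3 := by
      rw [Finset.sum_congr rfl (g := fun _ => R 0 3)]
      · rw [Finset.sum_const, Finset.card_range, nsmul_eq_mul]
        push_cast
        ring
      · intro n hn
        have hn' := Finset.mem_range.1 hn
        have h1 : n + 1 + 1 ≠ 0 := by omega
        have h2 : n + 1 + 1 ≠ 1 := by omega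
        have h3 : n + 1 + 1 ≠ 2 * (j + 1) := by omega
        simp only [H, if_neg h1, if_neg h2, if_neg h3]
    rw [h0, h1, hm]
    ring
  rw [hH, hH2] at hw2
  have hS : 0 < ∑ p : Fin t, ∑ q : Fin t, ∑ w : Fin t, ∑ z : Fin t, (r (u 0 p) (u 1 q) +
      r (u 0 p) (u 2 w) + r (u 1 q) (u 2 w) + (2 * j) * r (u 0 p) (u 3 z)) := by
    have hnt : (Finset.univ : Finset (Fin t)).Nonempty := ⟨⟨0, htp⟩, Finset.mem_univ _⟩
    refine Finset.sum_pos (fun p _ => Finset.sum_pos (fun q _ => Finset.sum_pos (fun w _ =>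
      Finset.sum_pos (fun z _ => ?_) hnt) hnt) hnt) hnt
    have h := (hP _ (u0 p) _ (u1 q) _ (u2 w) _ (u3 z)).2.2.2.2
    push_cast at h
    nlinarith [h]
  have hS2 : ∑ p : Fin t, ∑ q : Fin t, ∑ w : Fin t, ∑ z : Fin t, (r (u 0 p) (u 1 q) +
      r (u 0 p) (u 2 w) + r (u 1 q) (u 2 w) + (2 * j) * r (u 0 p) (u 3 z)) =
      (t : ℝ) ^ 2 * (R 0 1 + R 0 2 + R 1 2 + (2 * j) * R 0 3) := by
    simp only [Finset.sum_add_distrib, Finset.sum_const, Finset.card_univ, Fintype.card_fin,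
      nsmul_eq_mul, ← Finset.mul_sum, hR]
    ring
  rw [hS2, hsym 0 2] at hS
  have : (t : ℝ) ^ 2 * (R 1 2 + R 2 0 + (2 * j) * R 0 3 + R 0 1) ≤ 0 :=
    mul_nonpos_of_nonneg_of_nonpos (sq_nonneg _) hw2
  linarith

end Pool.OCG
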