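import Pool.Agent.OCG.Defs

/-!
MODULE Fold (difficulty 2).  Folding the long cycle to the 5-cycle, and normalising the colours of an edge.

RECIPE.  First normalise: `c' w = c w - c w0` if `c w1 = c w0 + 1`, and `c' w = -(c w - c w0)` if `c w0 = c w1 + 1`; then
`Col F (2k) c'`, `c' w0 = 0`, `c' w1 = 1`.  For `fold3` this is all (`k = 1`).  For `fold5` compose with
`φ : Fin (2k+1) → Fin 5`, `φ 0 = 0`, `φ 1 = 1`, `φ (2k) = 4`, and for `2 ≤ s ≤ 2k - 1`: `φ s = 2` if `s` is even, `φ s = 3` if
`s` is odd.  Check `φ (s + 1) = φ s + 1 ∨ φ s = φ (s + 1) + 1` for all `s` (cyclic): `s = 0`: 0, 1; `s = 1`: 1, 2 (`k ≥ 2`, so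
`2 ≤ 2k - 1`); `2 ≤ s ≤ 2k - 2`: 2, 3 or 3, 2; `s = 2k - 1` (odd): 3, 4; `s = 2k`: 4, 0.
-/

open Finset
open scoped Classical

namespace Pool.OCG

theorem fold_norm {W : Type*} {F : SimpleGraph W} {n : ℕ} {c : W → Fin (n + 1)}
    (hc : Col F n c) {w0 w1 : W} (h : F.Adj w0 w1) :
    ∃ c' : W → Fin (n + 1), Col F n c' ∧ c' w0 = 0 ∧ c' w1 = 1 := by
  rcases hc w0 w1 h with h1 | h1
  · refine ⟨fun w => c w - c w0, ?_, ?_, ?_⟩
    · intro i j hij
      rcases hc i j hij with h2 | h2
      · left
        show c j - c w0 = c i - c w0 + 1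
        rw [h2]
        abel
      · right
        show c i - c w0 = c j - c w0 + 1
        rw [h2]
        abel
    · show c w0 - c w0 = 0
      exact sub_self _
    · show c w1 - c w0 = 1
      rw [h1]
      abel
  · refine ⟨fun w => c w0 - c w, ?_, ?_, ?_⟩
    · intro i j hij
      rcases hc i j hij with h2 | h2
      · right
        show c w0 - c i = c w0 - c j + 1
        rw [h2]
        abel
      · left
        show c w0 - c j = c w0 - c i + 1
        rw [h2]
        abel
    · show c w0 - c w0 = 0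
      exact sub_self _
    · show c w0 - c w1 = 1
      rw [h1]
      abel

theorem fold_g {k : ℕ} (hk : 2 ≤ k) : ∃ g : ℕ → Fin 5, g 0 = 0 ∧ g 1 = 1 ∧ g 0 = g (2 * k) + 1 ∧
    ∀ v, v < 2 * k → g (v + 1) = g v + 1 ∨ g v = g (v + 1) + 1 := by
  refine ⟨fun v => if v = 0 then 0 else if v = 1 then 1 else if v = 2 * k then 4 else
    if v % 2 = 0 then 2 else 3, by simp, by simp, ?_, ?_⟩
  · have h1 : 2 * k ≠ 0 := by omega
    have h2 : 2 * k ≠ 1 := by omega
    simp only [if_neg h1, if_neg h2, if_true]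
    decide
  · intro v hv
    by_cases h0 : v = 0
    · left
      subst h0
      simp
    by_cases h1 : v = 1
    · left
      subst h1
      have h2 : ¬ (1 = 2 * k) := by omega
      by_cases h3 : 1 + 1 = 2 * k
      · omega
      · simp only [if_neg h2, if_neg h3]
        decide
    have h2 : v ≠ 2 * k := by omega
    have h3 : v + 1 ≠ 0 := by omega
    have h4 : v + 1 ≠ 1 := by omega
    simp only [if_neg h0, if_neg h1, if_neg h2, if_neg h3, if_neg h4]
    by_cases h5 : v + 1 = 2 * k
    · have h6 : ¬ v % 2 = 0 := by omega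
      simp only [if_pos h5, if_neg h6]
      left
      decide
    · simp only [if_neg h5]
      by_cases h6 : v % 2 = 0
      · have h7 : ¬ (v + 1) % 2 = 0 := by omega
        simp only [if_pos h6, if_neg h7]
        left
        decide
      · have h7 : (v + 1) % 2 = 0 := by omega
        simp only [if_neg h6, if_pos h7]
        right
        decide

theorem fold5 {W : Type*} {F : SimpleGraph W} {k : ℕ} (hk : 2 ≤ k) {c : W → Fin (2 * k + 1)}
    (hc : Col F (2 * k) c) {w0 w1 : W} (h : F.Adj w0 w1) :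
    ∃ c' : W → Fin 5, Col F 4 c' ∧ c' w0 = 0 ∧ c' w1 = 1 := by
  obtain ⟨d, hd, hd0, hd1⟩ := fold_norm hc h
  obtain ⟨g, g0, g1, g2, g3⟩ := fold_g hk
  have key : ∀ x y : Fin (2 * k + 1), y = x + 1 →
      g y.val = g x.val + 1 ∨ g x.val = g y.val + 1 := by
    intro x y hxy
    by_cases hx : x = Fin.last (2 * k)
    · have h1 : y.val = 0 := by
        rw [hxy, hx, Fin.last_add_one]
        rfl
      have h2 : x.val = 2 * k := by
        rw [hx]
        rfl
      left
      rw [h1, h2]
      exact g2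
    · have h1 : y.val = x.val + 1 := by
        rw [hxy, Fin.val_add_one, if_neg hx]
      have h2 : x.val < 2 * k := by
        have h3 : x.val ≠ 2 * k := fun h3 => hx (Fin.ext h3)
        have h4 := x.isLt
        omega
      rw [h1]
      exact g3 _ h2
  refine ⟨fun w => g (d w).val, ?_, ?_, ?_⟩
  · intro i j hij
    rcases hd i j hij with h1 | h1
    · exact key _ _ h1
    · exact (key _ _ h1).symm
  · show g (d w0).val = 0
    rw [hd0]
    exact g0
  · show g (d w1).val = 1
    rw [hd1]
    have h1 : ((1 : Fin (2 * k + 1))).val = 1 := by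
      rw [Fin.val_one']
      exact Nat.mod_eq_of_lt (by omega)
    rw [h1]
    exact g1

theorem fold3 {W : Type*} {F : SimpleGraph W} {c : W → Fin 3}
    (hc : Col F 2 c) {w0 w1 : W} (h : F.Adj w0 w1) :
    ∃ c' : W → Fin 3, Col F 2 c' ∧ c' w0 = 0 ∧ c' w1 = 1 :=
  fold_norm hc h

end Pool.OCG
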