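import Pool.Agent.OCY.HomThm
import Pool.Agent.OCG.Defs

/-! The hom theorem with slack, including `T = 2` (triangles). -/

open Finset
open scoped Classical

namespace Pool.OCG
open Pool.OCY

variable {V : Type*} [Fintype V] {G : SimpleGraph V}

lemma th_ge (x y : ℝ) : (|x| + |y|) / 4 ≤ Pool.FNW.th x y := by
  have h1 := Pool.FNW.th1 x y
  have h2 := Pool.FNW.th2 x y
  have h3 := Pool.FNW.th3 x y
  rcases le_total 0 x with hx | hx <;> rcases le_total 0 y with hy | hy
  · rw [abs_of_nonneg hx, abs_of_nonneg hy]; linarith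
  · rw [abs_of_nonneg hx, abs_of_nonpos hy]; linarith
  · rw [abs_of_nonpos hx, abs_of_nonneg hy]; linarith
  · rw [abs_of_nonpos hx, abs_of_nonpos hy]; linarith

/-- the double counting for triangles -/
theorem count2 {κ : ℝ}
    (hG : ∀ v, κ * Fintype.card V ≤ G.degree v)
    {r : V → V → ℝ}
    (ht : ∀ a b c, G.Adj a b → G.Adj a c → G.Adj b c → r a b + r a c + r b c ≤ 0)
    {h : V → ℝ} (hc : ∀ a b, G.Adj a b → r a b ≤ h a + h b)
    {y : V → V → ℝ} (y0 : ∀ a b, 0 ≤ y a b) (ys : ∀ a b, y a b = y b a)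
    (yt : ∀ a b, y a b ≠ 0 → G.Adj a b ∧ r a b = h a + h b)
    (y1 : ∀ a, ∑ b, y a b = 1) :
    4 * ∑ a, ∑ b, OCY.ext G r a b ≤
      2 * ((4 * (1 - κ) - 1) * Fintype.card V * ∑ a, ∑ b, y a b * Pool.FNW.th (h a) (h b)) := by
  have hfp : ∀ a a' b c, G.Adj a a' → r a a' = h a + h a' → G.Adj b c → r b c = h b + h c →
      ext G r a b + ext G r a c + ext G r a' b + ext G r a' c
      ≤ (non G a b + non G a c + non G a' b + non G a' c - 1)
        * (Pool.FNW.th (h a) (h a') + Pool.FNW.th (h b) (h c)) := by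
    intro a a' b c h1 h2 h3 h4
    exact Pool.FNW.four_point ht hc h1 h2 h3 h4
  have hp : ∀ a a' b c, y a a' * y b c * (ext G r a b + ext G r a c + ext G r a' b + ext G r a' c)
      ≤ y a a' * y b c * ((non G a b + non G a c + non G a' b + non G a' c - 1)
        * (Pool.FNW.th (h a) (h a') + Pool.FNW.th (h b) (h c))) := by
    intro a a' b c
    by_cases h1 : y a a' = 0
    · rw [h1]; simp
    by_cases h2 : y b c = 0
    · rw [h2]; simp
    exact mul_le_mul_of_nonneg_left
      (hfp a a' b c (yt _ _ h1).1 (yt _ _ h1).2 (yt _ _ h2).1 (yt _ _ h2).2)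
      (mul_nonneg (y0 _ _) (y0 _ _))
  have y1' : ∀ b, ∑ a, y a b = 1 := by
    intro b
    rw [← y1 b]
    exact Finset.sum_congr rfl fun a _ => ys a b
  have col : ∀ F : V → V → ℝ, ∑ a, ∑ a', ∑ b, ∑ c, y a a' * y b c * F a b = ∑ a, ∑ b, F a b := by
    intro F
    refine Finset.sum_congr rfl fun a _ => ?_
    have : ∀ a', ∑ b, ∑ c, y a a' * y b c * F a b = y a a' * ∑ b, F a b := by
      intro a'
      rw [Finset.mul_sum]
      refine Finset.sum_congr rfl fun b _ => ?_
      rw [← Finset.sum_mul, ← Finset.mul_sum, y1 b, mul_one]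
    simp only [this]
    rw [← Finset.sum_mul, y1 a, one_mul]
  have sw1 : ∀ F : V → V → V → V → ℝ, ∑ a, ∑ a', ∑ b, ∑ c, F a a' b c
      = ∑ a, ∑ a', ∑ b, ∑ c, F a' a b c := by
    intro F; rw [Finset.sum_comm]
  have sw2 : ∀ F : V → V → V → V → ℝ, ∑ a, ∑ a', ∑ b, ∑ c, F a a' b c
      = ∑ a, ∑ a', ∑ b, ∑ c, F a a' c b := by
    intro F
    refine Finset.sum_congr rfl fun a _ => Finset.sum_congr rfl fun a' _ => ?_
    rw [Finset.sum_comm]
  have sw3 : ∀ F : V → V → V → V → ℝ, ∑ a, ∑ a', ∑ b, ∑ c, F a a' b c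
      = ∑ b, ∑ c, ∑ a, ∑ a', F a a' b c := by
    intro F
    calc ∑ a, ∑ a', ∑ b, ∑ c, F a a' b c
        = ∑ a, ∑ b, ∑ a', ∑ c, F a a' b c :=
            Finset.sum_congr rfl fun a _ => Finset.sum_comm
      _ = ∑ b, ∑ a, ∑ a', ∑ c, F a a' b c :=
            Finset.sum_comm
      _ = ∑ b, ∑ a, ∑ c, ∑ a', F a a' b c :=
            Finset.sum_congr rfl fun b _ => Finset.sum_congr rfl fun a _ => Finset.sum_comm
      _ = ∑ b, ∑ c, ∑ a, ∑ a', F a a' b c :=
            Finset.sum_congr rfl fun b _ => Finset.sum_comm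
  have col2 : ∀ F : V → V → ℝ, ∑ a, ∑ a', ∑ b, ∑ c, y a a' * y b c * F a c = ∑ a, ∑ b, F a b := by
    intro F
    rw [sw2, ← col F]
    refine Finset.sum_congr rfl fun a _ => Finset.sum_congr rfl fun a' _ =>
      Finset.sum_congr rfl fun b _ => Finset.sum_congr rfl fun c _ => ?_
    rw [ys c b]
  have col3 : ∀ F : V → V → ℝ, ∑ a, ∑ a', ∑ b, ∑ c, y a a' * y b c * F a' b = ∑ a, ∑ b, F a b := by
    intro F
    rw [sw1, ← col F]
    refine Finset.sum_congr rfl fun a _ => Finset.sum_congr rfl fun a' _ =>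
      Finset.sum_congr rfl fun b _ => Finset.sum_congr rfl fun c _ => ?_
    rw [ys a' a]
  have col4 : ∀ F : V → V → ℝ, ∑ a, ∑ a', ∑ b, ∑ c, y a a' * y b c * F a' c = ∑ a, ∑ b, F a b := by
    intro F
    rw [sw1, ← col2 F]
    refine Finset.sum_congr rfl fun a _ => Finset.sum_congr rfl fun a' _ =>
      Finset.sum_congr rfl fun b _ => Finset.sum_congr rfl fun c _ => ?_
    rw [ys a' a]
  have hL : ∑ a, ∑ a', ∑ b, ∑ c, y a a' * y b c *
      (OCY.ext G r a b + OCY.ext G r a c + OCY.ext G r a' b + OCY.ext G r a' c) = 4 * ∑ a, ∑ b, OCY.ext G r a b := by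
    simp only [mul_add, Finset.sum_add_distrib]
    rw [col, col2, col3, col4]; ring
  have hnon : ∀ a, ∑ b, non G a b = Fintype.card V - G.degree a := by
    intro a
    have h1 : (G.degree a : ℝ) = ∑ b, if G.Adj a b then (1 : ℝ) else 0 := by
      rw [Finset.sum_boole, SimpleGraph.degree, SimpleGraph.neighborFinset_eq_filter]
    have h2 : (Fintype.card V : ℝ) = ∑ _b : V, (1 : ℝ) := by simp
    rw [h1, h2, ← Finset.sum_sub_distrib]
    refine Finset.sum_congr rfl fun b _ => ?_
    unfold non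
    split_ifs <;> ring
  have nons : ∀ a b, non G a b = non G b a := by
    intro a b; unfold non; simp only [G.adj_comm a b]
  set n : ℝ := (Fintype.card V : ℝ) with hn
  set M : ℝ := 4 * (1 - κ) - 1 with hM
  have inner : ∀ a a', ∑ b, ∑ c, y b c *
      (non G a b + non G a c + non G a' b + non G a' c - 1) ≤ M * n := by
    intro a a'
    have k1 : ∀ f : V → ℝ, ∑ b, ∑ c, y b c * f b = ∑ b, f b := by
      intro f
      refine Finset.sum_congr rfl fun b _ => ?_
      rw [← Finset.sum_mul, y1 b, one_mul]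
    have k2 : ∀ f : V → ℝ, ∑ b, ∑ c, y b c * f c = ∑ b, f b := by
      intro f
      rw [Finset.sum_comm]
      refine Finset.sum_congr rfl fun b _ => ?_
      rw [← Finset.sum_mul, y1' b, one_mul]
    have k3 : ∑ b, ∑ c, y b c * (1 : ℝ) = n := by
      rw [k1 fun _ => (1 : ℝ)]; simp [hn]
    simp only [mul_add, mul_sub, Finset.sum_add_distrib, Finset.sum_sub_distrib]
    rw [k1, k2, k1, k2, k3, hnon, hnon]
    have := hG a; have := hG a'
    rw [hM]
    linarith
  set S : ℝ := ∑ a, ∑ b, y a b * Pool.FNW.th (h a) (h b) with hS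
  have hR1 : ∑ a, ∑ a', ∑ b, ∑ c, y a a' * y b c *
      ((non G a b + non G a c + non G a' b + non G a' c - 1) * Pool.FNW.th (h a) (h a'))
      ≤ M * n * S := by
    have e : ∀ a a', ∑ b, ∑ c, y a a' * y b c *
      ((non G a b + non G a c + non G a' b + non G a' c - 1) * Pool.FNW.th (h a) (h a'))
      = (y a a' * Pool.FNW.th (h a) (h a')) * ∑ b, ∑ c, y b c *
        (non G a b + non G a c + non G a' b + non G a' c - 1) := by
      intro a a'
      rw [Finset.mul_sum]
      refine Finset.sum_congr rfl fun b _ => ?_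
      rw [Finset.mul_sum]
      refine Finset.sum_congr rfl fun c _ => ?_
      ring
    simp only [e]
    rw [hS, Finset.mul_sum]
    refine Finset.sum_le_sum fun a _ => ?_
    rw [Finset.mul_sum]
    refine Finset.sum_le_sum fun a' _ => ?_
    have := mul_le_mul_of_nonneg_left (inner a a')
      (mul_nonneg (y0 a a') (Pool.FNW.th_nonneg (h a) (h a')))
    linarith
  have hR2 : ∑ a, ∑ a', ∑ b, ∑ c, y a a' * y b c *
      ((non G a b + non G a c + non G a' b + non G a' c - 1) * Pool.FNW.th (h b) (h c))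
      ≤ M * n * S := by
    refine le_trans (le_of_eq ?_) hR1
    rw [sw3]
    refine Finset.sum_congr rfl fun a _ => Finset.sum_congr rfl fun a' _ =>
      Finset.sum_congr rfl fun b _ => Finset.sum_congr rfl fun c _ => ?_
    rw [nons b a, nons b a', nons c a, nons c a']; ring
  have htot := Finset.sum_le_sum (s := Finset.univ) fun a _ =>
    Finset.sum_le_sum (s := Finset.univ) fun a' _ => Finset.sum_le_sum (s := Finset.univ)
      fun b _ => Finset.sum_le_sum (s := Finset.univ) fun c _ => hp a a' b c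
  have hsplit : ∑ a, ∑ a', ∑ b, ∑ c, y a a' * y b c *
      ((non G a b + non G a c + non G a' b + non G a' c - 1)
        * (Pool.FNW.th (h a) (h a') + Pool.FNW.th (h b) (h c)))
      = ∑ a, ∑ a', ∑ b, ∑ c, y a a' * y b c *
      ((non G a b + non G a c + non G a' b + non G a' c - 1) * Pool.FNW.th (h a) (h a'))
      + ∑ a, ∑ a', ∑ b, ∑ c, y a a' * y b c *
      ((non G a b + non G a c + non G a' b + non G a' c - 1) * Pool.FNW.th (h b) (h c)) := by
    simp only [← Finset.sum_add_distrib]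
    refine Finset.sum_congr rfl fun a _ => Finset.sum_congr rfl fun a' _ =>
      Finset.sum_congr rfl fun b _ => Finset.sum_congr rfl fun c _ => ?_
    ring
  rw [hL, hsplit] at htot
  linarith

/-- from the bound in terms of the potentials to the bound in terms of the total weight -/
theorem tot_bound {T ε : ℝ} (hT : 2 ≤ T) (hε : 0 < ε) (hε1 : ε ≤ 1) {r : V → V → ℝ} {h : V → ℝ}
    (hp : ∀ a b, G.Adj a b → r a b ≤ h a + h b)
    (hEH : T * ∑ a, ∑ b, OCY.ext G r a b ≤ -(ε * Fintype.card V * ∑ a, |h a|)) :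
    ∑ a, ∑ b, OCY.ext G r a b ≤ -(ε / (8 * T)) * tot G r := by
  have hT0 : 0 < T := by linarith
  set n : ℝ := (Fintype.card V : ℝ) with hn
  have hn0 : 0 ≤ n := by rw [hn]; positivity
  set H : ℝ := ∑ a, |h a| with hH
  have hH0 : 0 ≤ H := Finset.sum_nonneg fun a _ => abs_nonneg _
  set E : ℝ := ∑ a, ∑ b, OCY.ext G r a b with hE
  have htot : tot G r ≤ 4 * n * H - E := by
    have k : ∀ a b, |ext G r a b| ≤ 2 * (|h a| + |h b|) - ext G r a b := by
      intro a b
      have h1 : 0 ≤ |h a| := abs_nonneg _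
      have h2 : 0 ≤ |h b| := abs_nonneg _
      have h3 : h a ≤ |h a| := le_abs_self _
      have h4 : h b ≤ |h b| := le_abs_self _
      unfold Pool.OCY.ext
      split_ifs with hab
      · have h5 := hp a b hab
        rcases abs_cases (r a b) with ⟨e, _⟩ | ⟨e, _⟩ <;> rw [e] <;> linarith
      · simp; positivity
    have k1 : ∑ a, ∑ b, (2 * (|h a| + |h b|) - ext G r a b) = 4 * n * H - E := by
      have e : ∀ a b : V, 2 * (|h a| + |h b|) - ext G r a b = 2 * |h a| + 2 * |h b| - ext G r a b := by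
        intro a b; ring
      simp only [e, Finset.sum_sub_distrib, Finset.sum_add_distrib, Finset.sum_const,
        Finset.card_univ, nsmul_eq_mul, ← Finset.mul_sum]
      rw [← hn, ← hH, ← hE]
      ring
    unfold tot
    rw [← k1]
    exact Finset.sum_le_sum fun a _ => Finset.sum_le_sum fun b _ => k a b
  have hE0 : E ≤ 0 := by
    have : 0 ≤ ε * n * H := by positivity
    by_contra hcon
    push Not at hcon
    have := mul_pos hT0 hcon
    linarith
  have hfin : 8 * T * E ≤ -(ε * tot G r) := by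
    have h1 := mul_le_mul_of_nonneg_left htot hε.le
    have h2 : 0 ≤ (4 * T - ε) * (-E) := mul_nonneg (by linarith) (by linarith)
    linarith
  have hfin2 : (8 * T) * E ≤ (8 * T) * (-(ε / (8 * T)) * tot G r) := by
    have : (8 * T) * (-(ε / (8 * T)) * tot G r) = -(ε * tot G r) := by field_simp
    rw [this]; exact hfin
  exact le_of_mul_le_mul_left hfin2 (by positivity)

theorem hom_two {ε : ℝ} (hε : 0 < ε) (hε1 : ε ≤ 1)
    (hG : ∀ v, (3 / 4 + ε) * Fintype.card V ≤ G.degree v)
    {r : V → V → ℝ} (hs : ∀ a b, r a b = r b a) (hr : Hom G 2 r) :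
    ∑ a, ∑ b, OCY.ext G r a b ≤ -(ε / (8 * 2)) * tot G r := by
  rcases isEmpty_or_nonempty V with hV | hV
  · simp [tot]
  have hG' : ∀ v, ((1 : ℝ) / 2 + 1 / 4) * Fintype.card V ≤ G.degree v := by
    intro v
    refine le_trans ?_ (hG v)
    have : (0 : ℝ) ≤ ε * Fintype.card V := by positivity
    linarith
  have ht : ∀ a b c, G.Adj a b → G.Adj a c → G.Adj b c → r a b + r a c + r b c ≤ 0 := by
    intro a b c h1 h2 h3
    have := hr a b c b h1 h2 h3 h1
    linarith
  obtain ⟨h, hp, hmin⟩ := exists_pot (by norm_num : (0 : ℝ) < 1 / 4) hG' r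
  obtain ⟨y, y0, ys, yt, y1⟩ := Pool.FNW.exists_mat hs hp hmin
  have hc := count2 hG ht hp y0 ys yt y1
  have y1' : ∀ b, ∑ a, y a b = 1 := by
    intro b
    rw [← y1 b]
    exact Finset.sum_congr rfl fun a _ => ys a b
  refine tot_bound (by norm_num) hε hε1 hp ?_
  set n : ℝ := (Fintype.card V : ℝ) with hn
  have hn0 : 0 ≤ n := by rw [hn]; positivity
  set S : ℝ := ∑ a, ∑ b, y a b * Pool.FNW.th (h a) (h b) with hS
  set H : ℝ := ∑ a, |h a| with hH
  have hH0 : 0 ≤ H := Finset.sum_nonneg fun a _ => abs_nonneg _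
  have hS2 : H / 2 ≤ S := by
    have e2 : ∑ a, ∑ b, y a b * ((|h a| + |h b|) / 4) = H / 2 := by
      have k1 : ∀ f : V → ℝ, ∑ b, ∑ c, y b c * f b = ∑ b, f b := by
        intro f
        refine Finset.sum_congr rfl fun b _ => ?_
        rw [← Finset.sum_mul, y1 b, one_mul]
      have k2 : ∀ f : V → ℝ, ∑ b, ∑ c, y b c * f c = ∑ b, f b := by
        intro f
        rw [Finset.sum_comm]
        refine Finset.sum_congr rfl fun b _ => ?_
        rw [← Finset.sum_mul, y1' b, one_mul]
      have e : ∀ a b, y a b * ((|h a| + |h b|) / 4)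
          = y a b * (|h a| / 4) + y a b * (|h b| / 4) := by
        intro a b; ring
      simp only [e, Finset.sum_add_distrib]
      rw [k1 fun a => |h a| / 4, k2 fun a => |h a| / 4, ← Finset.sum_div, ← hH]
      ring
    rw [← e2, hS]
    exact Finset.sum_le_sum fun a _ => Finset.sum_le_sum fun b _ =>
        mul_le_mul_of_nonneg_left (th_ge _ _) (y0 _ _)
  have e2 := mul_le_mul_of_nonneg_left hS2 (by positivity : (0 : ℝ) ≤ ε * n)
  have e1 : (4 * (1 - (3 / 4 + ε)) - 1) = -(4 * ε) := by ring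
  rw [e1] at hc
  have e3 : 0 ≤ ε * n * H := by positivity
  linarith

/-- the hom theorem for `T = 2` and `T ≥ 3` -/
theorem hom_thm {T ε : ℝ} (hT : T = 2 ∨ 3 ≤ T) (hε : 0 < ε) (hε1 : ε ≤ 1)
    (hG : ∀ v, (1 / 2 + 1 / (2 * T) + ε) * Fintype.card V ≤ G.degree v)
    {r : V → V → ℝ} (hs : ∀ a b, r a b = r b a) (hr : Hom G T r) :
    ∑ a, ∑ b, OCY.ext G r a b ≤ -(ε / (8 * T)) * tot G r := by
  rcases hT with rfl | hT
  · refine hom_two hε hε1 ?_ hs hr
    intro v
    have := hG v
    norm_num at this ⊢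
    exact this
  · exact Pool.OCY.hom_thm hT hε hε1 hG hs hr

end Pool.OCG
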