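import Mathlib

/-!
MODULE HubL (difficulty 3).  A rearrangement inequality on one vertex.

RECIPE.  First `top_subset` (induction on `q`, `Finset.exists_max_image`).
`n` is a positive real (`η ≤ 1/2`, `8 ≤ η n`, so `n ≥ 16`), `q = ⌈n/4⌉₊ ≤ n/4 + 1 ≤ n/2`, `q₀ = ⌈α n⌉₊ ≤ q` (`α ≤ 1/8`),
`q₀ ≤ α n + 1`, `y = ⌊β n⌋₊` (`β n - 1 ≤ y ≤ β n`), `|N| ≥ (1/2 + η) n ≥ 2 q + y` (as `β ≤ η/2` and `η n / 2 ≥ 2`... use `8 ≤ η n`).
`Z` = the top `q` elements of `N` (`f z ≥ f x` for `z ∈ Z`, `x ∈ N \ Z`), `Z₀` = the top `q₀` elements of `Z`, `Y` = the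
bottom `y` elements of `N \ Z` (top for `-f`), nonempty since `1 ≤ β n`.  Let `μ = min_Z f`, `ν = max_Y f`
(`Finset.exists_min_image`, `exists_max_image`; all the sets are nonempty).  Then `f ≤ μ` on `N \ Z`, `f ≥ ν` on `N \ Y`
(elements of `N \ Z \ Y` by the choice of `Y`, elements of `Z` since `f ≥ μ ≥ ν` there), `f ≤ ν` on `Y`.
(A) with `U = U' = Z` (`|Z| = q ≥ n/4 ≥ α n`): `2 μ ≤ D`.
(A) with `U = Z₀`, `U' = Z`, `m = min_{Z₀} f`: `min_{Z₀} f ≤ D - μ`, so `f ≤ D - μ` on `Z \ Z₀`.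
`M := max 0 (-ν)`; `-M ≤ f` on `N \ Y`.  The sum over `N \ Z₀` splits into `Z \ Z₀` (`q - q₀` elements, `f ≤ D - μ`), the middle
`N \ Z \ Y` (`|N| - q - y ≥ q` elements, `f ≤ μ`), and `Y` (`y` elements, `f ≤ ν`).
* `μ ≤ 0`: `(q - q₀)(D - μ) + (|N| - q - y) μ ≤ q D` (as `(q-q₀) (-μ) ≤ (|N|-q-y) (-μ)`), and `ν ≤ μ ≤ 0`, `M = -ν`, so
  `y ν = - y M ≤ -(β n - 1) M`; total `≤ q D - (β n - 1) M ≤ 2 n D - (β n - 1) M`.
* `μ > 0` (`≤ D/2`): `(q - q₀)(D - μ) ≤ q D`, `(|N|-q-y) μ ≤ n D / 2`, and `y ν ≤ n D / 2` with `M = 0` if `ν ≥ 0`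
  (`ν ≤ μ ≤ D/2`), `y ν ≤ -(β n - 1) M` if `ν < 0`.  Total `≤ 2 n D - (β n - 1) M`.
-/

open Finset
open scoped Classical

namespace Pool.OCG

theorem top_subset {V : Type*} (N : Finset V) (f : V → ℝ) {q : ℕ} (hq : q ≤ N.card) :
    ∃ Z ⊆ N, Z.card = q ∧ ∀ z ∈ Z, ∀ x ∈ N \ Z, f x ≤ f z := by
  induction q with
  | zero => exact ⟨∅, Finset.empty_subset _, Finset.card_empty, fun z hz => absurd hz (Finset.notMem_empty z)⟩
  | succ q ih =>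
    obtain ⟨Z, hZ, hc, hm⟩ := ih (by omega)
    have hne : (N \ Z).Nonempty := by
      rw [← Finset.card_pos, Finset.card_sdiff_of_subset hZ]
      omega
    obtain ⟨x, hx, hxm⟩ := Finset.exists_max_image (N \ Z) f hne
    rw [Finset.mem_sdiff] at hx
    refine ⟨insert x Z, ?_, ?_, ?_⟩
    · exact Finset.insert_subset hx.1 hZ
    · rw [Finset.card_insert_of_notMem hx.2, hc]
    · intro z hz y hy
      rw [Finset.mem_sdiff, Finset.mem_insert, not_or] at hy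
      have hy2 : y ∈ N \ Z := Finset.mem_sdiff.mpr ⟨hy.1, hy.2.2⟩
      rw [Finset.mem_insert] at hz
      rcases hz with hz | hz
      · rw [hz]
        exact hxm y hy2
      · exact hm z hz y hy2

theorem hub_lemma {V : Type*} (N : Finset V) (f : V → ℝ) {n α β η D : ℝ} (hα : 0 < α)
    (hα1 : α ≤ 1 / 8) (hβ : 0 < β) (hβ1 : β ≤ η / 2) (hη : η ≤ 1 / 2) (hn : 8 ≤ η * n)
    (hn1 : 1 ≤ β * n) (hN1 : (N.card : ℝ) ≤ n) (hN : (1 / 2 + η) * n ≤ N.card) (hD : 0 ≤ D)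
    (hA : ∀ U ⊆ N, ∀ U' ⊆ N, α * n ≤ U.card → n / 4 ≤ U'.card → ∀ m m' : ℝ,
      (∀ x ∈ U, m ≤ f x) → (∀ x ∈ U', m' ≤ f x) → m + m' ≤ D) :
    ∃ M : ℝ, 0 ≤ M ∧ ∃ Y ⊆ N, (Y.card : ℝ) ≤ β * n ∧ (∀ x ∈ N \ Y, -M ≤ f x) ∧
      ∃ Z ⊆ N, (Z.card : ℝ) ≤ α * n + 1 ∧
        ∑ x ∈ N \ Z, f x ≤ 2 * n * D - (β * n - 1) * M := by
  have hη0 : 0 < η := by linarith
  have hn0 : 0 < n := by
    by_contra h
    push Not at h
    nlinarith
  have hn16 : 16 ≤ n := by nlinarith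
  obtain ⟨q, hq⟩ : ∃ q : ℕ, q = ⌈n / 4⌉₊ := ⟨_, rfl⟩
  obtain ⟨q₀, hq₀⟩ : ∃ q₀ : ℕ, q₀ = ⌈α * n⌉₊ := ⟨_, rfl⟩
  obtain ⟨y, hy⟩ : ∃ y : ℕ, y = ⌊β * n⌋₊ := ⟨_, rfl⟩
  have hq1 : n / 4 ≤ (q : ℝ) := by rw [hq]; exact Nat.le_ceil _
  have hq2 : (q : ℝ) ≤ n / 4 + 1 := by
    rw [hq]
    exact (Nat.ceil_lt_add_one (by positivity)).le
  have hq3 : α * n ≤ (q₀ : ℝ) := by rw [hq₀]; exact Nat.le_ceil _
  have hq4 : (q₀ : ℝ) ≤ α * n + 1 := by
    rw [hq₀]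
    exact (Nat.ceil_lt_add_one (by positivity)).le
  have hqq : q₀ ≤ q := by
    rw [hq, hq₀]
    apply Nat.ceil_mono
    nlinarith
  have hy1 : (y : ℝ) ≤ β * n := by
    rw [hy]
    exact Nat.floor_le (by positivity)
  have hy2 : β * n - 1 ≤ (y : ℝ) := by
    rw [hy]
    have := Nat.lt_floor_add_one (β * n)
    linarith
  have hy3 : 1 ≤ y := by
    rw [hy]
    exact Nat.le_floor (by exact_mod_cast hn1)
  have hq₀0 : 0 < q₀ := by
    have h1 : (0 : ℝ) < q₀ := lt_of_lt_of_le (by positivity) hq3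
    exact_mod_cast h1
  have hq0 : 0 < q := lt_of_lt_of_le hq₀0 hqq
  have hβn : β * n ≤ η / 2 * n := mul_le_mul_of_nonneg_right hβ1 hn0.le
  have hNc : 2 * q + y ≤ N.card := by
    have h1 : ((2 * q + y : ℕ) : ℝ) ≤ N.card := by
      push_cast
      nlinarith
    exact_mod_cast h1
  obtain ⟨Z, hZN, hZc, hZm⟩ := top_subset N f (q := q) (by omega)
  obtain ⟨Z₀, hZ₀Z, hZ₀c, hZ₀m⟩ := top_subset Z f (q := q₀) (by omega)
  have hNZc : (N \ Z).card = N.card - q := by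
    rw [Finset.card_sdiff_of_subset hZN, hZc]
  obtain ⟨Y, hYN, hYc, hYm⟩ := top_subset (N \ Z) (fun x => -f x) (q := y) (by omega)
  have hZne : Z.Nonempty := by
    rw [← Finset.card_pos, hZc]
    exact hq0
  have hZ₀ne : Z₀.Nonempty := by
    rw [← Finset.card_pos, hZ₀c]
    exact hq₀0
  have hYne : Y.Nonempty := by
    rw [← Finset.card_pos, hYc]
    omega
  obtain ⟨z1, hz1, hz1m⟩ := Finset.exists_min_image Z f hZne
  obtain ⟨z2, hz2, hz2m⟩ := Finset.exists_min_image Z₀ f hZ₀ne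
  obtain ⟨y1, hy1', hy1m⟩ := Finset.exists_max_image Y f hYne
  have hY1N : y1 ∈ N \ Z := hYN hy1'
  have hνμ : f y1 ≤ f z1 := hZm z1 hz1 y1 hY1N
  have hA1 : f z1 + f z1 ≤ D := by
    refine hA Z hZN Z hZN ?_ ?_ (f z1) (f z1) hz1m hz1m
    · rw [hZc]
      nlinarith
    · rw [hZc]
      exact hq1
  have hA2 : f z2 + f z1 ≤ D := by
    refine hA Z₀ (hZ₀Z.trans hZN) Z hZN ?_ ?_ (f z2) (f z1) hz2m hz1m
    · rw [hZ₀c]
      exact hq3
    · rw [hZc]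
      exact hq1
  have hs1 : ∑ x ∈ Z \ Z₀, f x ≤ ((q : ℝ) - q₀) * (D - f z1) := by
    have h1 := Finset.sum_le_card_nsmul (Z \ Z₀) f (D - f z1) (fun x hx => by
      have h2 := hZ₀m z2 hz2 x hx
      linarith)
    rw [Finset.card_sdiff_of_subset hZ₀Z, hZc, hZ₀c, nsmul_eq_mul, Nat.cast_sub hqq] at h1
    exact h1
  have hs2 : ∑ x ∈ (N \ Z) \ Y, f x ≤ ((N.card : ℝ) - q - y) * f z1 := by
    have h1 := Finset.sum_le_card_nsmul ((N \ Z) \ Y) f (f z1) (fun x hx => by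
      rw [Finset.mem_sdiff] at hx
      exact hZm z1 hz1 x hx.1)
    rw [Finset.card_sdiff_of_subset hYN, hNZc, hYc, nsmul_eq_mul, Nat.cast_sub (by omega),
      Nat.cast_sub (by omega)] at h1
    exact h1
  have hs3 : ∑ x ∈ Y, f x ≤ (y : ℝ) * f y1 := by
    have h1 := Finset.sum_le_card_nsmul Y f (f y1) hy1m
    rw [hYc, nsmul_eq_mul] at h1
    exact h1
  have hsum : ∑ x ∈ N \ Z₀, f x = ∑ x ∈ Z \ Z₀, f x + ∑ x ∈ (N \ Z) \ Y, f x + ∑ x ∈ Y, f x := by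
    have h1 := Finset.sum_sdiff (f := f) (hZ₀Z.trans hZN)
    have h2 := Finset.sum_sdiff (f := f) hZN
    have h3 := Finset.sum_sdiff (f := f) hZ₀Z
    have h4 := Finset.sum_sdiff (f := f) hYN
    linarith
  refine ⟨max 0 (-f y1), le_max_left _ _, Y, hYN.trans Finset.sdiff_subset, ?_, ?_, Z₀,
    hZ₀Z.trans hZN, ?_, ?_⟩
  · rw [hYc]
    exact hy1
  · intro x hx
    rw [Finset.mem_sdiff] at hx
    have h1 : f y1 ≤ f x := by
      by_cases hxZ : x ∈ Z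
      · exact hνμ.trans (hz1m x hxZ)
      · have h2 := hYm y1 hy1' x (Finset.mem_sdiff.mpr ⟨Finset.mem_sdiff.mpr ⟨hx.1, hxZ⟩, hx.2⟩)
        simp only [neg_le_neg_iff] at h2
        exact h2
    have h2 := le_max_right 0 (-f y1)
    linarith
  · rw [hZ₀c]
    exact hq4
  · rw [hsum]
    obtain ⟨μ, hμ⟩ : ∃ μ, μ = f z1 := ⟨_, rfl⟩
    obtain ⟨ν, hν⟩ : ∃ ν, ν = f y1 := ⟨_, rfl⟩
    obtain ⟨p, hp⟩ : ∃ p : ℝ, p = q := ⟨_, rfl⟩
    obtain ⟨p₀, hp₀⟩ : ∃ p₀ : ℝ, p₀ = q₀ := ⟨_, rfl⟩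
    obtain ⟨w, hw⟩ : ∃ w : ℝ, w = y := ⟨_, rfl⟩
    obtain ⟨b, hb⟩ : ∃ b : ℝ, b = N.card := ⟨_, rfl⟩
    have hNc' : 2 * (q : ℝ) + y ≤ N.card := by exact_mod_cast hNc
    have hqq' : (q₀ : ℝ) ≤ q := by exact_mod_cast hqq
    have hq₀0' : (0 : ℝ) ≤ q₀ := Nat.cast_nonneg _
    have hβ1n : 0 ≤ β * n - 1 := by linarith
    rw [← hμ] at hs1 hs2 hνμ hA1 hA2
    rw [← hν] at hs3 hνμ ⊢
    rw [← hp] at hs1 hs2 hq1 hq2 hNc' hqq'
    rw [← hp₀] at hs1 hqq' hq₀0'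
    rw [← hw] at hs2 hs3 hy1 hy2 hNc'
    rw [← hb] at hs2 hNc' hN1
    have hM : (β * n - 1) * max 0 (-ν) + w * ν ≤ 0 ∨ (0 ≤ ν ∧ max 0 (-ν) = 0) := by
      by_cases h : 0 ≤ ν
      · right
        exact ⟨h, max_eq_left (by linarith)⟩
      · left
        push Not at h
        rw [max_eq_right (by linarith)]
        nlinarith
    have h0 : (p - p₀) * (D - μ) + (b - p - w) * μ + w * ν ≤ 2 * n * D - (β * n - 1) * max 0 (-ν) := by
      have hpn : p ≤ n / 2 := by linarith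
      by_cases hμ0 : μ ≤ 0
      · have h1 : (p - p₀) * (D - μ) + (b - p - w) * μ = (p - p₀) * D + (b - p - w - (p - p₀)) * μ := by
          ring
        have h2 : (b - p - w - (p - p₀)) * μ ≤ 0 :=
          mul_nonpos_of_nonneg_of_nonpos (by linarith) hμ0
        have h3 : (p - p₀) * D ≤ n / 2 * D := mul_le_mul_of_nonneg_right (by linarith) hD
        have h4 : 0 ≤ n * D := by positivity
        rcases hM with hM | ⟨hM1, hM2⟩
        · linarith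
        · have h5 : ν = 0 := le_antisymm (by linarith) hM1
          rw [hM2, h5]
          linarith
      · push Not at hμ0
        have h1 : (p - p₀) * (D - μ) ≤ n / 2 * D := by
          apply mul_le_mul (by linarith) (by linarith) (by linarith) (by linarith)
        have h2 : (b - p - w) * μ ≤ n * (D / 2) := by
          apply mul_le_mul (by linarith [hy1, hw, (Nat.cast_nonneg y : (0:ℝ) ≤ y)]) (by linarith) hμ0.le (by linarith)
        have h4 : 0 ≤ n * D := by positivity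
        rcases hM with hM | ⟨hM1, hM2⟩
        · linarith
        · have h5 : w * ν ≤ n * (D / 2) := by
            apply mul_le_mul _ (by linarith) hM1 (by linarith)
            nlinarith
          rw [hM2]
          linarith
    linarith

end Pool.OCG
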