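import Pool.Agent.OCG.PairB
import Pool.Agent.OCG.Core
import Pool.Agent.OCG.HubL

/-!
MODULE HubOne (difficulty 3).  The edges from one hub `a ∉ S` to `S`, for a given core `K, S'`.

RECIPE.  `N = card V`, `t = card W ≥ 2` (an edge), `δ = 1/2 + 1/(4k) + η` (`η ≤ 1/8`).  The core has degrees `≥ (δ - 2β) N`, `β ≤ η/8`,
`L = tot / (β² N²)` bounds `|r|` on `K`, `D = t² L`.  `Na = S.filter (G.Adj a)`, `N' = Na ∩ S'`, `|Na \ N'| ≤ β N`,
`|N'| ≥ (δ - β) N ≥ (1/2 + η/2) N`.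
`hub_lemma` for `N'`, `f = r a`, `n := N`, `α := β`, `β := η/8`, `η := η/2` (needs `η/8 ≤ (η/2)/2`, `8 ≤ (η/2) N`, `1 ≤ (η/8) N`);
hypothesis (A) is `vert_bound` (with `η/2`, `α := β`).  It gives `M, Y, Z`.
`U := N' \ Y ⊆ S'`: `|U| ≥ (δ - β - η/8) N ≥ (1/2 + 1/(4k) + η/2) N`, `G.Adj a x`, `-M ≤ r a x` on `U`.
For every `x ∈ Na` (so `x ∈ S`): `uset` gives `U_x ⊆ S'`, `|U_x| ≥ (δ - 2β) N`, with `M_x = rho H r x / (β N)`; `pair_bound` (with
`η/2`) for `a, x`: `r a x ≤ t (M + M_x) + D`.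
Sum: `∑_{x ∈ Na} r a x = ∑_{N' \ Z} + ∑_{Z ∪ (Na \ N')} ≤ 2 N D - ((η/8) N - 1) M + (β N + 1 + β N)(t M + D) + (t/(β N)) tot`
(`∑_x rho H r x = tot`, all terms `≥ 0`).  Since `β ≤ η/(64 t)` and `N ≥ 32 (1 + t)/η`, the coefficient of `M` is
`≤ -(η/16) N` (`t (2 β N + 1) ≤ (η/32) N + t`, `1 + t ≤ (η/32) N`).  The rest is `≤ (2 N + 3 N) t² tot/(β² N²) + (t/β) tot/N`
`≤ C tot / N` with `C = 5 t²/β² + t/β` (`2 β N + 1 ≤ 3 N`).
-/

open Finset
open scoped Classical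

namespace Pool.OCG
open Pool.OCY

theorem hub_one {W : Type} [Fintype W] {F : SimpleGraph W} (hF : F ≠ ⊥) {k : ℕ} (hk : 1 ≤ k)
    {c : W → Fin (2 * k + 1)} (hc : Col F (2 * k) c) {η β : ℝ} (hη : 0 < η) (hη1 : η ≤ 1 / 8)
    (hβ : 0 < β) (hβ1 : β ≤ η / (64 * Fintype.card W)) :
    ∃ C : ℝ, 0 < C ∧ ∃ n₀ : ℕ, ∀ (V : Type) [Fintype V], n₀ ≤ Fintype.card V →
      ∀ (G H K : SimpleGraph V) (S S' : Finset V), H ≤ G → K ≤ H → S' ⊆ S →
      (∀ a b, H.Adj a b → a ∈ S ∧ b ∈ S) → (∀ a b, K.Adj a b → a ∈ S' ∧ b ∈ S') →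
      (((S \ S').card : ℝ) ≤ β * Fintype.card V) →
      (∀ v ∈ S, (1 / 2 + 1 / (4 * k) + η) * Fintype.card V ≤ H.degree v) →
      (∀ v ∈ S', (1 / 2 + 1 / (4 * k) + η - 2 * β) * Fintype.card V ≤ K.degree v) →
      ∀ r : V → V → ℝ, (∀ a b, r a b = r b a) → CopNonpos F G r →
      (∀ a b, K.Adj a b → |r a b| ≤ tot H r / (β ^ 2 * (Fintype.card V : ℝ) ^ 2)) →
      ∀ a ∉ S, (1 / 2 + 1 / (4 * k) + η) * Fintype.card V ≤ ((S.filter fun x => G.Adj a x).card : ℝ) →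
      ∃ M : ℝ, 0 ≤ M ∧ ∃ U ⊆ S', (1 / 2 + 1 / (4 * k) + η / 2) * Fintype.card V ≤ (U.card : ℝ) ∧
        (∀ x ∈ U, G.Adj a x ∧ -M ≤ r a x) ∧
        ∑ x ∈ S, OCY.ext G r a x ≤ C * tot H r / Fintype.card V - η / 16 * Fintype.card V * M := by
  obtain ⟨t, ht⟩ : ∃ t : ℝ, t = Fintype.card W := ⟨_, rfl⟩
  rw [← ht] at hβ1
  have hW : Nonempty W := by
    by_contra h
    rw [not_nonempty_iff] at h
    apply hF
    ext i
    exact h.elim i
  have ht1 : 1 ≤ t := by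
    rw [ht]
    have : 1 ≤ Fintype.card W := Fintype.card_pos
    exact_mod_cast this
  have ht0 : 0 < t := by linarith
  have htβ : t * β ≤ η / 64 := by
    rw [le_div_iff₀ (by positivity)] at hβ1
    linarith
  have hββ : β ≤ η / 64 := by nlinarith
  have hkp : (0 : ℝ) < 1 / (4 * (k : ℝ)) := by
    have : (1 : ℝ) ≤ k := by exact_mod_cast hk
    positivity
  obtain ⟨δ, hδ⟩ : ∃ δ : ℝ, δ = 1 / 2 + 1 / (4 * (k : ℝ)) := ⟨_, rfl⟩
  obtain ⟨n1, hn1⟩ := pair_bound hF hk hc (η := η / 2) (by positivity)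
  obtain ⟨n2, hn2⟩ := vert_bound hF hk hc (η := η / 2) (α := β) (by positivity) hβ
  refine ⟨5 * t ^ 2 / β ^ 2 + t / β, by positivity, max (max n1 n2) ⌈32 * (1 + t) / η⌉₊, ?_⟩
  intro V _ hV G H K S S' hHG hKH hSS hHS hKS hcS hdH hdK r hr hcop hL a ha hda
  obtain ⟨N, hN⟩ : ∃ N : ℝ, N = Fintype.card V := ⟨_, rfl⟩
  have hV1 : n1 ≤ Fintype.card V := le_trans (le_trans (le_max_left _ _) (le_max_left _ _)) hV
  have hV2 : n2 ≤ Fintype.card V := le_trans (le_trans (le_max_right _ _) (le_max_left _ _)) hV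
  have hV3 : 32 * (1 + t) ≤ η * N := by
    have h1 : ⌈32 * (1 + t) / η⌉₊ ≤ Fintype.card V := le_trans (le_max_right _ _) hV
    have h2 : 32 * (1 + t) / η ≤ N := by
      rw [hN]
      exact (Nat.le_ceil _).trans (by exact_mod_cast h1)
    rw [div_le_iff₀ hη] at h2
    linarith
  have hN0 : 0 < N := by
    by_contra h
    push Not at h
    nlinarith
  have hN64 : 64 ≤ N := by nlinarith
  obtain ⟨L, hLd⟩ : ∃ L : ℝ, L = tot H r / (β ^ 2 * (Fintype.card V : ℝ) ^ 2) := ⟨_, rfl⟩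
  have htot : 0 ≤ tot H r := Finset.sum_nonneg fun _ _ => Finset.sum_nonneg fun _ _ => abs_nonneg _
  have hL0 : 0 ≤ L := by rw [hLd]; positivity
  rw [← hLd] at hL
  have hKG : K ≤ G := hKH.trans hHG
  have hdK' : ∀ v ∈ S', (1 / 2 + 1 / (4 * (k : ℝ)) + η / 2) * Fintype.card V ≤ K.degree v := by
    intro v hv
    refine le_trans ?_ (hdK v hv)
    rw [← hN]
    apply mul_le_mul_of_nonneg_right _ hN0.le
    linarith
  obtain ⟨Na, hNa⟩ : ∃ Na : Finset V, Na = S.filter fun x => G.Adj a x := ⟨_, rfl⟩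
  obtain ⟨N', hN'⟩ : ∃ N' : Finset V, N' = S'.filter fun x => G.Adj a x := ⟨_, rfl⟩
  rw [← hNa, ← hN, ← hδ] at hda
  have hNN : N' ⊆ Na := by
    rw [hNa, hN']
    exact Finset.filter_subset_filter _ hSS
  have hN'S : N' ⊆ S' := by
    rw [hN']
    exact Finset.filter_subset _ _
  have hN'adj : ∀ x ∈ N', G.Adj a x := by
    intro x hx
    rw [hN', Finset.mem_filter] at hx
    exact hx.2
  have hNdiff : ((Na \ N').card : ℝ) ≤ β * N := by
    rw [← hN] at hcS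
    refine le_trans ?_ hcS
    have h1 : Na \ N' ⊆ S \ S' := by
      intro x hx
      rw [Finset.mem_sdiff, hNa, hN', Finset.mem_filter, Finset.mem_filter] at hx
      rw [Finset.mem_sdiff]
      exact ⟨hx.1.1, fun h => hx.2 ⟨h, hx.1.2⟩⟩
    exact_mod_cast Finset.card_le_card h1
  have hN'c : (δ + η - β) * N ≤ (N'.card : ℝ) := by
    have h1 : ((Na \ N').card : ℝ) = Na.card - N'.card := by
      rw [Finset.card_sdiff_of_subset hNN, Nat.cast_sub (Finset.card_le_card hNN)]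
    linarith
  obtain ⟨D, hD⟩ : ∃ D : ℝ, D = t ^ 2 * L := ⟨_, rfl⟩
  have hD0 : 0 ≤ D := by rw [hD]; positivity
  have hηN : η * N ≤ 1 / 8 * N := mul_le_mul_of_nonneg_right hη1 hN0.le
  have hδh : 1 / 2 ≤ δ := by rw [hδ]; linarith
  obtain ⟨M, hM0, Y, hYN, hYc, hYM, Z, hZN, hZc, hsumZ⟩ := hub_lemma N' (r a) (n := N) (α := β)
    (β := η / 8) (η := η / 2) (D := D) hβ (by linarith) (by positivity) (by linarith) (by linarith)
    (by linarith) (by linarith)
    (by rw [hN]; exact_mod_cast Finset.card_le_univ _)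
    (by
      refine le_trans ?_ hN'c
      apply mul_le_mul_of_nonneg_right _ hN0.le
      linarith) hD0
    (by
      intro U hU U' hU' hUc hUc' m m' hm hm'
      have h1 := hn2 V hV2 G K S' hKG hKS hdK' r hr hcop L hL a U U' (hU.trans hN'S)
        (hU'.trans hN'S) (by rw [← hN]; exact hUc) (by rw [← hN]; exact hUc') m m'
        (fun x hx => ⟨hN'adj x (hU hx), hm x hx⟩) (fun x hx => ⟨hN'adj x (hU' hx), hm' x hx⟩)
      rw [← ht] at h1
      rw [hD]
      exact h1)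
  have hUc : (1 / 2 + 1 / (4 * (k : ℝ)) + η / 2) * Fintype.card V ≤ ((N' \ Y).card : ℝ) := by
    rw [Finset.card_sdiff_of_subset hYN, Nat.cast_sub (Finset.card_le_card hYN), ← hN, ← hδ]
    have h1 : (δ + η / 2) * N ≤ (δ + η - β) * N - η / 8 * N := by
      have h2 : (δ + η - β) * N - η / 8 * N = (δ + η - β - η / 8) * N := by ring
      rw [h2]
      apply mul_le_mul_of_nonneg_right _ hN0.le
      linarith
    linarith
  have hUa : ∀ x ∈ N' \ Y, G.Adj a x ∧ -M ≤ r a x := by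
    intro x hx
    exact ⟨hN'adj x (Finset.mem_sdiff.mp hx).1, hYM x hx⟩
  refine ⟨M, hM0, N' \ Y, Finset.sdiff_subset.trans hN'S, hUc, hUa, ?_⟩
  -- the pointwise bound
  have hpt : ∀ x ∈ Na, r a x ≤ t * M + D + t / (β * N) * rho H r x := by
    intro x hx
    rw [hNa, Finset.mem_filter] at hx
    obtain ⟨Ux, hUx, hUxc, hUxm⟩ := uset hβ H S S' hHS hSS hcS r x (hdH x hx.1)
    have h0 : 0 ≤ rho H r x := Finset.sum_nonneg fun _ _ => abs_nonneg _
    have h1 := hn1 V hV1 G K S' hKG hKS hdK' r hr hcop L hL a x hx.2 (N' \ Y) Ux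
      (Finset.sdiff_subset.trans hN'S) hUx hUc (by
        refine le_trans ?_ hUxc
        rw [← hN]
        apply mul_le_mul_of_nonneg_right _ hN0.le
        linarith) M (rho H r x / (β * Fintype.card V)) hM0 (by positivity) hUa
      (fun y hy => ⟨hHG (hUxm y hy).1, (hUxm y hy).2⟩)
    rw [← ht, ← hN, ← hD] at h1
    have h2 : t * (M + rho H r x / (β * N)) + D = t * M + D + t / (β * N) * rho H r x := by ring
    linarith
  -- the sum
  have hs0 : ∑ x ∈ S, OCY.ext G r a x = ∑ x ∈ Na, r a x := by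
    rw [hNa, Finset.sum_filter]
    rfl
  have hs1 : ∑ x ∈ Na, r a x = ∑ x ∈ N' \ Z, r a x + (∑ x ∈ Z, r a x + ∑ x ∈ Na \ N', r a x) := by
    have h1 := Finset.sum_sdiff (f := r a) hNN
    have h2 := Finset.sum_sdiff (f := r a) hZN
    linarith
  have hdisj : Disjoint Z (Na \ N') := by
    rw [Finset.disjoint_left]
    intro x hx hx2
    exact (Finset.mem_sdiff.mp hx2).2 (hZN hx)
  have hs2 : ∑ x ∈ Z, r a x + ∑ x ∈ Na \ N', r a x ≤ (2 * β * N + 1) * (t * M + D)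
      + t / (β * N) * tot H r := by
    rw [← Finset.sum_union hdisj]
    have h1 : ∑ x ∈ Z ∪ (Na \ N'), r a x
        ≤ ∑ x ∈ Z ∪ (Na \ N'), (t * M + D + t / (β * N) * rho H r x) := by
      refine Finset.sum_le_sum fun x hx => hpt x ?_
      rw [Finset.mem_union] at hx
      rcases hx with hx | hx
      · exact hNN (hZN hx)
      · exact (Finset.mem_sdiff.mp hx).1
    have h2 : ∑ x ∈ Z ∪ (Na \ N'), (t * M + D + t / (β * N) * rho H r x)
        = ((Z ∪ (Na \ N')).card : ℝ) * (t * M + D)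
          + t / (β * N) * ∑ x ∈ Z ∪ (Na \ N'), rho H r x := by
      rw [Finset.sum_add_distrib, Finset.sum_const, nsmul_eq_mul, Finset.mul_sum]
    have h3 : ((Z ∪ (Na \ N')).card : ℝ) ≤ 2 * β * N + 1 := by
      rw [Finset.card_union_of_disjoint hdisj]
      push_cast
      linarith
    have h4 : ∑ x ∈ Z ∪ (Na \ N'), rho H r x ≤ tot H r := by
      refine Finset.sum_le_sum_of_subset_of_nonneg (Finset.subset_univ _) fun x _ _ => ?_
      exact Finset.sum_nonneg fun _ _ => abs_nonneg _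
    have h5 : ((Z ∪ (Na \ N')).card : ℝ) * (t * M + D) ≤ (2 * β * N + 1) * (t * M + D) :=
      mul_le_mul_of_nonneg_right h3 (by positivity)
    have h6 : t / (β * N) * ∑ x ∈ Z ∪ (Na \ N'), rho H r x ≤ t / (β * N) * tot H r :=
      mul_le_mul_of_nonneg_left h4 (by positivity)
    linarith
  rw [hs0, hs1]
  have hfin : 2 * N * D - (η / 8 * N - 1) * M + ((2 * β * N + 1) * (t * M + D)
      + t / (β * N) * tot H r)
      ≤ (5 * t ^ 2 / β ^ 2 + t / β) * tot H r / N - η / 16 * N * M := by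
    have h1 : 2 * N * D - (η / 8 * N - 1) * M + ((2 * β * N + 1) * (t * M + D)
        + t / (β * N) * tot H r)
        = (2 * N + 2 * β * N + 1) * D + t / (β * N) * tot H r
          - (η / 8 * N - 1 - 2 * (t * β) * N - t) * M := by ring
    have h2 : (2 * N + 2 * β * N + 1) * D ≤ 5 * N * D := by
      apply mul_le_mul_of_nonneg_right _ hD0
      nlinarith
    have h3 : 5 * N * D + t / (β * N) * tot H r
        = (5 * t ^ 2 / β ^ 2 + t / β) * tot H r / N := by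
      rw [hD, hLd, ← hN]
      field_simp
    have h4 : η / 16 * N * M ≤ (η / 8 * N - 1 - 2 * (t * β) * N - t) * M := by
      apply mul_le_mul_of_nonneg_right _ hM0
      nlinarith
    linarith
  rw [← hN]
  linarith

end Pool.OCG
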