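import Pool.Agent.OCG.HubOne

/-!
MODULE HubsG (difficulty 3).  The edges at the hubs.

RECIPE.  We may assume `η ≤ 1/8` (replace `η` by `min η (1/8)`).  `N = card V`, `t = card W`, `β = η / (64 t)`, `core` with `β` gives
`K, S'` with the bound `L = tot / (β² N²)`, `hub_one` gives for every `a ∈ B = Sᶜ` numbers `M_a ≥ 0` and sets `U_a`
(choose), and `∑_{x ∈ S} ext G r a x ≤ C₁ tot / N - (η/16) N M_a`.  For `a, b ∈ B` with `G.Adj a b`, `pair_bound` (with `η/2`; the core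
degrees are `≥ (1/2 + 1/(4k) + η/2) N`) gives `r a b ≤ t (M_a + M_b) + t² L`, so also
`ext G r a b ≤ t (M_a + M_b) + t² L` for all `a, b ∈ B` (right side `≥ 0`).  With `|B| ≤ β₀ N`, `β₀ = min 1 (η / (16 t))`:
`∑_{a,b ∈ B} ext + 2 ∑_a ∑_{x ∈ S} ext ≤ 2 t |B| ∑ M_a + |B|² t² L + 2 |B| C₁ tot / N - (η/8) N ∑ M_a ≤ |B| (t²/β² + 2 C₁) tot / N`
(`2 t |B| ≤ (η/8) N`; `|B| ≤ N`).
-/

open Finset
open scoped Classical

namespace Pool.OCG
open Pool.OCY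

theorem hubs {W : Type} [Fintype W] {F : SimpleGraph W} (hF : F ≠ ⊥) {k : ℕ} (hk : 1 ≤ k)
    {c : W → Fin (2 * k + 1)} (hc : Col F (2 * k) c) {η : ℝ} (hη : 0 < η) :
    ∃ C β₀ : ℝ, 0 < C ∧ 0 < β₀ ∧ ∃ n₀ : ℕ, ∀ (V : Type) [Fintype V], n₀ ≤ Fintype.card V →
      ∀ (G H : SimpleGraph V) (S : Finset V), H ≤ G → (∀ a b, H.Adj a b → a ∈ S ∧ b ∈ S) →
      (∀ v ∈ S, (1 / 2 + 1 / (4 * k) + η) * Fintype.card V ≤ H.degree v) →
      (∀ a ∉ S, (1 / 2 + 1 / (4 * k) + η) * Fintype.card V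
        ≤ ((S.filter fun x => G.Adj a x).card : ℝ)) →
      ((Sᶜ.card : ℝ) ≤ β₀ * Fintype.card V) →
      ∀ r : V → V → ℝ, (∀ a b, r a b = r b a) → CopNonpos F G r →
      ∑ a ∈ Sᶜ, ∑ b ∈ Sᶜ, OCY.ext G r a b + 2 * ∑ a ∈ Sᶜ, ∑ x ∈ S, OCY.ext G r a x
        ≤ C * ((Sᶜ.card : ℝ) / Fintype.card V) * tot H r := by
  have ht1 : (1 : ℝ) ≤ (Fintype.card W : ℝ) := by
    obtain ⟨x, _, _⟩ := SimpleGraph.ne_bot_iff_exists_adj.1 hF
    have h : 0 < Fintype.card W := Fintype.card_pos_iff.2 ⟨x⟩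
    exact_mod_cast h
  have hη' : 0 < min η (1 / 8) := lt_min hη (by norm_num)
  have hη'1 : min η (1 / 8) ≤ 1 / 8 := min_le_right _ _
  have hη'2 : min η (1 / 8) ≤ η := min_le_left _ _
  set e : ℝ := min η (1 / 8) with hedef
  set t : ℝ := (Fintype.card W : ℝ) with htdef
  have ht0 : 0 < t := lt_of_lt_of_le one_pos ht1
  obtain ⟨β, hβdef⟩ : ∃ β : ℝ, β = e / (64 * t) := ⟨_, rfl⟩
  have hβ : 0 < β := by rw [hβdef]; positivity
  have hβe : 2 * β ≤ e / 2 := by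
    have h : β ≤ e / 64 := by
      rw [hβdef]
      exact div_le_div_of_nonneg_left hη'.le (by norm_num) (by linarith)
    linarith
  obtain ⟨C₁, hC₁, n1, h1⟩ := hub_one hF hk hc hη' hη'1 hβ (le_of_eq (by rw [hβdef]))
  obtain ⟨n2, h2⟩ := pair_bound hF hk hc (half_pos hη')
  refine ⟨t ^ 2 / β ^ 2 + 2 * C₁, min 1 (e / (16 * t)), by positivity,
    lt_min one_pos (by positivity), max (max n1 n2) 1, ?_⟩
  intro V _ hn G H S hHG hHS hdeg hdegN hcard r hs hr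
  have hn1 : n1 ≤ Fintype.card V := le_trans (le_trans (le_max_left _ _) (le_max_left _ _)) hn
  have hn2 : n2 ≤ Fintype.card V := le_trans (le_trans (le_max_right _ _) (le_max_left _ _)) hn
  have hn3 : 1 ≤ Fintype.card V := le_trans (le_max_right _ _) hn
  have hN : (0 : ℝ) < (Fintype.card V : ℝ) := by exact_mod_cast hn3
  have hdd : (1 / 2 + 1 / (4 * (k : ℝ)) + e) * Fintype.card V ≤
      (1 / 2 + 1 / (4 * (k : ℝ)) + η) * Fintype.card V :=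
    mul_le_mul_of_nonneg_right (by linarith) hN.le
  have hdeg' : ∀ v ∈ S, (1 / 2 + 1 / (4 * (k : ℝ)) + e) * Fintype.card V ≤ H.degree v :=
    fun v hv => hdd.trans (hdeg v hv)
  obtain ⟨K, S', hKH, hSS, hKS, hSd, hKdeg, hKw⟩ :=
    core (δ := 1 / 2 + 1 / (4 * (k : ℝ)) + e) hβ H S hHS hdeg' r hs
  have hrho : ∀ a, 0 ≤ rho H r a := fun a => Finset.sum_nonneg (fun _ _ => abs_nonneg _)
  have htot0 : 0 ≤ tot H r := Finset.sum_nonneg (fun a _ => hrho a)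
  have hδ : (1 / 2 + 1 / (4 * (k : ℝ)) + e / 2) * Fintype.card V ≤
      (1 / 2 + 1 / (4 * (k : ℝ)) + e - 2 * β) * Fintype.card V :=
    mul_le_mul_of_nonneg_right (by linarith) hN.le
  have hub : ∀ a, ∃ (M : ℝ) (U : Finset V), a ∉ S → (0 ≤ M ∧ U ⊆ S' ∧
      (1 / 2 + 1 / (4 * (k : ℝ)) + e / 2) * Fintype.card V ≤ (U.card : ℝ) ∧
      (∀ x ∈ U, G.Adj a x ∧ -M ≤ r a x) ∧
      ∑ x ∈ S, OCY.ext G r a x ≤
        C₁ * tot H r / Fintype.card V - e / 16 * Fintype.card V * M) := by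
    intro a
    by_cases ha : a ∈ S
    · exact ⟨0, ∅, fun h => absurd ha h⟩
    · obtain ⟨M, hM, U, hU, hUc, hUp, hsum⟩ := h1 V hn1 G H K S S' hHG hKH hSS hHS hKS hSd hdeg'
        hKdeg r hs hr hKw a ha (hdd.trans (hdegN a ha))
      exact ⟨M, U, fun _ => ⟨hM, hU, hUc, hUp, hsum⟩⟩
  choose M U hMU using hub
  obtain ⟨L, hLdef⟩ : ∃ L : ℝ, L = tot H r / (β ^ 2 * (Fintype.card V : ℝ) ^ 2) := ⟨_, rfl⟩
  have hL0 : 0 ≤ L := by rw [hLdef]; exact div_nonneg htot0 (by positivity)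
  have hpt : ∀ a ∈ Sᶜ, ∀ b ∈ Sᶜ, OCY.ext G r a b ≤ t * (M a + M b) + t ^ 2 * L := by
    intro a ha b hb
    rw [Finset.mem_compl] at ha hb
    obtain ⟨ha0, ha1, ha2, ha3, -⟩ := hMU a ha
    obtain ⟨hb0, hb1, hb2, hb3, -⟩ := hMU b hb
    unfold OCY.ext
    split_ifs with hab
    · exact h2 V hn2 G K S' (hKH.trans hHG) hKS (fun v hv => hδ.trans (hKdeg v hv)) r hs hr L
        (fun x y hxy => by rw [hLdef]; exact hKw x y hxy) a b hab (U a) (U b) ha1 hb1 ha2 hb2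
        (M a) (M b) ha0 hb0 ha3 hb3
    · have e1 : 0 ≤ t * (M a + M b) := mul_nonneg ht0.le (add_nonneg ha0 hb0)
      have e2 : 0 ≤ t ^ 2 * L := mul_nonneg (by positivity) hL0
      linarith
  have hsum1 : ∑ a ∈ Sᶜ, ∑ b ∈ Sᶜ, OCY.ext G r a b ≤
      2 * t * Sᶜ.card * (∑ a ∈ Sᶜ, M a) + (Sᶜ.card : ℝ) ^ 2 * (t ^ 2 * L) := by
    refine (Finset.sum_le_sum fun a ha => Finset.sum_le_sum fun b hb => hpt a ha b hb).trans
      (le_of_eq ?_)
    simp only [Finset.sum_add_distrib, mul_add, Finset.sum_const, nsmul_eq_mul,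
      ← Finset.mul_sum]
    ring
  have hsum2 : ∑ a ∈ Sᶜ, ∑ x ∈ S, OCY.ext G r a x ≤
      Sᶜ.card * (C₁ * tot H r / Fintype.card V)
        - e / 16 * Fintype.card V * (∑ a ∈ Sᶜ, M a) := by
    refine (Finset.sum_le_sum fun a ha => (hMU a (Finset.mem_compl.1 ha)).2.2.2.2).trans
      (le_of_eq ?_)
    rw [Finset.sum_sub_distrib, Finset.sum_const, nsmul_eq_mul, ← Finset.mul_sum]
  have hM0 : 0 ≤ ∑ a ∈ Sᶜ, M a :=
    Finset.sum_nonneg fun a ha => (hMU a (Finset.mem_compl.1 ha)).1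
  have hB0 : (0 : ℝ) ≤ (Sᶜ.card : ℝ) := Nat.cast_nonneg _
  have hB1 : (Sᶜ.card : ℝ) ≤ Fintype.card V := by
    have := mul_le_mul_of_nonneg_right (min_le_left 1 (e / (16 * t))) hN.le
    linarith
  have hB2 : 2 * t * Sᶜ.card ≤ e / 8 * Fintype.card V := by
    have h3 := hcard.trans (mul_le_mul_of_nonneg_right (min_le_right 1 (e / (16 * t))) hN.le)
    have h4 := mul_le_mul_of_nonneg_left h3 (by positivity : 0 ≤ 2 * t)
    have h5 : 2 * t * (e / (16 * t) * (Fintype.card V : ℝ)) = e / 8 * Fintype.card V := by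
      field_simp
      ring
    linarith
  have hB3 := mul_le_mul_of_nonneg_right hB2 hM0
  have hB4 : (Sᶜ.card : ℝ) ^ 2 * (t ^ 2 * L) ≤
      t ^ 2 / β ^ 2 * ((Sᶜ.card : ℝ) / Fintype.card V) * tot H r := by
    have h3 : (Sᶜ.card : ℝ) ^ 2 * (t ^ 2 * L) ≤
        ((Sᶜ.card : ℝ) * Fintype.card V) * (t ^ 2 * L) := by
      refine mul_le_mul_of_nonneg_right ?_ (mul_nonneg (by positivity) hL0)
      rw [sq]
      exact mul_le_mul_of_nonneg_left hB1 hB0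
    refine h3.trans (le_of_eq ?_)
    rw [hLdef]
    field_simp
  have hB5 : (Sᶜ.card : ℝ) * (C₁ * tot H r / Fintype.card V) =
      C₁ * ((Sᶜ.card : ℝ) / Fintype.card V) * tot H r := by
    ring
  rw [hB5] at hsum2
  have hB6 : (t ^ 2 / β ^ 2 + 2 * C₁) * ((Sᶜ.card : ℝ) / Fintype.card V) * tot H r =
      t ^ 2 / β ^ 2 * ((Sᶜ.card : ℝ) / Fintype.card V) * tot H r +
      2 * (C₁ * ((Sᶜ.card : ℝ) / Fintype.card V) * tot H r) := by ring
  rw [hB6]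
  linarith

end Pool.OCG
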