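import Pool.Agent.OCG.Defs

/-!
MODULE LowG (difficulty 3).  The example for the lower bound.

Vertices `(i, p, (j, b))`: `b` = side, `j` = block, `i` = part of the block, `p` = name.  Two vertices on different sides are
adjacent; on the same side they are adjacent iff they are in the same block and in different parts.
RECIPE.  `low_degree`: other side `s q 2k`, same block other part `(s - 1) q`, total `q ((2k+1) s - 1)`.
`low_sum`: the row sum is `s q 2k - 2k (s-1) q = 2 k q`, times `s q 2k 2` vertices.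
`low_copies`: with `cc i = (f i).2.2.2` (the side): the sum is `#{F.Adj, different sides} - 2k #{F.Adj, same side}
= (2k+1) #{different} - 2k #{all} ≤ 0` (numbers of ordered pairs).
-/

open Finset
open scoped Classical

namespace Pool.OCG
open Pool.OCY

/-- the example -/
def low (k s q : ℕ) : SimpleGraph (Fin s × Fin q × (Fin (2 * k) × Bool)) where
  Adj u v := u.2.2.2 ≠ v.2.2.2 ∨ (u.2.2 = v.2.2 ∧ u.1 ≠ v.1)
  symm := by
    refine ⟨?_⟩
    rintro u v (h | ⟨h1, h2⟩)
    · exact Or.inl h.symm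
    · exact Or.inr ⟨h1.symm, h2.symm⟩
  loopless := by
    refine ⟨?_⟩
    rintro u (h | ⟨_, h⟩)
    · exact h rfl
    · exact h rfl

/-- the weights -/
noncomputable def lw (k : ℕ) {s q : ℕ} (u v : Fin s × Fin q × (Fin (2 * k) × Bool)) : ℝ :=
  if u.2.2.2 = v.2.2.2 then -(2 * k) else 1

theorem lowg_cardA {k s q : ℕ} (u : Fin s × Fin q × (Fin (2 * k) × Bool)) :
    (univ.filter fun v : Fin s × Fin q × (Fin (2 * k) × Bool) => u.2.2.2 ≠ v.2.2.2).card
      = s * (q * (2 * k)) := by
  have h : (univ.filter fun v : Fin s × Fin q × (Fin (2 * k) × Bool) => u.2.2.2 ≠ v.2.2.2)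
      = (univ : Finset (Fin s)) ×ˢ ((univ : Finset (Fin q)) ×ˢ
        ((univ : Finset (Fin (2 * k))) ×ˢ {!u.2.2.2})) := by
    ext ⟨a, b, c, d⟩
    simp only [mem_filter, mem_univ, true_and, mem_product, mem_singleton]
    cases u.2.2.2 <;> cases d <;> simp
  rw [h]
  simp [card_product]

theorem lowg_cardD {k s q : ℕ} (u : Fin s × Fin q × (Fin (2 * k) × Bool)) :
    (univ.filter fun v : Fin s × Fin q × (Fin (2 * k) × Bool) => u.2.2 = v.2.2 ∧ u.1 ≠ v.1).card
      + q = s * q := by
  have h1 : (univ.filter fun v : Fin s × Fin q × (Fin (2 * k) × Bool) => u.2.2 = v.2.2)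
      = (univ : Finset (Fin s)) ×ˢ ((univ : Finset (Fin q)) ×ˢ {u.2.2}) := by
    ext ⟨a, b, c⟩
    simp only [mem_filter, mem_univ, true_and, mem_product, mem_singleton]
    exact eq_comm
  have h2 : (univ.filter fun v : Fin s × Fin q × (Fin (2 * k) × Bool) => u.2.2 = v.2.2 ∧ u.1 = v.1)
      = ({u.1} : Finset (Fin s)) ×ˢ ((univ : Finset (Fin q)) ×ˢ {u.2.2}) := by
    ext ⟨a, b, c⟩
    simp only [mem_filter, mem_univ, true_and, mem_product, mem_singleton]
    constructor
    · rintro ⟨h1, h2⟩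
      exact ⟨h2.symm, h1.symm⟩
    · rintro ⟨h1, h2⟩
      exact ⟨h2.symm, h1.symm⟩
  have h3 : (univ.filter fun v : Fin s × Fin q × (Fin (2 * k) × Bool) => u.2.2 = v.2.2 ∧ u.1 ≠ v.1).card
      + (univ.filter fun v : Fin s × Fin q × (Fin (2 * k) × Bool) => u.2.2 = v.2.2 ∧ u.1 = v.1).card
      = (univ.filter fun v : Fin s × Fin q × (Fin (2 * k) × Bool) => u.2.2 = v.2.2).card := by
    rw [← card_union_of_disjoint]
    · congr 1
      ext v
      simp only [mem_union, mem_filter, mem_univ, true_and]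
      tauto
    · rw [disjoint_left]
      intro v hv hv'
      simp only [mem_filter, mem_univ, true_and] at hv hv'
      exact hv.2 hv'.2
  rw [h1, h2] at h3
  simp only [card_product, card_singleton, card_univ, Fintype.card_fin, mul_one, one_mul] at h3
  exact h3

theorem lowg_adj_card {k s q : ℕ} (u : Fin s × Fin q × (Fin (2 * k) × Bool)) :
    (univ.filter fun v => (low k s q).Adj u v).card =
      (univ.filter fun v : Fin s × Fin q × (Fin (2 * k) × Bool) => u.2.2.2 ≠ v.2.2.2).card
      + (univ.filter fun v : Fin s × Fin q × (Fin (2 * k) × Bool) =>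
        u.2.2 = v.2.2 ∧ u.1 ≠ v.1).card := by
  rw [← card_union_of_disjoint]
  · congr 1
    ext v
    simp only [mem_union, mem_filter, mem_univ, true_and, low]
  · rw [disjoint_left]
    intro v hv hv'
    simp only [mem_filter, mem_univ, true_and] at hv hv'
    exact hv (by rw [hv'.1])

theorem low_degree {k s q : ℕ} (u : Fin s × Fin q × (Fin (2 * k) × Bool)) :
    (low k s q).degree u + q = q * ((2 * k + 1) * s) := by
  have h0 : (low k s q).degree u = (univ.filter fun v => (low k s q).Adj u v).card := by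
    rw [← SimpleGraph.card_neighborFinset_eq_degree]
    congr 1
    ext v
    simp
  rw [h0, lowg_adj_card, lowg_cardA, add_assoc, lowg_cardD]
  ring

theorem low_sum {k s q : ℕ} :
    ∑ u, ∑ v, OCY.ext (low k s q) (lw k) u v = (s * q * (2 * k) * 2) * (2 * (k : ℝ) * q) := by
  have hrow : ∀ u : Fin s × Fin q × (Fin (2 * k) × Bool),
      ∑ v, OCY.ext (low k s q) (lw k) u v = 2 * (k : ℝ) * q := by
    intro u
    have h1 : ∀ v, OCY.ext (low k s q) (lw k) u v =
        (if u.2.2.2 ≠ v.2.2.2 then (1 : ℝ) else 0) +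
          (-(2 * (k : ℝ))) * (if u.2.2 = v.2.2 ∧ u.1 ≠ v.1 then (1 : ℝ) else 0) := by
      intro v
      unfold OCY.ext lw
      by_cases hA : u.2.2.2 = v.2.2.2
      · by_cases hB : u.2.2 = v.2.2 ∧ u.1 ≠ v.1
        · have : (low k s q).Adj u v := Or.inr hB
          simp [this, hA, hB]
        · have : ¬ (low k s q).Adj u v := by
            rintro (h | h)
            · exact h hA
            · exact hB h
          simp [this, hA, hB]
      · have hB : ¬ (u.2.2 = v.2.2 ∧ u.1 ≠ v.1) := by
          rintro ⟨h, _⟩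
          exact hA (by rw [h])
        have : (low k s q).Adj u v := Or.inl hA
        simp [this, hA, hB]
    rw [sum_congr rfl (fun v _ => h1 v), sum_add_distrib, ← mul_sum, sum_boole, sum_boole]
    have hA := lowg_cardA (k := k) (s := s) (q := q) u
    have hD := lowg_cardD (k := k) (s := s) (q := q) u
    have hA' : ((univ.filter fun v : Fin s × Fin q × (Fin (2 * k) × Bool) =>
        u.2.2.2 ≠ v.2.2.2).card : ℝ) = s * (q * (2 * k)) := by
      rw [hA]; push_cast; ring
    have hD' : ((univ.filter fun v : Fin s × Fin q × (Fin (2 * k) × Bool) =>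
        u.2.2 = v.2.2 ∧ u.1 ≠ v.1).card : ℝ) = s * q - q := by
      have : ((univ.filter fun v : Fin s × Fin q × (Fin (2 * k) × Bool) =>
        u.2.2 = v.2.2 ∧ u.1 ≠ v.1).card : ℝ) + q = s * q := by exact_mod_cast hD
      linarith
    rw [hA', hD']
    ring
  rw [sum_congr rfl (fun u _ => hrow u), sum_const, card_univ]
  simp only [Fintype.card_prod, Fintype.card_fin, Fintype.card_bool, nsmul_eq_mul]
  push_cast
  ring

theorem low_copies {W : Type} [Fintype W] {F : SimpleGraph W} {k s q : ℕ}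
    (hcut : ∀ cc : W → Bool, (2 * k + 1) *
      (univ.filter fun x : W × W => F.Adj x.1 x.2 ∧ cc x.1 ≠ cc x.2).card
      ≤ 2 * k * (univ.filter fun x : W × W => F.Adj x.1 x.2).card)
    (f : W → Fin s × Fin q × (Fin (2 * k) × Bool)) :
    ∑ i, ∑ j, (if F.Adj i j then lw k (f i) (f j) else 0) ≤ 0 := by
  have h0 := hcut (fun i => (f i).2.2.2)
  have h1 : ∑ i, ∑ j, (if F.Adj i j then lw k (f i) (f j) else 0) =
      ∑ x : W × W, (if F.Adj x.1 x.2 then lw k (f x.1) (f x.2) else 0) := by
    rw [Fintype.sum_prod_type]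
  have h2 : ∀ x : W × W, (if F.Adj x.1 x.2 then lw k (f x.1) (f x.2) else 0) =
      (2 * (k : ℝ) + 1) * (if F.Adj x.1 x.2 ∧ (f x.1).2.2.2 ≠ (f x.2).2.2.2 then (1 : ℝ) else 0)
        - 2 * k * (if F.Adj x.1 x.2 then (1 : ℝ) else 0) := by
    intro x
    unfold lw
    by_cases hA : F.Adj x.1 x.2
    · by_cases hB : (f x.1).2.2.2 = (f x.2).2.2.2
      · simp [hA, hB]
      · simp [hA, hB]
    · simp [hA]
  rw [h1, sum_congr rfl (fun x _ => h2 x), sum_sub_distrib, ← mul_sum, ← mul_sum, sum_boole,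
    sum_boole]
  have h3 : (2 * (k : ℝ) + 1) *
      ((univ.filter fun x : W × W => F.Adj x.1 x.2 ∧ (f x.1).2.2.2 ≠ (f x.2).2.2.2).card : ℝ)
      ≤ 2 * k * ((univ.filter fun x : W × W => F.Adj x.1 x.2).card : ℝ) := by
    exact_mod_cast h0
  linarith

end Pool.OCG
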