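import Pool.Agent.OCG.Root1
import Pool.Agent.OCG.Root2
import Pool.Agent.OCG.Fold
import Pool.Agent.OCG.CfgA
import Pool.Agent.OCG.CfgB

/-!
MODULE PairB (difficulty 3).  Pointwise bounds from rooted copies of `F`.

RECIPE.  `F` has an edge `w0 w1` (`hF`), `t = card W`, `N = card V`.
`k = 1` (`subst`; then `2 * 1` is `2`, `Fin (2 * 1 + 1)` is `Fin 3`, `1 / (4 * 1) = 1/4`, so the degrees are
`≥ (3/4 + η) N`): `fold3`, `cfg2t t hη`, `root2` with `n = 2` for `pair_bound` (`-1 = 2` in `Fin 3`; `X 2 ⊆ U ∩ U'`), and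
`fold3`, `cfg1t t hη hα`, `root1` for `vert_bound`.
`k ≥ 2`: degrees `≥ (1/2 + η) N`: `fold5`, `cfg2 t hη`, `root2` with `n = 4` (`-1 = 4` in `Fin 5`), and `fold5`,
`cfg1 t hη (min α (1/4))`, `root1`.
(If `N < n₀` nothing is claimed; `r a x`, `G.Adj a x` for `x ∈ U` come from the hypotheses on `U`, `U'`.)
-/

open Finset
open scoped Classical

namespace Pool.OCG
open Pool.OCY

theorem pairb_edge {W : Type} {F : SimpleGraph W} (hF : F ≠ ⊥) : ∃ w0 w1, F.Adj w0 w1 := by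
  by_contra h
  push Not at h
  apply hF
  ext a b
  simp [h a b]

theorem pair_bound {W : Type} [Fintype W] {F : SimpleGraph W} (hF : F ≠ ⊥) {k : ℕ} (hk : 1 ≤ k)
    {c : W → Fin (2 * k + 1)} (hc : Col F (2 * k) c) {η : ℝ} (hη : 0 < η) :
    ∃ n₀ : ℕ, ∀ (V : Type) [Fintype V], n₀ ≤ Fintype.card V →
      ∀ (G K : SimpleGraph V) (S : Finset V), K ≤ G → (∀ a b, K.Adj a b → a ∈ S ∧ b ∈ S) →
      (∀ v ∈ S, (1 / 2 + 1 / (4 * k) + η) * Fintype.card V ≤ K.degree v) →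
      ∀ r : V → V → ℝ, (∀ a b, r a b = r b a) → CopNonpos F G r →
      ∀ Λ : ℝ, (∀ a b, K.Adj a b → |r a b| ≤ Λ) → ∀ a b, G.Adj a b →
      ∀ U U' : Finset V, U ⊆ S → U' ⊆ S →
      (1 / 2 + 1 / (4 * k) + η) * Fintype.card V ≤ U.card →
      (1 / 2 + 1 / (4 * k) + η) * Fintype.card V ≤ U'.card →
      ∀ M M' : ℝ, 0 ≤ M → 0 ≤ M' → (∀ x ∈ U, G.Adj a x ∧ -M ≤ r a x) →
      (∀ x ∈ U', G.Adj b x ∧ -M' ≤ r b x) →
      r a b ≤ (Fintype.card W : ℝ) * (M + M') + (Fintype.card W : ℝ) ^ 2 * Λ := by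
  obtain ⟨w0, w1, h01⟩ := pairb_edge hF
  rcases Nat.lt_or_ge k 2 with hk2 | hk2
  · have hk1 : k = 1 := by omega
    subst hk1
    obtain ⟨c', hc', hw0, hw1⟩ := fold3 (W := W) (F := F) (c := c) hc h01
    obtain ⟨n₀, hn₀⟩ := cfg2t (Fintype.card W) hη
    refine ⟨n₀, ?_⟩
    intro V _ hN G K S hK hKS hdeg r hs hr Λ hΛ a b hab U U' hU hU' hUc hU'c M M' hM hM' hU1 hU'1
    have e : (1 / 2 + 1 / (4 * ((1 : ℕ) : ℝ)) + η) = 3 / 4 + η := by push_cast; ring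
    rw [e] at hUc hU'c
    have hdeg' : ∀ v ∈ S, (3 / 4 + η) * (Fintype.card V : ℝ) ≤ K.degree v := by
      intro v hv
      have := hdeg v hv
      rw [e] at this
      exact this
    obtain ⟨X, hX1, hX2, ha, hb, hXU, hXUU, hXU', hXK⟩ :=
      hn₀ V hN K S hKS hdeg' U U' hU hU' hUc hU'c a b
    exact root2 (n := 2) (le_refl 2) hc' h01 hw0 hw1 hK hs hr hΛ a b hab X
      (fun s => (hX1 s).ge) hX2 ha hb hXK hM hM' (fun x hx => hU1 x (hXU hx))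
      (fun x hx => hU1 x (mem_inter.1 (hXUU hx)).1)
      (fun x hx => hU'1 x (hXU' hx)) (fun x hx => hU'1 x (mem_inter.1 (hXUU hx)).2)
  · obtain ⟨c', hc', hw0, hw1⟩ := fold5 hk2 hc h01
    obtain ⟨n₀, hn₀⟩ := cfg2 (Fintype.card W) hη
    refine ⟨n₀, ?_⟩
    intro V _ hN G K S hK hKS hdeg r hs hr Λ hΛ a b hab U U' hU hU' hUc hU'c M M' hM hM' hU1 hU'1
    have hk0 : (0 : ℝ) ≤ 1 / (4 * (k : ℝ)) := by positivity
    have hN0 : (0 : ℝ) ≤ (Fintype.card V : ℝ) := Nat.cast_nonneg _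
    have e : (1 / 2 + η) * (Fintype.card V : ℝ) ≤
        (1 / 2 + 1 / (4 * (k : ℝ)) + η) * (Fintype.card V : ℝ) :=
      mul_le_mul_of_nonneg_right (by linarith) hN0
    have hdeg' : ∀ v ∈ S, (1 / 2 + η) * (Fintype.card V : ℝ) ≤ K.degree v := by
      intro v hv
      exact e.trans (hdeg v hv)
    obtain ⟨X, hX1, hX2, ha, hb, hXU1, hXU4, hXU0, hXU2, hXK⟩ :=
      hn₀ V hN K S hKS hdeg' U U' hU hU' (e.trans hUc) (e.trans hU'c) a b
    exact root2 (n := 4) (by norm_num) hc' h01 hw0 hw1 hK hs hr hΛ a b hab X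
      (fun s => (hX1 s).ge) hX2 ha hb hXK hM hM' (fun x hx => hU1 x (hXU1 hx))
      (fun x hx => hU1 x (hXU4 hx))
      (fun x hx => hU'1 x (hXU0 hx)) (fun x hx => hU'1 x (hXU2 hx))

theorem vert_bound {W : Type} [Fintype W] {F : SimpleGraph W} (hF : F ≠ ⊥) {k : ℕ} (hk : 1 ≤ k)
    {c : W → Fin (2 * k + 1)} (hc : Col F (2 * k) c) {η α : ℝ} (hη : 0 < η) (hα : 0 < α) :
    ∃ n₀ : ℕ, ∀ (V : Type) [Fintype V], n₀ ≤ Fintype.card V →
      ∀ (G K : SimpleGraph V) (S : Finset V), K ≤ G → (∀ a b, K.Adj a b → a ∈ S ∧ b ∈ S) →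
      (∀ v ∈ S, (1 / 2 + 1 / (4 * k) + η) * Fintype.card V ≤ K.degree v) →
      ∀ r : V → V → ℝ, (∀ a b, r a b = r b a) → CopNonpos F G r →
      ∀ Λ : ℝ, (∀ a b, K.Adj a b → |r a b| ≤ Λ) → ∀ a, ∀ U U' : Finset V, U ⊆ S → U' ⊆ S →
      α * Fintype.card V ≤ U.card → (Fintype.card V : ℝ) / 4 ≤ U'.card →
      ∀ m m' : ℝ, (∀ x ∈ U, G.Adj a x ∧ m ≤ r a x) → (∀ x ∈ U', G.Adj a x ∧ m' ≤ r a x) →
      m + m' ≤ (Fintype.card W : ℝ) ^ 2 * Λ := by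
  obtain ⟨w0, w1, h01⟩ := pairb_edge hF
  rcases Nat.lt_or_ge k 2 with hk2 | hk2
  · have hk1 : k = 1 := by omega
    subst hk1
    obtain ⟨c', hc', hw0, hw1⟩ := fold3 (W := W) (F := F) (c := c) hc h01
    obtain ⟨n₀, hn₀⟩ := cfg1t (Fintype.card W) hη hα
    refine ⟨n₀, ?_⟩
    intro V _ hN G K S hK hKS hdeg r hs hr Λ hΛ a U U' hU hU' hUc hU'c m m' hU1 hU'1
    have e : (1 / 2 + 1 / (4 * ((1 : ℕ) : ℝ)) + η) = 3 / 4 + η := by push_cast; ring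
    have hdeg' : ∀ v ∈ S, (3 / 4 + η) * (Fintype.card V : ℝ) ≤ K.degree v := by
      intro v hv
      have := hdeg v hv
      rw [e] at this
      exact this
    obtain ⟨X, hX1, hX2, ha, hXU, hXU', hXK⟩ :=
      hn₀ V hN K S hKS hdeg' U U' hU hU' hUc hU'c a
    exact root1 (n := 2) (le_refl 2) hc' h01 hw0 hK hs hr hΛ a X
      (fun s => (hX1 s).ge) hX2 ha hXK (fun x hx => hU1 x (hXU hx))
      (fun x hx => hU'1 x (hXU' hx))
  · obtain ⟨c', hc', hw0, hw1⟩ := fold5 hk2 hc h01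
    obtain ⟨n₀, hn₀⟩ := cfg1 (Fintype.card W) hη (α := min α (1 / 4))
      (lt_min hα (by norm_num))
    refine ⟨n₀, ?_⟩
    intro V _ hN G K S hK hKS hdeg r hs hr Λ hΛ a U U' hU hU' hUc hU'c m m' hU1 hU'1
    have hk0 : (0 : ℝ) ≤ 1 / (4 * (k : ℝ)) := by positivity
    have hN0 : (0 : ℝ) ≤ (Fintype.card V : ℝ) := Nat.cast_nonneg _
    have e : (1 / 2 + η) * (Fintype.card V : ℝ) ≤
        (1 / 2 + 1 / (4 * (k : ℝ)) + η) * (Fintype.card V : ℝ) :=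
      mul_le_mul_of_nonneg_right (by linarith) hN0
    have hdeg' : ∀ v ∈ S, (1 / 2 + η) * (Fintype.card V : ℝ) ≤ K.degree v := by
      intro v hv
      exact e.trans (hdeg v hv)
    have e1 : min α (1 / 4) * (Fintype.card V : ℝ) ≤ U.card :=
      (mul_le_mul_of_nonneg_right (min_le_left _ _) hN0).trans hUc
    have e2 : min α (1 / 4) * (Fintype.card V : ℝ) ≤ U'.card := by
      refine (mul_le_mul_of_nonneg_right (min_le_right _ _) hN0).trans ?_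
      linarith
    obtain ⟨X, hX1, hX2, ha, hXU1, hXU4, hXK⟩ :=
      hn₀ V hN K S hKS hdeg' U U' hU hU' e1 e2 a
    exact root1 (n := 4) (by norm_num) hc' h01 hw0 hK hs hr hΛ a X
      (fun s => (hX1 s).ge) hX2 ha hXK (fun x hx => hU1 x (hXU1 hx))
      (fun x hx => hU'1 x (hXU4 hx))

end Pool.OCG
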