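import Pool.Agent.OCG.Defs

/-!
MODULE Root1 (difficulty 3).  Copies of `F` with one vertex at a given vertex `a`, the rest in a blow-up of a cycle.

RECIPE.  `t = card W`.  For a colouring `c` with `Col F n c`, `c w0 = 0`, choose an injective `g : W → V` with
`g w ∈ X (c w)` (enumerate each `X s` injectively by `Fin t`: `u s : Fin t → V`, image in `X s`, `e : W ≃ Fin t`,
`g w = u (c w) (e w)`; injective because the `X s` are pairwise disjoint).  Let `f w = if w = w0 then a else g w`.
It is injective (`a ∉ X s`) and a homomorphism `F → G`: an edge not at `w0` has `c j = c i + 1` or `c i = c j + 1`, so it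
is a `K`-edge (`K ≤ G`) of weight `≥ -Λ`; an edge `w0 j` has `c j = 1` or `c j = -1` (`0 = c j + 1`), so `f j ∈ X 1` or
`f j ∈ X (-1)`, and its weight is `≥ m` or `≥ m'`.  Note `Λ ≥ 0` (there is a `K`-edge: all `X s` are nonempty).
With `d₁`, `d₂` the numbers of neighbours `j` of `w0` with `c j = 1`, resp. not: `hr f` gives
`2 (d₁ m + d₂ m') ≤ t ^ 2 Λ` (at most `t ^ 2` ordered pairs; `2`: both orders, `r` symmetric; if `1 = -1` does
not happen, `n ≥ 2`).  The same for the colouring `w ↦ - c w` (it also satisfies `Col F n`, and is `0` at `w0`)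
gives `2 (d₁ m' + d₂ m) ≤ t ^ 2 Λ` (now the neighbours with `c j = 1` are in `X (-1)`).  Sum: with
`d = d₁ + d₂ ≥ 1` (`w1`): `2 d (m + m') ≤ 2 t ^ 2 Λ`, so `m + m' ≤ t ^ 2 Λ` (trivial if `m + m' ≤ 0`).
-/

open Finset
open scoped Classical

namespace Pool.OCG
open Pool.OCY

theorem root1_one {W V : Type*} [Fintype W] {F : SimpleGraph W} {n : ℕ} 
    {c : W → Fin (n + 1)} (hc : Col F n c) {w0 : W} (hw0 : c w0 = 0)
    {G K : SimpleGraph V} (hK : K ≤ G) {r : V → V → ℝ} (hs : ∀ a b, r a b = r b a)
    (hr : CopNonpos F G r) {Λ : ℝ} (hΛ : ∀ a b, K.Adj a b → |r a b| ≤ Λ) (hΛ0 : 0 ≤ Λ) (a : V)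
    (X : Fin (n + 1) → Finset V) (hX : ∀ s, Fintype.card W ≤ (X s).card)
    (hd : ∀ s s', s ≠ s' → Disjoint (X s) (X s')) (ha : ∀ s, a ∉ X s)
    (hXK : ∀ s, ∀ x ∈ X s, ∀ y ∈ X (s + 1), K.Adj x y) {m m' : ℝ}
    (h1 : ∀ x ∈ X 1, G.Adj a x ∧ m ≤ r a x) (h2 : ∀ x ∈ X (-1), G.Adj a x ∧ m' ≤ r a x) :
    2 * (∑ j, if F.Adj w0 j then (if c j = 1 then m else m') else 0) ≤
      (Fintype.card W : ℝ) ^ 2 * Λ := by
  have hu : ∀ s, Nonempty (W ↪ X s) := fun s => by
    apply Function.Embedding.nonempty_of_card_le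
    rw [Fintype.card_coe]
    exact hX s
  let u : ∀ s, W ↪ X s := fun s => (hu s).some
  let g : W → V := fun w => (u (c w) w : V)
  have hgX : ∀ w, g w ∈ X (c w) := fun w => (u (c w) w).2
  have hginj : Function.Injective g := by
    intro w w' hww
    by_cases hcc : c w = c w'
    · have h3 : (u (c w) w : V) = (u (c w') w' : V) := hww
      rw [hcc] at h3
      exact (u (c w')).injective (Subtype.ext h3)
    · exact absurd hww (fun h => Finset.disjoint_left.mp (hd _ _ hcc) (hgX w) (by rw [h]; exact hgX w'))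
  let f : W → V := fun w => if w = w0 then a else g w
  have hf0 : f w0 = a := if_pos rfl
  have hf1 : ∀ w, w ≠ w0 → f w = g w := fun w hw => if_neg hw
  have hfinj : Function.Injective f := by
    intro w w' hww
    by_cases hw : w = w0
    · by_cases hw' : w' = w0
      · rw [hw, hw']
      · rw [hw, hf0, hf1 w' hw'] at hww
        exact absurd (hgX w') (by rw [← hww]; exact ha _)
    · by_cases hw' : w' = w0
      · rw [hw', hf0, hf1 w hw] at hww
        exact absurd (hgX w) (by rw [hww]; exact ha _)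
      · rw [hf1 w hw, hf1 w' hw'] at hww
        exact hginj hww
  have hnb : ∀ j, F.Adj w0 j → G.Adj a (g j) ∧ (if c j = 1 then m else m') ≤ r a (g j) := by
    intro j hj
    by_cases hcj : c j = 1
    · rw [if_pos hcj]
      exact h1 _ (by rw [← hcj]; exact hgX j)
    · rw [if_neg hcj]
      have h3 : c j = -1 := by
        rcases hc w0 j hj with h | h
        · rw [hw0, zero_add] at h
          exact absurd h hcj
        · rw [hw0] at h
          exact eq_neg_of_add_eq_zero_left h.symm
      exact h2 _ (by rw [← h3]; exact hgX j)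
  have hKK : ∀ i j, F.Adj i j → K.Adj (g i) (g j) := by
    intro i j hij
    rcases hc i j hij with h | h
    · exact hXK (c i) _ (hgX i) _ (by rw [← h]; exact hgX j)
    · exact (hXK (c j) _ (hgX j) _ (by rw [← h]; exact hgX i)).symm
  have hsum := hr f hfinj (fun i j hij => by
    by_cases hi : i = w0
    · have hj : j ≠ w0 := fun h => by
        rw [hi, h] at hij
        exact F.loopless.irrefl _ hij
      rw [hi, hf0, hf1 j hj]
      rw [hi] at hij
      exact (hnb j hij).1
    · by_cases hj : j = w0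
      · rw [hj, hf0, hf1 i hi]
        rw [hj] at hij
        exact (hnb i hij.symm).1.symm
      · rw [hf1 i hi, hf1 j hj]
        exact hK (hKK i j hij))
  let T : W → ℝ := fun j => if F.Adj w0 j then (if c j = 1 then m else m') else 0
  have hT0 : T w0 = 0 := if_neg (F.loopless.irrefl w0)
  have hpt : ∀ i j, (if i = w0 then T j else 0) + (if j = w0 then T i else 0) - Λ ≤
      (if F.Adj i j then r (f i) (f j) else 0) := by
    intro i j
    by_cases hi : i = w0
    · by_cases hj : j = w0
      · rw [if_pos hi, if_pos hj, hi, hj, hT0, if_neg (F.loopless.irrefl w0)]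
        linarith
      · rw [if_pos hi, if_neg hj, hi, hf0, hf1 j hj]
        show (if F.Adj w0 j then (if c j = 1 then m else m') else 0) + 0 - Λ ≤ _
        by_cases hadj : F.Adj w0 j
        · rw [if_pos hadj, if_pos hadj]
          have := (hnb j hadj).2
          linarith
        · rw [if_neg hadj, if_neg hadj]
          linarith
    · by_cases hj : j = w0
      · rw [if_neg hi, if_pos hj, hj, hf0, hf1 i hi]
        show 0 + (if F.Adj w0 i then (if c i = 1 then m else m') else 0) - Λ ≤ _
        by_cases hadj : F.Adj w0 i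
        · rw [if_pos hadj, if_pos hadj.symm, hs]
          have := (hnb i hadj).2
          linarith
        · rw [if_neg hadj, if_neg (fun h => hadj h.symm)]
          linarith
      · rw [if_neg hi, if_neg hj, hf1 i hi, hf1 j hj]
        by_cases hadj : F.Adj i j
        · rw [if_pos hadj]
          have := (abs_le.mp (hΛ _ _ (hKK i j hadj))).1
          linarith
        · rw [if_neg hadj]
          linarith
  have hle : ∑ i, ∑ j, ((if i = w0 then T j else 0) + (if j = w0 then T i else 0) - Λ) ≤
      ∑ i, ∑ j, (if F.Adj i j then r (f i) (f j) else 0) :=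
    Finset.sum_le_sum fun i _ => Finset.sum_le_sum fun j _ => hpt i j
  have hcalc : ∑ i, ∑ j, ((if i = w0 then T j else 0) + (if j = w0 then T i else 0) - Λ) =
      2 * (∑ j, T j) - (Fintype.card W : ℝ) ^ 2 * Λ := by
    simp only [Finset.sum_sub_distrib, Finset.sum_add_distrib]
    have e1 : ∑ i, ∑ j, (if i = w0 then T j else 0) = ∑ j, T j := by
      rw [Finset.sum_comm]
      refine Finset.sum_congr rfl fun j _ => ?_
      rw [Finset.sum_ite_eq' Finset.univ w0 (fun _ => T j), if_pos (Finset.mem_univ _)]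
    have e2 : ∑ i, ∑ j, (if j = w0 then T i else 0) = ∑ j, T j := by
      refine Finset.sum_congr rfl fun i _ => ?_
      rw [Finset.sum_ite_eq' Finset.univ w0 (fun _ => T i), if_pos (Finset.mem_univ _)]
    have e3 : ∑ _i : W, ∑ _j : W, Λ = (Fintype.card W : ℝ) ^ 2 * Λ := by
      simp only [Finset.sum_const, Finset.card_univ, nsmul_eq_mul]
      ring
    rw [e1, e2, e3]
    ring
  rw [hcalc] at hle
  show 2 * (∑ j, T j) ≤ _
  linarith

theorem root1 {W V : Type*} [Fintype W] {F : SimpleGraph W} {n : ℕ} (hn : 2 ≤ n)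
    {c : W → Fin (n + 1)} (hc : Col F n c) {w0 w1 : W} (h01 : F.Adj w0 w1) (hw0 : c w0 = 0)
    {G K : SimpleGraph V} (hK : K ≤ G) {r : V → V → ℝ} (hs : ∀ a b, r a b = r b a)
    (hr : CopNonpos F G r) {Λ : ℝ} (hΛ : ∀ a b, K.Adj a b → |r a b| ≤ Λ) (a : V)
    (X : Fin (n + 1) → Finset V) (hX : ∀ s, Fintype.card W ≤ (X s).card)
    (hd : ∀ s s', s ≠ s' → Disjoint (X s) (X s')) (ha : ∀ s, a ∉ X s)
    (hXK : ∀ s, ∀ x ∈ X s, ∀ y ∈ X (s + 1), K.Adj x y) {m m' : ℝ}
    (h1 : ∀ x ∈ X 1, G.Adj a x ∧ m ≤ r a x) (h2 : ∀ x ∈ X (-1), G.Adj a x ∧ m' ≤ r a x) :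
    m + m' ≤ (Fintype.card W : ℝ) ^ 2 * Λ := by
  have hΛ0 : 0 ≤ Λ := by
    have hpos : 0 < Fintype.card W := Fintype.card_pos_iff.mpr ⟨w0⟩
    obtain ⟨x, hx⟩ := Finset.card_pos.mp (lt_of_lt_of_le hpos (hX 0))
    obtain ⟨y, hy⟩ := Finset.card_pos.mp (lt_of_lt_of_le hpos (hX (0 + 1)))
    exact (abs_nonneg _).trans (hΛ x y (hXK 0 x hx y hy))
  have hc' : Col F n (fun w => -c w) := by
    intro i j hij
    rcases hc i j hij with h | h
    · right
      show -c i = -c j + 1
      rw [h]; abel
    · left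
      show -c j = -c i + 1
      rw [h]; abel
  have i1 := root1_one hc hw0 hK hs hr hΛ hΛ0 a X hX hd ha hXK h1 h2
  have i2 := root1_one hc' (by rw [hw0, neg_zero]) hK hs hr hΛ hΛ0 a X hX hd ha hXK h1 h2
  have hne : (1 : Fin (n + 1)) ≠ -1 := by
    intro h
    have h3 : (1 : Fin (n + 1)) + 1 = 0 := by
      nth_rewrite 1 [h]
      exact neg_add_cancel 1
    have h4 := congrArg Fin.val h3
    rw [Fin.val_add, Fin.val_one', Fin.val_zero] at h4
    rw [Nat.mod_eq_of_lt (by omega : 1 < n + 1), Nat.mod_eq_of_lt (by omega : 1 + 1 < n + 1)] at h4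
    omega
  have hsum : (∑ j, if F.Adj w0 j then (if c j = 1 then m else m') else 0) +
      (∑ j, if F.Adj w0 j then (if -c j = 1 then m else m') else 0) =
      ∑ j, if F.Adj w0 j then (m + m') else 0 := by
    rw [← Finset.sum_add_distrib]
    refine Finset.sum_congr rfl fun j _ => ?_
    by_cases hadj : F.Adj w0 j
    · rw [if_pos hadj, if_pos hadj, if_pos hadj]
      by_cases hcj : c j = 1
      · rw [if_pos hcj, if_neg (by rw [hcj]; exact fun h => hne h.symm)]
      · have h3 : c j = -1 := by
          rcases hc w0 j hadj with h | h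
          · rw [hw0, zero_add] at h
            exact absurd h hcj
          · rw [hw0] at h
            exact eq_neg_of_add_eq_zero_left h.symm
        rw [if_neg hcj, if_pos (by rw [h3, neg_neg])]
        ring
    · rw [if_neg hadj, if_neg hadj, if_neg hadj, add_zero]
  have hnn : 0 ≤ (Fintype.card W : ℝ) ^ 2 * Λ := by positivity
  by_cases hmm : 0 ≤ m + m'
  · have h5 : m + m' ≤ ∑ j, if F.Adj w0 j then (m + m') else 0 := by
      have h6 := Finset.single_le_sum (f := fun j => if F.Adj w0 j then (m + m') else 0)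
        (fun j _ => by
          show 0 ≤ (if F.Adj w0 j then (m + m') else 0)
          split
          · exact hmm
          · exact le_rfl) (Finset.mem_univ w1)
      simp only [if_pos h01] at h6
      exact h6
    linarith
  · linarith

end Pool.OCG
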