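import Pool.Agent.OCG.Defs
import Pool.Agent.OCY.Avg

/-!
MODULE WalkB (difficulty 3).  A closed walk of length `2k+1` in a blow-up, all `F`-copies nonpositive.

RECIPE.  Let `t = Fintype.card W` (`> 0`, because `F` has an edge), `e : W ≃ Fin t`
(`Fintype.equivFinOfCardEq`), `R x y = ∑ p, ∑ q, r (u x p) (u y q)` (symmetric, as `r` is).
(1) For a fixed shift `s₀ : Fin (2k+1)` put `χ w = τ (c w + s₀)`.  For `ρ : Fin m → Fin t` the map
`f w = u (χ w) (e w + ρ (χ w))` is injective (`hu`; `+` in `Fin t`, `NeZero t`) and a homomorphism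
`F → G`: if `F.Adj i j` then `c j = c i + 1` or `c i = c j + 1`, use `hτ (c i + s₀)` or `hτ (c j + s₀)`
(`c i + 1 + s₀ = (c i + s₀) + 1`).  Sum `hr f ≤ 0` over all `ρ`.  For an edge `i j` of `F` with
`x = χ i ≠ y = χ j` : `∑ ρ, r (u x (e i + ρ x)) (u y (e j + ρ y))` is, by `Pool.OCY.avg2` for the type
`Fin t`, `M := m`, indices `x ≠ y`, a positive constant `t ^ m / t ^ 2` (independent of the edge) times
`∑ p, ∑ q, r (u x (e i + p)) (u y (e j + q)) = R x y` (shift of the summation: `Equiv.addLeft`).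
Hence `∑ i, ∑ j, (if F.Adj i j then R (χ i) (χ j) else 0) ≤ 0`.
(2) Sum over `s₀`: for an edge with `c j = c i + 1`:
`∑ s₀, R (τ (c i + s₀)) (τ (c i + s₀ + 1)) = ∑ s, R (τ s) (τ (s + 1)) =: Q` (shift); for `c i = c j + 1` the same by
the symmetry of `R`.  So (number of ordered edges of `F`) * `Q ≤ 0`, and the number is positive: `Q ≤ 0`.
-/

open Finset
open scoped Classical

namespace Pool.OCG
open Pool.OCY

/-- the sum over all labels of one edge -/
theorem walkB_edge {t m : ℕ} [NeZero t] {V : Type*} (r : V → V → ℝ) (u : Fin m → Fin t → V) {x y : Fin m} (hxy : x ≠ y)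
    (a b : Fin t) :
    (t : ℝ) ^ 2 * ∑ ρ : Fin m → Fin t, r (u x (a + ρ x)) (u y (b + ρ y))
      = (t : ℝ) ^ m * ∑ p, ∑ q, r (u x p) (u y q) := by
  have h := avg2 (V := Fin t) (M := m) hxy (fun p q => r (u x (a + p)) (u y (b + q)))
  rw [Fintype.card_fin] at h
  rw [h]
  congr 1
  rw [← Equiv.sum_comp (Equiv.addLeft a) (fun p => ∑ q, r (u x p) (u y q))]
  refine Finset.sum_congr rfl fun p _ => ?_
  rw [← Equiv.sum_comp (Equiv.addLeft b) (fun q => r (u x (Equiv.addLeft a p)) (u y q))]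
  rfl

theorem walk_box {W V : Type*} [Fintype W] {F : SimpleGraph W} (hF : F ≠ ⊥) {k : ℕ}
    {c : W → Fin (2 * k + 1)} (hc : Col F (2 * k) c) {G : SimpleGraph V} {r : V → V → ℝ}
    (hs : ∀ a b, r a b = r b a) (hr : CopNonpos F G r) {m : ℕ}
    (u : Fin m → Fin (Fintype.card W) → V) (hu : ∀ x y p q, u x p = u y q → x = y ∧ p = q)
    (τ : Fin (2 * k + 1) → Fin m) (hτ : ∀ s, τ s ≠ τ (s + 1) ∧
      ∀ p q, G.Adj (u (τ s) p) (u (τ (s + 1)) q)) :
    ∑ s, ∑ p, ∑ q, r (u (τ s) p) (u (τ (s + 1)) q) ≤ 0 := by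
  obtain ⟨i0, j0, hij0⟩ : ∃ i j, F.Adj i j := by
    by_contra hcon
    push Not at hcon
    exact hF (by
      refine SimpleGraph.ext ?_
      funext i j
      simp [hcon i j])
  have hne : Nonempty W := ⟨i0⟩
  have ht0 : 0 < Fintype.card W := Fintype.card_pos
  have : NeZero (Fintype.card W) := ⟨ht0.ne'⟩
  have htR : (0 : ℝ) < (Fintype.card W : ℝ) := by exact_mod_cast ht0
  let e : W ≃ Fin (Fintype.card W) := Fintype.equivFin W
  set R : Fin m → Fin m → ℝ := fun x y => ∑ p, ∑ q, r (u x p) (u y q) with hR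
  have hRs : ∀ x y, R x y = R y x := by
    intro x y
    show ∑ p, ∑ q, r (u x p) (u y q) = ∑ p, ∑ q, r (u y p) (u x q)
    rw [Finset.sum_comm]
    exact Finset.sum_congr rfl fun p _ => Finset.sum_congr rfl fun q _ => hs _ _
  have hshift : ∀ (a s0 : Fin (2 * k + 1)), a + 1 + s0 = a + s0 + 1 := fun a s0 => by abel
  -- the edges
  have hedge : ∀ (s0 : Fin (2 * k + 1)) (i j : W), F.Adj i j → τ (c i + s0) ≠ τ (c j + s0) ∧
      ∀ p q, G.Adj (u (τ (c i + s0)) p) (u (τ (c j + s0)) q) := by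
    intro s0 i j hij
    rcases hc i j hij with h | h
    · rw [h, hshift]
      exact hτ (c i + s0)
    · rw [h, hshift]
      exact ⟨(hτ (c j + s0)).1.symm, fun p q => ((hτ (c j + s0)).2 q p).symm⟩
  -- step 1
  have step1 : ∀ s0 : Fin (2 * k + 1),
      ∑ i, ∑ j, (if F.Adj i j then R (τ (c i + s0)) (τ (c j + s0)) else 0) ≤ 0 := by
    intro s0
    have h1 : ∀ ρ : Fin m → Fin (Fintype.card W), ∑ i, ∑ j, (if F.Adj i j then
        r (u (τ (c i + s0)) (e i + ρ (τ (c i + s0)))) (u (τ (c j + s0)) (e j + ρ (τ (c j + s0)))) else 0) ≤ 0 := by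
      intro ρ
      refine hr (fun w => u (τ (c w + s0)) (e w + ρ (τ (c w + s0)))) ?_ ?_
      · intro w w' hw
        obtain ⟨h1, h2⟩ := hu _ _ _ _ hw
        rw [h1] at h2
        exact e.injective (add_right_cancel h2)
      · intro i j hij
        exact (hedge s0 i j hij).2 _ _
    have h2 := Finset.sum_nonpos fun (ρ : Fin m → Fin (Fintype.card W)) (_ : ρ ∈ Finset.univ) => h1 ρ
    rw [Finset.sum_comm] at h2
    have h3 : (Fintype.card W : ℝ) ^ 2 * ∑ i, ∑ ρ : Fin m → Fin (Fintype.card W), ∑ j, (if F.Adj i j then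
        r (u (τ (c i + s0)) (e i + ρ (τ (c i + s0)))) (u (τ (c j + s0)) (e j + ρ (τ (c j + s0)))) else 0)
        = (Fintype.card W : ℝ) ^ m * ∑ i, ∑ j, (if F.Adj i j then R (τ (c i + s0)) (τ (c j + s0)) else 0) := by
      rw [Finset.mul_sum, Finset.mul_sum]
      refine Finset.sum_congr rfl fun i _ => ?_
      rw [Finset.sum_comm, Finset.mul_sum, Finset.mul_sum]
      refine Finset.sum_congr rfl fun j _ => ?_
      by_cases hij : F.Adj i j
      · simp only [hij, if_true]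
        exact walkB_edge r u (hedge s0 i j hij).1 (e i) (e j)
      · simp [hij]
    have h4 : (Fintype.card W : ℝ) ^ m * ∑ i, ∑ j, (if F.Adj i j then R (τ (c i + s0)) (τ (c j + s0)) else 0) ≤ 0 := by
      rw [← h3]
      exact mul_nonpos_of_nonneg_of_nonpos (by positivity) h2
    have h5 : (0 : ℝ) < (Fintype.card W : ℝ) ^ m := by positivity
    by_contra hcon
    push Not at hcon
    exact absurd h4 (not_le.2 (mul_pos h5 hcon))
  -- step 2
  have hQ : ∀ i j, F.Adj i j → ∑ s0, R (τ (c i + s0)) (τ (c j + s0)) = ∑ s, R (τ s) (τ (s + 1)) := by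
    intro i j hij
    rcases hc i j hij with h | h
    · rw [← Equiv.sum_comp (Equiv.addLeft (c i)) (fun s => R (τ s) (τ (s + 1)))]
      refine Finset.sum_congr rfl fun s0 _ => ?_
      rw [h, hshift]
      rfl
    · rw [← Equiv.sum_comp (Equiv.addLeft (c j)) (fun s => R (τ s) (τ (s + 1)))]
      refine Finset.sum_congr rfl fun s0 _ => ?_
      rw [h, hshift, hRs]
      rfl
  have h6 := Finset.sum_nonpos fun (s0 : Fin (2 * k + 1)) (_ : s0 ∈ Finset.univ) => step1 s0
  rw [Finset.sum_comm] at h6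
  have h7 : ∑ i, ∑ s0, ∑ j, (if F.Adj i j then R (τ (c i + s0)) (τ (c j + s0)) else 0)
      = (∑ i, ∑ j, (if F.Adj i j then (1 : ℝ) else 0)) * ∑ s, R (τ s) (τ (s + 1)) := by
    rw [Finset.sum_mul]
    refine Finset.sum_congr rfl fun i _ => ?_
    rw [Finset.sum_comm, Finset.sum_mul]
    refine Finset.sum_congr rfl fun j _ => ?_
    by_cases hij : F.Adj i j
    · simp only [hij, if_true, one_mul]
      exact hQ i j hij
    · simp [hij]
  rw [h7] at h6
  have h8 : (0 : ℝ) < ∑ i, ∑ j, (if F.Adj i j then (1 : ℝ) else 0) := by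
    refine Finset.sum_pos' (fun i _ => Finset.sum_nonneg fun j _ => by split_ifs <;> norm_num) ⟨i0, Finset.mem_univ _, ?_⟩
    refine Finset.sum_pos' (fun j _ => by split_ifs <;> norm_num) ⟨j0, Finset.mem_univ _, ?_⟩
    rw [if_pos hij0]
    norm_num
  by_contra hcon
  push Not at hcon
  exact absurd h6 (not_le.2 (mul_pos h8 hcon))

end Pool.OCG
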